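import Pool.Agent.V11244.Zf.STb
import Pool.Agent.H310R3.Bridge

/-!
# Three-cycles: the theorem
-/

set_option maxHeartbeats 1000000
set_option linter.all false
set_option synthInstance.maxSize 2000

namespace Pool.Agent.Helper672.ZFA.V244

open FirstOrder FirstOrder.Language
open Pool.Agent.H310

universe u

section

variable {N : Type u} [L.Structure N] [hN : IsModel N]
variable {α β : Type u} [ITy N α] [ITy N β]

/-- The closure operator. -/
noncomputable def HS (r : IPow N α → IPow N α) (E : IPow N α) : IPow N α :=
  sep N fun a => a ∈ E ∨ ∃ S, S ⊆ E ∧ a ∈ r S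

theorem int_HS {r : IPow N α → IPow N α} (hr : IntF N r) : IntF N (fun E => HS r E) := by
  unfold HS
  (repeat' (first | with_reducible exact IntF.id | with_reducible exact IntF.fst' | with_reducible exact IntF.snd' | with_reducible exact IntF.const _ | with_reducible exact Int.const _ | assumption | with_reducible apply Int.and | with_reducible apply Int.or | with_reducible apply Int.not | with_reducible apply Int.imp | with_reducible apply Int.iff | with_reducible apply Int.ne | with_reducible apply Int.eq | with_reducible apply Int.mem | with_reducible apply Int.subset | with_reducible apply Int.ltN | with_reducible apply Int.leN | with_reducible_and_instances apply Int.le | with_reducible_and_instances apply Int.lt | with_reducible apply Int.all | with_reducible apply Int.ex | with_reducible apply IntF.fst | with_reducible apply IntF.snd | with_reducible apply IntF.app | with_reducible apply IntF.inl | with_reducible apply IntF.inr | with_reducible_and_instances apply IntF.mul | with_reducible_and_instances apply IntF.inv | with_reducible_and_instances apply IntF.add | with_reducible_and_instances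 apply IntF.sub | with_reducible_and_instances apply IntF.neg | with_reducible_and_instances apply IntF.smul | with_reducible apply Int.fin | with_reducible apply IntF.sep | with_reducible apply IntF.lam | with_reducible apply IntF.insert | with_reducible apply IntF.singleton | with_reducible apply IntF.union | with_reducible apply IntF.iimage | with_reducible apply IntF.ite | with_reducible apply IntF.the | with_reducible apply IntF.irec | with_reducible apply IntF.succ | with_reducible apply IntF.val | with_reducible apply IntF.mk | (with_reducible refine Int.comp ?_ ?_; assumption) | (with_reducible refine Int.comp₂ ?_ ?_ ?_; assumption) | (with_reducible refine Int.comp₃ ?_ ?_ ?_ ?_; assumption) | (with_reducible refine Int.comp₄ ?_ ?_ ?_ ?_ ?_; assumption) | (with_reducible refine IntF.comp ?_ ?_; assumption) | (with_reducible refine IntF.comp₂ ?_ ?_ ?_; assumption) | (with_reducible refine IntF.comp₃ ?_ ?_ ?_ ?_; assumption) | with_reducible apply IntF.pair))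

theorem mem_HS {r : IPow N α → IPow N α} (hr : IntF N r) {E : IPow N α} {a : α} :
    a ∈ HS r E ↔ (a ∈ E ∨ ∃ S, S ⊆ E ∧ a ∈ r S) := by
  unfold HS
  exact mem_sep (by (repeat' (first | with_reducible exact IntF.id | with_reducible exact IntF.fst' | with_reducible exact IntF.snd' | with_reducible exact IntF.const _ | with_reducible exact Int.const _ | assumption | with_reducible apply Int.and | with_reducible apply Int.or | with_reducible apply Int.not | with_reducible apply Int.imp | with_reducible apply Int.iff | with_reducible apply Int.ne | with_reducible apply Int.eq | with_reducible apply Int.mem | with_reducible apply Int.subset | with_reducible apply Int.ltN | with_reducible apply Int.leN | with_reducible_and_instances apply Int.le | with_reducible_and_instances apply Int.lt | with_reducible apply Int.all | with_reducible apply Int.ex | with_reducible apply IntF.fst | with_reducible apply IntF.snd | with_reducible apply IntF.app | with_reducible apply IntF.inl | with_reducible apply IntF.inr | with_reducible_and_instances apply IntF.mul | with_reducible_and_instances apply IntF.inv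 | with_reducible_and_instances apply IntF.add | with_reducible_and_instances apply IntF.sub | with_reducible_and_instances apply IntF.neg | with_reducible_and_instances apply IntF.smul | with_reducible apply Int.fin | with_reducible apply IntF.sep | with_reducible apply IntF.lam | with_reducible apply IntF.insert | with_reducible apply IntF.singleton | with_reducible apply IntF.union | with_reducible apply IntF.iimage | with_reducible apply IntF.ite | with_reducible apply IntF.the | with_reducible apply IntF.irec | with_reducible apply IntF.succ | with_reducible apply IntF.val | with_reducible apply IntF.mk | (with_reducible refine Int.comp ?_ ?_; assumption) | (with_reducible refine Int.comp₂ ?_ ?_ ?_; assumption) | (with_reducible refine Int.comp₃ ?_ ?_ ?_ ?_; assumption) | (with_reducible refine Int.comp₄ ?_ ?_ ?_ ?_ ?_; assumption) | (with_reducible refine IntF.comp ?_ ?_; assumption) | (with_reducible refine IntF.comp₂ ?_ ?_ ?_; assumption) | (with_reducible refine IntF.comp₃ ?_ ?_ ?_ ?_; assumption) | with_reducible apply IntF.pair)))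

open Classical in
/-- The self-injection. -/
noncomputable def hS (e : IFun N α (INat N)) (U : IPow N α) (q : IPow N α → IPm N α)
    (S : IPow N α) : IPow N α :=
  if Ps e (q S) then spp (q S) else U \ spp (q S)

theorem int_hS (e : IFun N α (INat N)) (U : IPow N α) {q : IPow N α → IPm N α}
    (hq : IntF N q) : IntF N (fun S => hS e U q S) := by
  have hsp := int_spp (N := N) (α := α)
  have hsq : IntF N (fun S => spp (q S)) := hsp.comp hq
  have hPs := int_Ps e
  have hPq : Int N (fun S => Ps e (q S)) := Int.comp hPs hq
  exact IntF.ite hPq hsq (IntF.sdiff (IntF.const _) hsq)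

theorem core_S3 (hinf : ¬ FinP N (fun _ : α => True)) {Γ : IPow N (IPow N α) → IPow N α}
    (hG : GG Γ) {q : IPow N α → IPm N α} (hq : IntF N q) (hqt : ∀ S, Th (q S))
    (hqi : ∀ S S', Big S → Big S' → q S = q S' → S = S') : False := by
  classical
  have hB := int_Big (N := N) (α := α)
  have hsp := int_spp (N := N) (α := α)
  have hsq : IntF N (fun S => spp (q S)) := hsp.comp hq
  -- the closure
  obtain ⟨H, hH, mH⟩ : ∃ H : IPow N α → IPow N α, IntF N H ∧
      ∀ E a, a ∈ H E ↔ (a ∈ E ∨ ∃ S, S ⊆ E ∧ a ∈ spp (q S)) :=
    ⟨HS fun S => spp (q S), int_HS hsq, fun E a => mem_HS hsq⟩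
  have hsub : ∀ E, E ⊆ H E := fun E a ha => (mH E a).2 (Or.inl ha)
  have hfin : ∀ E, IFin E → IFin (H E) := by
    intro E hE
    have h1 : IFin (isUnion (iimage (fun S => spp (q S)) (ipow E))) := by
      refine IFin.isUnion (IFin.image hE.pow hsq) fun T hT => ?_
      obtain ⟨S, -, rfl⟩ := (mem_iimage hsq).1 hT
      exact (hqt S).fin
    refine (hE.union h1).subset fun a ha => ?_
    rw [mem_union]
    rcases (mH E a).1 ha with h | ⟨S, h2, h3⟩
    · exact Or.inl h
    · exact Or.inr (mem_isUnion.2 ⟨_, (mem_iimage hsq).2 ⟨S, mem_ipow.2 h2, rfl⟩, h3⟩)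
  have hmono : ∀ C D, C ⊆ D → H C ⊆ H D := by
    intro C D hCD a ha
    rw [mH] at ha ⊢
    rcases ha with h | ⟨S, h2, h3⟩
    · exact Or.inl (hCD a h)
    · exact Or.inr ⟨S, fun x hx => hCD x (h2 x hx), h3⟩
  -- seven points
  haveI := infinite_of hinf
  let u : ℕ ↪ α := Infinite.natEmbedding α
  obtain ⟨E, hE, hE'⟩ := finP_finset (N := N) ((Finset.range 7).map u)
  obtain ⟨U, hU, hUc, huU⟩ : ∃ U : IPow N α, IFin U ∧ H U ⊆ U ∧ ∀ i, i < 7 → u i ∈ U :=
    ⟨CL H E, fin_CL hH hG hfin hsub hE, CL_closed hH hmono,
      fun i hi => subset_CL hH _ (hE' _ (Finset.mem_map.2 ⟨i, Finset.mem_range.2 hi, rfl⟩))⟩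
  have key7 : ∀ s : Finset α, (∀ a, a ∈ U → a ∈ s) → 7 ≤ s.card := by
    intro s hs
    have h1 : (Finset.range 7).map u ⊆ s := by
      intro a ha
      rw [Finset.mem_map] at ha
      obtain ⟨i, hi, rfl⟩ := ha
      exact hs _ (huU i (Finset.mem_range.1 hi))
    have h2 := Finset.card_le_card h1
    rwa [Finset.card_map, Finset.card_range] at h2
  have c3 : ∀ x y z : α, ({x, y, z} : Finset α).card ≤ 3 := fun x y z => Finset.card_le_three
  have supp_sub : ∀ S, S ⊆ U → spp (q S) ⊆ U := fun S hS a ha =>
    hUc a ((mH U a).2 (Or.inr ⟨S, hS, ha⟩))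
  -- the order
  obtain ⟨e, n, -, he, -⟩ := exists_BN hU
  obtain ⟨h, hh, h_pos, h_neg⟩ : ∃ h : IPow N α → IPow N α, IntF N h ∧
      (∀ S, Ps e (q S) → h S = spp (q S)) ∧ ∀ S, ¬ Ps e (q S) → h S = U \ spp (q S) :=
    ⟨hS e U q, int_hS e U hq, fun S hS => if_pos hS, fun S hS => if_neg hS⟩
  -- the self-injection
  have clash : ∀ S S', ¬ spp (q S) = U \ spp (q S') := by
    intro S S' e1
    obtain ⟨x, y, z, -, -, -, h1⟩ := hqt S
    obtain ⟨x', y', z', -, -, -, h1'⟩ := hqt S'
    have h2 := key7 ({x, y, z} ∪ {x', y', z'}) fun a ha => by
      rw [Finset.mem_union]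
      by_cases h3 : a ∈ spp (q S')
      · right
        have := (h1' a).1 (mem_spp.1 h3)
        simp only [Finset.mem_insert, Finset.mem_singleton]
        exact this
      · left
        have h4 : a ∈ spp (q S) := by
          rw [e1, mem_sdiff]
          exact ⟨ha, h3⟩
        have := (h1 a).1 (mem_spp.1 h4)
        simp only [Finset.mem_insert, Finset.mem_singleton]
        exact this
    have h3 := Finset.card_union_le ({x, y, z} : Finset α) {x', y', z'}
    have h4 := c3 x y z
    have h5 := c3 x' y' z'
    omega
  have big_supp : ∀ S, Big (spp (q S)) := by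
    intro S
    obtain ⟨x, y, z, h1, h2, h3, h4⟩ := hqt S
    exact ⟨(hqt S).fin, x, y, mem_spp.2 ((h4 x).2 (Or.inl rfl)),
      mem_spp.2 ((h4 y).2 (Or.inr (Or.inl rfl))), h1⟩
  have big_diff : ∀ S, Big (U \ spp (q S)) := by
    intro S
    refine ⟨hU.subset fun a ha => (mem_sdiff.1 ha).1, ?_⟩
    by_contra hcon
    push Not at hcon
    obtain ⟨x, y, z, h1, h2, h3, h4⟩ := hqt S
    have h5 := key7 ({x, y, z}) fun a ha => by
      by_contra h6
      have h7 : ¬ a ∈ spp (q S) := fun h7 => h6 (by
        have := (h4 a).1 (mem_spp.1 h7)
        simp only [Finset.mem_insert, Finset.mem_singleton]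
        exact this)
      have h8 := key7 ({x, y, z} ∪ {a}) fun b hb => by
        by_cases h9 : b ∈ spp (q S)
        · have := (h4 b).1 (mem_spp.1 h9)
          simp only [Finset.mem_union, Finset.mem_insert, Finset.mem_singleton]
          exact Or.inl this
        · have := hcon b a (mem_sdiff.2 ⟨hb, h9⟩) (mem_sdiff.2 ⟨ha, h7⟩)
          simp only [Finset.mem_union, Finset.mem_insert, Finset.mem_singleton]
          exact Or.inr this
      have h9 := Finset.card_union_le ({x, y, z} : Finset α) {a}
      have h10 := c3 x y z
      rw [Finset.card_singleton] at h9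
      omega
    have := c3 x y z
    omega
  have hBU : Big U := by
    refine ⟨hU, u 0, u 1, huU 0 (by norm_num), huU 1 (by norm_num), fun h1 => ?_⟩
    exact absurd (u.injective h1) (by norm_num)
  have hpI : Int N (fun S : IPow N α => Big S ∧ S ⊆ U) := by (repeat' (first | with_reducible exact IntF.id | with_reducible exact IntF.fst' | with_reducible exact IntF.snd' | with_reducible exact IntF.const _ | with_reducible exact Int.const _ | assumption | with_reducible apply Int.and | with_reducible apply Int.or | with_reducible apply Int.not | with_reducible apply Int.imp | with_reducible apply Int.iff | with_reducible apply Int.ne | with_reducible apply Int.eq | with_reducible apply Int.mem | with_reducible apply Int.subset | with_reducible apply Int.ltN | with_reducible apply Int.leN | with_reducible_and_instances apply Int.le | with_reducible_and_instances apply Int.lt | with_reducible apply Int.all | with_reducible apply Int.ex | with_reducible apply IntF.fst | with_reducible apply IntF.snd | with_reducible apply IntF.app | with_reducible apply IntF.inl | with_reducible apply IntF.inr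 | with_reducible_and_instances apply IntF.mul | with_reducible_and_instances apply IntF.inv | with_reducible_and_instances apply IntF.add | with_reducible_and_instances apply IntF.sub | with_reducible_and_instances apply IntF.neg | with_reducible_and_instances apply IntF.smul | with_reducible apply Int.fin | with_reducible apply IntF.sep | with_reducible apply IntF.lam | with_reducible apply IntF.insert | with_reducible apply IntF.singleton | with_reducible apply IntF.union | with_reducible apply IntF.iimage | with_reducible apply IntF.ite | with_reducible apply IntF.the | with_reducible apply IntF.irec | with_reducible apply IntF.succ | with_reducible apply IntF.val | with_reducible apply IntF.mk | (with_reducible refine Int.comp ?_ ?_; assumption) | (with_reducible refine Int.comp₂ ?_ ?_ ?_; assumption) | (with_reducible refine Int.comp₃ ?_ ?_ ?_ ?_; assumption) | (with_reducible refine Int.comp₄ ?_ ?_ ?_ ?_ ?_; assumption) | (with_reducible refine IntF.comp ?_ ?_; assumption) | (with_reducible refine IntF.comp₂ ?_ ?_ ?_; assumption) | (with_reducible refine IntF.comp₃ ?_ ?_ ?_ ?_; assumption)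 | with_reducible apply IntF.pair))
  have hmap : ∀ S : IPow N α, Big S ∧ S ⊆ U → Big (h S) ∧ h S ⊆ U := by
    rintro S ⟨hS, hS'⟩
    by_cases hp : Ps e (q S)
    · rw [h_pos S hp]
      exact ⟨big_supp S, supp_sub S hS'⟩
    · rw [h_neg S hp]
      exact ⟨big_diff S, fun a ha => (mem_sdiff.1 ha).1⟩
  have hinj : ∀ S T : IPow N α, Big S ∧ S ⊆ U → Big T ∧ T ⊆ U → h S = h T → S = T := by
    rintro S T ⟨hS, hS'⟩ ⟨hT, hT'⟩ hST
    refine hqi S T hS hT ?_
    by_cases hp : Ps e (q S) <;> by_cases hp' : Ps e (q T)
    · rw [h_pos S hp, h_pos T hp'] at hST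
      exact cyc_det (hqt S) (fun a b ha hb => he a b (supp_sub S hS' a ha) (supp_sub S hS' b hb))
        hST ⟨fun _ => hp', fun _ => hp⟩
    · rw [h_pos S hp, h_neg T hp'] at hST
      exact absurd hST (clash _ _)
    · rw [h_neg S hp, h_pos T hp'] at hST
      exact absurd hST.symm (clash _ _)
    · rw [h_neg S hp, h_neg T hp'] at hST
      refine cyc_det (hqt S) (fun a b ha hb => he a b (supp_sub S hS' a ha) (supp_sub S hS' b hb))
        (IPow.ext' fun a => ?_) ⟨fun h => absurd h hp, fun h => absurd h hp'⟩
      constructor
      · intro ha
        by_contra hcon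
        have h1 : a ∈ U \ spp (q T) := mem_sdiff.2 ⟨supp_sub S hS' a ha, hcon⟩
        rw [← hST, mem_sdiff] at h1
        exact h1.2 ha
      · intro ha
        by_contra hcon
        have h1 : a ∈ U \ spp (q S) := mem_sdiff.2 ⟨supp_sub T hT' a ha, hcon⟩
        rw [hST, mem_sdiff] at h1
        exact h1.2 ha
  obtain ⟨S, ⟨hS, hS'⟩, hSU⟩ := no_self_inj (p := fun S : IPow N α => Big S ∧ S ⊆ U) hpI
    ⟨ipow U, hU.pow, fun S hS => mem_ipow.2 hS.2⟩ hh hmap hinj (b := U) ⟨hBU, fun _ h => h⟩
  obtain ⟨x, y, z, h1, h2, h3, h4⟩ := hqt S
  by_cases hp : Ps e (q S)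
  · rw [h_pos S hp] at hSU
    have h5 := key7 ({x, y, z}) fun a ha => by
      rw [← hSU] at ha
      have := (h4 a).1 (mem_spp.1 ha)
      simp only [Finset.mem_insert, Finset.mem_singleton]
      exact this
    have := c3 x y z
    omega
  · rw [h_neg S hp] at hSU
    have h5 : x ∈ spp (q S) := mem_spp.2 ((h4 x).2 (Or.inl rfl))
    have h6 := supp_sub S hS' x h5
    rw [← hSU, mem_sdiff] at h6
    exact h6.2 h5

theorem no_inj_S3 (hinf : ¬ FinP N (fun _ : α => True)) {F : FPt N α → IPm N α} (hF : IntF N F)
    (hinj : ∀ P Q, F P = F Q → P = Q) (hth : ∀ P, Th (F P)) : False := by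
  have hc := int_cpt (N := N) (α := α)
  have hs : IntF N (fun S : IPow N α => ({S} : IPow N (IPow N α))) := IntF.singleton IntF.id
  refine core_S3 hinf (gg_S3 hF hinj hth) (q := fun S => F (cpt {S})) ?_ (fun S => hth _)
    fun S S' h h' e => big_cpt_inj h h' (hinj _ _ e)
  exact hF.comp (hc.comp hs)

end

end Pool.Agent.Helper672.ZFA.V244
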