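import Pool.Agent.V11244.Zf.AEa

/-!
# Finite-to-one functions: the theorem
-/

set_option maxHeartbeats 1000000
set_option linter.all false
set_option synthInstance.maxSize 2000

namespace Pool.Agent.Helper672.ZFA.V244

open FirstOrder FirstOrder.Language
open Pool.Agent.H310

universe u

section

variable {N : Type u} [L.Structure N] [hN : IsModel N]
variable {α : Type u} [ITy N α]

variable {Γ : IPow N (IPow N α) → IPow N α} (hG : GG Γ) {f : FPt N α → α} (hf : IntF N f)
  (hfib : ∀ b, FinP N (fun P => f P = b)) {cl : α → IPow N α} (hcl : IntF N cl)
  (cfin : ∀ a, IFin (cl a)) (c0 : ∀ a, a ∈ cl a) (c1 : ∀ a b, b ∈ cl a → cl b ⊆ cl a)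

/-- The classes on level `n`. -/
noncomputable def K1 (cl : α → IPow N α) (lev : α → INat N) (n : INat N) :
    IPow N (IPow N α) :=
  sep N fun S => Big S ∧ ∃ a, lev a = n ∧ ∀ b, (b ∈ S ↔ cl b = cl a)

theorem int_K1 (hcl : IntF N cl) {lev : α → INat N} (hl : IntF N lev) :
    IntF N (fun n => K1 cl lev n) := by
  have hB := int_Big (N := N) (α := α)
  unfold K1
  (repeat' (first | with_reducible exact IntF.id | with_reducible exact IntF.fst' | with_reducible exact IntF.snd' | with_reducible exact IntF.const _ | with_reducible exact Int.const _ | assumption | with_reducible apply Int.and | with_reducible apply Int.or | with_reducible apply Int.not | with_reducible apply Int.imp | with_reducible apply Int.iff | with_reducible apply Int.ne | with_reducible apply Int.eq | with_reducible apply Int.mem | with_reducible apply Int.subset | with_reducible apply Int.ltN | with_reducible apply Int.leN | with_reducible_and_instances apply Int.le | with_reducible_and_instances apply Int.lt | with_reducible apply Int.all | with_reducible apply Int.ex | with_reducible apply IntF.fst | with_reducible apply IntF.snd | with_reducible apply IntF.app | with_reducible apply IntF.inl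 | with_reducible apply IntF.inr | with_reducible_and_instances apply IntF.mul | with_reducible_and_instances apply IntF.inv | with_reducible_and_instances apply IntF.add | with_reducible_and_instances apply IntF.sub | with_reducible_and_instances apply IntF.neg | with_reducible_and_instances apply IntF.smul | with_reducible apply Int.fin | with_reducible apply IntF.sep | with_reducible apply IntF.lam | with_reducible apply IntF.insert | with_reducible apply IntF.singleton | with_reducible apply IntF.union | with_reducible apply IntF.iimage | with_reducible apply IntF.ite | with_reducible apply IntF.the | with_reducible apply IntF.irec | with_reducible apply IntF.succ | with_reducible apply IntF.val | with_reducible apply IntF.mk | (with_reducible refine Int.comp ?_ ?_; assumption) | (with_reducible refine Int.comp₂ ?_ ?_ ?_; assumption) | (with_reducible refine Int.comp₃ ?_ ?_ ?_ ?_; assumption) | (with_reducible refine Int.comp₄ ?_ ?_ ?_ ?_ ?_; assumption) | (with_reducible refine IntF.comp ?_ ?_; assumption) | (with_reducible refine IntF.comp₂ ?_ ?_ ?_; assumption) | (with_reducible refine IntF.comp₃ ?_ ?_ ?_ ?_; assumption) | with_reducible apply IntF.pair))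

theorem mem_K1 (hcl : IntF N cl) {lev : α → INat N} (hl : IntF N lev) {n : INat N}
    {S : IPow N α} : S ∈ K1 cl lev n ↔
      (Big S ∧ ∃ a, lev a = n ∧ ∀ b, (b ∈ S ↔ cl b = cl a)) := by
  have hB := int_Big (N := N) (α := α)
  unfold K1
  exact mem_sep (by (repeat' (first | with_reducible exact IntF.id | with_reducible exact IntF.fst' | with_reducible exact IntF.snd' | with_reducible exact IntF.const _ | with_reducible exact Int.const _ | assumption | with_reducible apply Int.and | with_reducible apply Int.or | with_reducible apply Int.not | with_reducible apply Int.imp | with_reducible apply Int.iff | with_reducible apply Int.ne | with_reducible apply Int.eq | with_reducible apply Int.mem | with_reducible apply Int.subset | with_reducible apply Int.ltN | with_reducible apply Int.leN | with_reducible_and_instances apply Int.le | with_reducible_and_instances apply Int.lt | with_reducible apply Int.all | with_reducible apply Int.ex | with_reducible apply IntF.fst | with_reducible apply IntF.snd | with_reducible apply IntF.app | with_reducible apply IntF.inl | with_reducible apply IntF.inr | with_reducible_and_instances apply IntF.mul | with_reducible_and_instances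 apply IntF.inv | with_reducible_and_instances apply IntF.add | with_reducible_and_instances apply IntF.sub | with_reducible_and_instances apply IntF.neg | with_reducible_and_instances apply IntF.smul | with_reducible apply Int.fin | with_reducible apply IntF.sep | with_reducible apply IntF.lam | with_reducible apply IntF.insert | with_reducible apply IntF.singleton | with_reducible apply IntF.union | with_reducible apply IntF.iimage | with_reducible apply IntF.ite | with_reducible apply IntF.the | with_reducible apply IntF.irec | with_reducible apply IntF.succ | with_reducible apply IntF.val | with_reducible apply IntF.mk | (with_reducible refine Int.comp ?_ ?_; assumption) | (with_reducible refine Int.comp₂ ?_ ?_ ?_; assumption) | (with_reducible refine Int.comp₃ ?_ ?_ ?_ ?_; assumption) | (with_reducible refine Int.comp₄ ?_ ?_ ?_ ?_ ?_; assumption) | (with_reducible refine IntF.comp ?_ ?_; assumption) | (with_reducible refine IntF.comp₂ ?_ ?_ ?_; assumption) | (with_reducible refine IntF.comp₃ ?_ ?_ ?_ ?_; assumption) | with_reducible apply IntF.pair)))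

include hG hf hfib hcl cfin c0 in
theorem step1 : ∃ n₀, ∀ a b, n₀ < lv (cl a) → cl b = cl a → b = a := by
  have hlv := int_lv (N := N) (α := α)
  have hl : IntF N (fun a => lv (cl a)) := hlv.comp hcl
  have hD : ∀ n, DFam (K1 cl (fun a => lv (cl a)) n) := by
    intro n
    refine ⟨fun S hS => ((mem_K1 hcl hl).1 hS).1, fun S S' x hS hS' hx hx' => ?_⟩
    obtain ⟨-, a, -, h1⟩ := (mem_K1 hcl hl).1 hS
    obtain ⟨-, a', -, h2⟩ := (mem_K1 hcl hl).1 hS'
    have h3 : cl a = cl a' := ((h1 x).1 hx).symm.trans ((h2 x).1 hx')
    exact IPow.ext' fun b => by rw [h1, h2, h3]
  have hdis : ∀ m n S, S ∈ K1 cl (fun a => lv (cl a)) m → S ∈ K1 cl (fun a => lv (cl a)) n → m = n := by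
    intro m n S h1 h2
    obtain ⟨⟨-, x, y, hx, -⟩, a, h3, h4⟩ := (mem_K1 hcl hl).1 h1
    obtain ⟨-, a', h5, h6⟩ := (mem_K1 hcl hl).1 h2
    have h7 : cl a = cl a' := ((h4 x).1 hx).symm.trans ((h6 x).1 hx)
    rw [← h3, ← h5, h7]
  obtain ⟨n₀, h⟩ := toolA hG hf hfib (int_K1 hcl hl) hD hdis
  refine ⟨n₀, fun a b hab e => ?_⟩
  by_contra hne
  have hI : Int N (fun b => cl b = cl a) := by (repeat' (first | with_reducible exact IntF.id | with_reducible exact IntF.fst' | with_reducible exact IntF.snd' | with_reducible exact IntF.const _ | with_reducible exact Int.const _ | assumption | with_reducible apply Int.and | with_reducible apply Int.or | with_reducible apply Int.not | with_reducible apply Int.imp | with_reducible apply Int.iff | with_reducible apply Int.ne | with_reducible apply Int.eq | with_reducible apply Int.mem | with_reducible apply Int.subset | with_reducible apply Int.ltN | with_reducible apply Int.leN | with_reducible_and_instances apply Int.le | with_reducible_and_instances apply Int.lt | with_reducible apply Int.all | with_reducible apply Int.ex | with_reducible apply IntF.fst | with_reducible apply IntF.snd | with_reducible apply IntF.app | with_reducible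 apply IntF.inl | with_reducible apply IntF.inr | with_reducible_and_instances apply IntF.mul | with_reducible_and_instances apply IntF.inv | with_reducible_and_instances apply IntF.add | with_reducible_and_instances apply IntF.sub | with_reducible_and_instances apply IntF.neg | with_reducible_and_instances apply IntF.smul | with_reducible apply Int.fin | with_reducible apply IntF.sep | with_reducible apply IntF.lam | with_reducible apply IntF.insert | with_reducible apply IntF.singleton | with_reducible apply IntF.union | with_reducible apply IntF.iimage | with_reducible apply IntF.ite | with_reducible apply IntF.the | with_reducible apply IntF.irec | with_reducible apply IntF.succ | with_reducible apply IntF.val | with_reducible apply IntF.mk | (with_reducible refine Int.comp ?_ ?_; assumption) | (with_reducible refine Int.comp₂ ?_ ?_ ?_; assumption) | (with_reducible refine Int.comp₃ ?_ ?_ ?_ ?_; assumption) | (with_reducible refine Int.comp₄ ?_ ?_ ?_ ?_ ?_; assumption) | (with_reducible refine IntF.comp ?_ ?_; assumption) | (with_reducible refine IntF.comp₂ ?_ ?_ ?_; assumption) | (with_reducible refine IntF.comp₃ ?_ ?_ ?_ ?_; assumption) | with_reducible apply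 IntF.pair))
  have hS : sep N (fun b => cl b = cl a) ∈ K1 cl (fun a => lv (cl a)) (lv (cl a)) := by
    refine (mem_K1 hcl hl).2 ⟨⟨(cfin a).subset fun x hx => ?_, b, a, (mem_sep hI).2 e,
      (mem_sep hI).2 rfl, hne⟩, a, rfl, fun b => mem_sep hI⟩
    have := (mem_sep hI).1 hx
    rw [← this]
    exact c0 x
  exact absurd (h _ _ hS) (not_le.2 hab)

/-- The fibres over level `n`. -/
noncomputable def K2 (lev : α → INat N) (g : α → α) (a₀ : α) (n : INat N) :
    IPow N (IPow N α) :=
  sep N fun S => Big S ∧ ∃ b, lev b = n ∧ ∀ a, (a ∈ S ↔ (¬ a = a₀ ∧ g a = b))

theorem int_K2 {lev : α → INat N} (hl : IntF N lev) {g : α → α} (hg : IntF N g) (a₀ : α) :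
    IntF N (fun n => K2 lev g a₀ n) := by
  have hB := int_Big (N := N) (α := α)
  unfold K2
  (repeat' (first | with_reducible exact IntF.id | with_reducible exact IntF.fst' | with_reducible exact IntF.snd' | with_reducible exact IntF.const _ | with_reducible exact Int.const _ | assumption | with_reducible apply Int.and | with_reducible apply Int.or | with_reducible apply Int.not | with_reducible apply Int.imp | with_reducible apply Int.iff | with_reducible apply Int.ne | with_reducible apply Int.eq | with_reducible apply Int.mem | with_reducible apply Int.subset | with_reducible apply Int.ltN | with_reducible apply Int.leN | with_reducible_and_instances apply Int.le | with_reducible_and_instances apply Int.lt | with_reducible apply Int.all | with_reducible apply Int.ex | with_reducible apply IntF.fst | with_reducible apply IntF.snd | with_reducible apply IntF.app | with_reducible apply IntF.inl | with_reducible apply IntF.inr | with_reducible_and_instances apply IntF.mul | with_reducible_and_instances apply IntF.inv | with_reducible_and_instances apply IntF.add | with_reducible_and_instances apply IntF.sub | with_reducible_and_instances apply IntF.neg | with_reducible_and_instances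 apply IntF.smul | with_reducible apply Int.fin | with_reducible apply IntF.sep | with_reducible apply IntF.lam | with_reducible apply IntF.insert | with_reducible apply IntF.singleton | with_reducible apply IntF.union | with_reducible apply IntF.iimage | with_reducible apply IntF.ite | with_reducible apply IntF.the | with_reducible apply IntF.irec | with_reducible apply IntF.succ | with_reducible apply IntF.val | with_reducible apply IntF.mk | (with_reducible refine Int.comp ?_ ?_; assumption) | (with_reducible refine Int.comp₂ ?_ ?_ ?_; assumption) | (with_reducible refine Int.comp₃ ?_ ?_ ?_ ?_; assumption) | (with_reducible refine Int.comp₄ ?_ ?_ ?_ ?_ ?_; assumption) | (with_reducible refine IntF.comp ?_ ?_; assumption) | (with_reducible refine IntF.comp₂ ?_ ?_ ?_; assumption) | (with_reducible refine IntF.comp₃ ?_ ?_ ?_ ?_; assumption) | with_reducible apply IntF.pair))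

theorem mem_K2 {lev : α → INat N} (hl : IntF N lev) {g : α → α} (hg : IntF N g) {a₀ : α}
    {n : INat N} {S : IPow N α} : S ∈ K2 lev g a₀ n ↔
      (Big S ∧ ∃ b, lev b = n ∧ ∀ a, (a ∈ S ↔ (¬ a = a₀ ∧ g a = b))) := by
  have hB := int_Big (N := N) (α := α)
  unfold K2
  exact mem_sep (by (repeat' (first | with_reducible exact IntF.id | with_reducible exact IntF.fst' | with_reducible exact IntF.snd' | with_reducible exact IntF.const _ | with_reducible exact Int.const _ | assumption | with_reducible apply Int.and | with_reducible apply Int.or | with_reducible apply Int.not | with_reducible apply Int.imp | with_reducible apply Int.iff | with_reducible apply Int.ne | with_reducible apply Int.eq | with_reducible apply Int.mem | with_reducible apply Int.subset | with_reducible apply Int.ltN | with_reducible apply Int.leN | with_reducible_and_instances apply Int.le | with_reducible_and_instances apply Int.lt | with_reducible apply Int.all | with_reducible apply Int.ex | with_reducible apply IntF.fst | with_reducible apply IntF.snd | with_reducible apply IntF.app | with_reducible apply IntF.inl | with_reducible apply IntF.inr | with_reducible_and_instances apply IntF.mul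 | with_reducible_and_instances apply IntF.inv | with_reducible_and_instances apply IntF.add | with_reducible_and_instances apply IntF.sub | with_reducible_and_instances apply IntF.neg | with_reducible_and_instances apply IntF.smul | with_reducible apply Int.fin | with_reducible apply IntF.sep | with_reducible apply IntF.lam | with_reducible apply IntF.insert | with_reducible apply IntF.singleton | with_reducible apply IntF.union | with_reducible apply IntF.iimage | with_reducible apply IntF.ite | with_reducible apply IntF.the | with_reducible apply IntF.irec | with_reducible apply IntF.succ | with_reducible apply IntF.val | with_reducible apply IntF.mk | (with_reducible refine Int.comp ?_ ?_; assumption) | (with_reducible refine Int.comp₂ ?_ ?_ ?_; assumption) | (with_reducible refine Int.comp₃ ?_ ?_ ?_ ?_; assumption) | (with_reducible refine Int.comp₄ ?_ ?_ ?_ ?_ ?_; assumption) | (with_reducible refine IntF.comp ?_ ?_; assumption) | (with_reducible refine IntF.comp₂ ?_ ?_ ?_; assumption) | (with_reducible refine IntF.comp₃ ?_ ?_ ?_ ?_; assumption) | with_reducible apply IntF.pair)))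

include hG hf hfib in
theorem step2 {lev : α → INat N} (hl : IntF N lev) {g : α → α} (hg : IntF N g) (a₀ : α)
    (hgf : ∀ b, FinP N (fun a => ¬ a = a₀ ∧ g a = b)) : ∃ n₀, ∀ a a', ¬ a = a₀ → ¬ a' = a₀ →
      g a = g a' → n₀ < lev (g a) → a = a' := by
  have hD : ∀ n, DFam (K2 lev g a₀ n) := by
    intro n
    refine ⟨fun S hS => ((mem_K2 hl hg).1 hS).1, fun S S' x hS hS' hx hx' => ?_⟩
    obtain ⟨-, b, -, h1⟩ := (mem_K2 hl hg).1 hS
    obtain ⟨-, b', -, h2⟩ := (mem_K2 hl hg).1 hS'
    have h3 : b = b' := ((h1 x).1 hx).2.symm.trans ((h2 x).1 hx').2
    exact IPow.ext' fun a => by rw [h1, h2, h3]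
  have hdis : ∀ m n S, S ∈ K2 lev g a₀ m → S ∈ K2 lev g a₀ n → m = n := by
    intro m n S h1 h2
    obtain ⟨⟨-, x, y, hx, -⟩, b, h3, h4⟩ := (mem_K2 hl hg).1 h1
    obtain ⟨-, b', h5, h6⟩ := (mem_K2 hl hg).1 h2
    have h7 : b = b' := ((h4 x).1 hx).2.symm.trans ((h6 x).1 hx).2
    rw [← h3, ← h5, h7]
  obtain ⟨n₀, h⟩ := toolA hG hf hfib (int_K2 hl hg a₀) hD hdis
  refine ⟨n₀, fun a a' h1 h2 h3 h4 => ?_⟩
  by_contra hne
  have hI : Int N (fun x => ¬ x = a₀ ∧ g x = g a) := by (repeat' (first | with_reducible exact IntF.id | with_reducible exact IntF.fst' | with_reducible exact IntF.snd' | with_reducible exact IntF.const _ | with_reducible exact Int.const _ | assumption | with_reducible apply Int.and | with_reducible apply Int.or | with_reducible apply Int.not | with_reducible apply Int.imp | with_reducible apply Int.iff | with_reducible apply Int.ne | with_reducible apply Int.eq | with_reducible apply Int.mem | with_reducible apply Int.subset | with_reducible apply Int.ltN | with_reducible apply Int.leN | with_reducible_and_instances apply Int.le | with_reducible_and_instances apply Int.lt | with_reducible apply Int.all | with_reducible apply Int.ex | with_reducible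 apply IntF.fst | with_reducible apply IntF.snd | with_reducible apply IntF.app | with_reducible apply IntF.inl | with_reducible apply IntF.inr | with_reducible_and_instances apply IntF.mul | with_reducible_and_instances apply IntF.inv | with_reducible_and_instances apply IntF.add | with_reducible_and_instances apply IntF.sub | with_reducible_and_instances apply IntF.neg | with_reducible_and_instances apply IntF.smul | with_reducible apply Int.fin | with_reducible apply IntF.sep | with_reducible apply IntF.lam | with_reducible apply IntF.insert | with_reducible apply IntF.singleton | with_reducible apply IntF.union | with_reducible apply IntF.iimage | with_reducible apply IntF.ite | with_reducible apply IntF.the | with_reducible apply IntF.irec | with_reducible apply IntF.succ | with_reducible apply IntF.val | with_reducible apply IntF.mk | (with_reducible refine Int.comp ?_ ?_; assumption) | (with_reducible refine Int.comp₂ ?_ ?_ ?_; assumption) | (with_reducible refine Int.comp₃ ?_ ?_ ?_ ?_; assumption) | (with_reducible refine Int.comp₄ ?_ ?_ ?_ ?_ ?_; assumption) | (with_reducible refine IntF.comp ?_ ?_; assumption) | (with_reducible refine IntF.comp₂ ?_ ?_ ?_;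 assumption) | (with_reducible refine IntF.comp₃ ?_ ?_ ?_ ?_; assumption) | with_reducible apply IntF.pair))
  have hS : sep N (fun x => ¬ x = a₀ ∧ g x = g a) ∈ K2 lev g a₀ (lev (g a)) := by
    exact (mem_K2 hl hg).2 ⟨⟨(hgf _).fin hI, a, a', (mem_sep hI).2 ⟨h1, rfl⟩,
      (mem_sep hI).2 ⟨h2, h3.symm⟩, hne⟩, g a, rfl, fun b => mem_sep hI⟩
  exact absurd (h _ _ hS) (not_le.2 h4)

/-- The points below all points of level more than `k`. -/
noncomputable def K3 (cl : α → IPow N α) (lev : α → INat N) (k : INat N) : IPow N α :=
  sep N fun a₀ => ∀ a, k < lev a → a₀ ∈ cl a

theorem int_K3 (hcl : IntF N cl) {lev : α → INat N} (hl : IntF N lev) :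
    IntF N (fun k => K3 cl lev k) := by
  unfold K3
  (repeat' (first | with_reducible exact IntF.id | with_reducible exact IntF.fst' | with_reducible exact IntF.snd' | with_reducible exact IntF.const _ | with_reducible exact Int.const _ | assumption | with_reducible apply Int.and | with_reducible apply Int.or | with_reducible apply Int.not | with_reducible apply Int.imp | with_reducible apply Int.iff | with_reducible apply Int.ne | with_reducible apply Int.eq | with_reducible apply Int.mem | with_reducible apply Int.subset | with_reducible apply Int.ltN | with_reducible apply Int.leN | with_reducible_and_instances apply Int.le | with_reducible_and_instances apply Int.lt | with_reducible apply Int.all | with_reducible apply Int.ex | with_reducible apply IntF.fst | with_reducible apply IntF.snd | with_reducible apply IntF.app | with_reducible apply IntF.inl | with_reducible apply IntF.inr | with_reducible_and_instances apply IntF.mul | with_reducible_and_instances apply IntF.inv | with_reducible_and_instances apply IntF.add | with_reducible_and_instances apply IntF.sub | with_reducible_and_instances apply IntF.neg | with_reducible_and_instances apply IntF.smul |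 with_reducible apply Int.fin | with_reducible apply IntF.sep | with_reducible apply IntF.lam | with_reducible apply IntF.insert | with_reducible apply IntF.singleton | with_reducible apply IntF.union | with_reducible apply IntF.iimage | with_reducible apply IntF.ite | with_reducible apply IntF.the | with_reducible apply IntF.irec | with_reducible apply IntF.succ | with_reducible apply IntF.val | with_reducible apply IntF.mk | (with_reducible refine Int.comp ?_ ?_; assumption) | (with_reducible refine Int.comp₂ ?_ ?_ ?_; assumption) | (with_reducible refine Int.comp₃ ?_ ?_ ?_ ?_; assumption) | (with_reducible refine Int.comp₄ ?_ ?_ ?_ ?_ ?_; assumption) | (with_reducible refine IntF.comp ?_ ?_; assumption) | (with_reducible refine IntF.comp₂ ?_ ?_ ?_; assumption) | (with_reducible refine IntF.comp₃ ?_ ?_ ?_ ?_; assumption) | with_reducible apply IntF.pair))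

theorem mem_K3 (hcl : IntF N cl) {lev : α → INat N} (hl : IntF N lev) {k : INat N} {a₀ : α} :
    a₀ ∈ K3 cl lev k ↔ ∀ a, k < lev a → a₀ ∈ cl a := by
  unfold K3
  exact mem_sep (by (repeat' (first | with_reducible exact IntF.id | with_reducible exact IntF.fst' | with_reducible exact IntF.snd' | with_reducible exact IntF.const _ | with_reducible exact Int.const _ | assumption | with_reducible apply Int.and | with_reducible apply Int.or | with_reducible apply Int.not | with_reducible apply Int.imp | with_reducible apply Int.iff | with_reducible apply Int.ne | with_reducible apply Int.eq | with_reducible apply Int.mem | with_reducible apply Int.subset | with_reducible apply Int.ltN | with_reducible apply Int.leN | with_reducible_and_instances apply Int.le | with_reducible_and_instances apply Int.lt | with_reducible apply Int.all | with_reducible apply Int.ex | with_reducible apply IntF.fst | with_reducible apply IntF.snd | with_reducible apply IntF.app | with_reducible apply IntF.inl | with_reducible apply IntF.inr | with_reducible_and_instances apply IntF.mul | with_reducible_and_instances apply IntF.inv | with_reducible_and_instances apply IntF.add | with_reducible_and_instances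 apply IntF.sub | with_reducible_and_instances apply IntF.neg | with_reducible_and_instances apply IntF.smul | with_reducible apply Int.fin | with_reducible apply IntF.sep | with_reducible apply IntF.lam | with_reducible apply IntF.insert | with_reducible apply IntF.singleton | with_reducible apply IntF.union | with_reducible apply IntF.iimage | with_reducible apply IntF.ite | with_reducible apply IntF.the | with_reducible apply IntF.irec | with_reducible apply IntF.succ | with_reducible apply IntF.val | with_reducible apply IntF.mk | (with_reducible refine Int.comp ?_ ?_; assumption) | (with_reducible refine Int.comp₂ ?_ ?_ ?_; assumption) | (with_reducible refine Int.comp₃ ?_ ?_ ?_ ?_; assumption) | (with_reducible refine Int.comp₄ ?_ ?_ ?_ ?_ ?_; assumption) | (with_reducible refine IntF.comp ?_ ?_; assumption) | (with_reducible refine IntF.comp₂ ?_ ?_ ?_; assumption) | (with_reducible refine IntF.comp₃ ?_ ?_ ?_ ?_; assumption) | with_reducible apply IntF.pair)))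

end

section

variable {N : Type u} [L.Structure N] [hN : IsModel N]
variable {α : Type u} [ITy N α]

/-- The combinatorial core. -/
theorem core_F (hinf : ¬ FinP N (fun _ : α => True)) {Γ : IPow N (IPow N α) → IPow N α}
    (hG : GG Γ) {f : FPt N α → α} (hf : IntF N f) (hfib : ∀ b, FinP N (fun P => f P = b))
    {q : IPow N α → α} (hq : IntF N q) (hqf : ∀ b, FinP N (fun S => Big S ∧ q S = b))
    {cl : α → IPow N α} (hcl : IntF N cl)
    (cfin : ∀ a, IFin (cl a)) (c0 : ∀ a, a ∈ cl a) (c1 : ∀ a b, b ∈ cl a → cl b ⊆ cl a)
    (c2 : ∀ S, Big S → S ⊆ cl (q S)) (c3 : ∀ S a, Big S → S ⊆ cl a → q S ∈ cl a) : False := by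
  have hlv := int_lv (N := N) (α := α)
  have hB := int_Big (N := N) (α := α)
  have hl : IntF N (fun a => lv (cl a)) := hlv.comp hcl
  have pbig : ∀ a b : α, ¬ a = b → Big (insert a ({b} : IPow N α)) := fun a b h =>
    ⟨(IFin.singleton b).insert a, a, b, mem_insert.2 (Or.inl rfl),
      mem_insert.2 (Or.inr (mem_singleton.2 rfl)), h⟩
  obtain ⟨n₀, h1⟩ := step1 hG hf hfib hcl cfin c0
  -- all points are below all points of large level
  have h2 : ∀ a₀ : α, ∃ k, a₀ ∈ K3 cl (fun a => lv (cl a)) k := by
    intro a₀
    have hp : IntF N (fun a : α => (insert a ({a₀} : IPow N α))) := by (repeat' (first | with_reducible exact IntF.id | with_reducible exact IntF.fst' | with_reducible exact IntF.snd' | with_reducible exact IntF.const _ | with_reducible exact Int.const _ | assumption | with_reducible apply Int.and | with_reducible apply Int.or | with_reducible apply Int.not | with_reducible apply Int.imp | with_reducible apply Int.iff | with_reducible apply Int.ne | with_reducible apply Int.eq | with_reducible apply Int.mem | with_reducible apply Int.subset | with_reducible apply Int.ltN | with_reducible apply Int.leN | with_reducible_and_instances apply Int.le | with_reducible_and_instances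 apply Int.lt | with_reducible apply Int.all | with_reducible apply Int.ex | with_reducible apply IntF.fst | with_reducible apply IntF.snd | with_reducible apply IntF.app | with_reducible apply IntF.inl | with_reducible apply IntF.inr | with_reducible_and_instances apply IntF.mul | with_reducible_and_instances apply IntF.inv | with_reducible_and_instances apply IntF.add | with_reducible_and_instances apply IntF.sub | with_reducible_and_instances apply IntF.neg | with_reducible_and_instances apply IntF.smul | with_reducible apply Int.fin | with_reducible apply IntF.sep | with_reducible apply IntF.lam | with_reducible apply IntF.insert | with_reducible apply IntF.singleton | with_reducible apply IntF.union | with_reducible apply IntF.iimage | with_reducible apply IntF.ite | with_reducible apply IntF.the | with_reducible apply IntF.irec | with_reducible apply IntF.succ | with_reducible apply IntF.val | with_reducible apply IntF.mk | (with_reducible refine Int.comp ?_ ?_; assumption) | (with_reducible refine Int.comp₂ ?_ ?_ ?_; assumption) | (with_reducible refine Int.comp₃ ?_ ?_ ?_ ?_; assumption) | (with_reducible refine Int.comp₄ ?_ ?_ ?_ ?_ ?_; assumption) | (with_reducible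 refine IntF.comp ?_ ?_; assumption) | (with_reducible refine IntF.comp₂ ?_ ?_ ?_; assumption) | (with_reducible refine IntF.comp₃ ?_ ?_ ?_ ?_; assumption) | with_reducible apply IntF.pair))
    have hg : IntF N (fun a => q (insert a ({a₀} : IPow N α))) := hq.comp hp
    obtain ⟨n₁, h3⟩ := step2 hG hf hfib hl hg a₀ (fun b => by
      refine FinP.of_inj (by (repeat' (first | with_reducible exact IntF.id | with_reducible exact IntF.fst' | with_reducible exact IntF.snd' | with_reducible exact IntF.const _ | with_reducible exact Int.const _ | assumption | with_reducible apply Int.and | with_reducible apply Int.or | with_reducible apply Int.not | with_reducible apply Int.imp | with_reducible apply Int.iff | with_reducible apply Int.ne | with_reducible apply Int.eq | with_reducible apply Int.mem | with_reducible apply Int.subset | with_reducible apply Int.ltN | with_reducible apply Int.leN | with_reducible_and_instances apply Int.le | with_reducible_and_instances apply Int.lt | with_reducible apply Int.all | with_reducible apply Int.ex | with_reducible apply IntF.fst | with_reducible apply IntF.snd | with_reducible apply IntF.app | with_reducible apply IntF.inl | with_reducible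 apply IntF.inr | with_reducible_and_instances apply IntF.mul | with_reducible_and_instances apply IntF.inv | with_reducible_and_instances apply IntF.add | with_reducible_and_instances apply IntF.sub | with_reducible_and_instances apply IntF.neg | with_reducible_and_instances apply IntF.smul | with_reducible apply Int.fin | with_reducible apply IntF.sep | with_reducible apply IntF.lam | with_reducible apply IntF.insert | with_reducible apply IntF.singleton | with_reducible apply IntF.union | with_reducible apply IntF.iimage | with_reducible apply IntF.ite | with_reducible apply IntF.the | with_reducible apply IntF.irec | with_reducible apply IntF.succ | with_reducible apply IntF.val | with_reducible apply IntF.mk | (with_reducible refine Int.comp ?_ ?_; assumption) | (with_reducible refine Int.comp₂ ?_ ?_ ?_; assumption) | (with_reducible refine Int.comp₃ ?_ ?_ ?_ ?_; assumption) | (with_reducible refine Int.comp₄ ?_ ?_ ?_ ?_ ?_; assumption) | (with_reducible refine IntF.comp ?_ ?_; assumption) | (with_reducible refine IntF.comp₂ ?_ ?_ ?_; assumption) | (with_reducible refine IntF.comp₃ ?_ ?_ ?_ ?_; assumption) | with_reducible apply IntF.pair))) hp (fun a a' h4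 h5 h6 => ?_) (hqf b) fun a ha =>
        ⟨pbig a a₀ ha.1, ha.2⟩
      have h7 : a ∈ insert a' ({a₀} : IPow N α) := by
        rw [← h6]
        exact mem_insert.2 (Or.inl rfl)
      rw [mem_insert, mem_singleton] at h7
      rcases h7 with h7 | h7
      · exact h7
      · exact absurd h7 h4.1)
    refine ⟨max (max n₀ n₁) (lv (cl a₀)), (mem_K3 hcl hl).2 fun a ha => ?_⟩
    by_contra hn
    have ha1 : n₀ < lv (cl a) := ((le_max_left _ _).trans (le_max_left _ _)).trans_lt ha
    have ha2 : n₁ < lv (cl a) := ((le_max_right _ _).trans (le_max_left _ _)).trans_lt ha
    have ha3 : lv (cl a₀) < lv (cl a) := (le_max_right _ _).trans_lt ha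
    have ha4 : ¬ a = a₀ := fun e => hn (by rw [← e]; exact c0 a)
    obtain ⟨b, hb⟩ : ∃ b, b = q (insert a ({a₀} : IPow N α)) := ⟨_, rfl⟩
    have hS := c2 _ (pbig a a₀ ha4)
    rw [← hb] at hS
    have hab : a ∈ cl b := hS a (mem_insert.2 (Or.inl rfl))
    have ha0b : a₀ ∈ cl b := hS a₀ (mem_insert.2 (Or.inr (mem_singleton.2 rfl)))
    have hle : lv (cl a) ≤ lv (cl b) := lv_mono (cfin b) (c1 _ _ hab)
    have hba : ¬ a = b := fun e => hn (by rw [e]; exact ha0b)
    have hba0 : ¬ b = a₀ := fun e => by
      rw [e] at hle
      exact absurd ha3 (not_lt.2 hle)
    obtain ⟨c, hc⟩ : ∃ c, c = q (insert b ({a₀} : IPow N α)) := ⟨_, rfl⟩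
    have hcb : cl c = cl b := by
      have h4 := c2 _ (pbig b a₀ hba0)
      rw [← hc] at h4
      have h5 : b ∈ cl c := h4 b (mem_insert.2 (Or.inl rfl))
      have h6 : c ∈ cl b := by
        rw [hc]
        refine c3 _ _ (pbig b a₀ hba0) fun x hx => ?_
        rw [mem_insert, mem_singleton] at hx
        rcases hx with rfl | rfl
        · exact c0 _
        · exact ha0b
      exact IPow.ext' fun x => ⟨fun h => c1 _ _ h6 x h, fun h => c1 _ _ h5 x h⟩
    have hcb' : c = b := h1 b c (ha1.trans_le hle) hcb
    rw [hcb'] at hc
    refine hba (h3 a b ha4 hba0 (hb.symm.trans hc) ?_)
    rw [← hb]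
    exact ha2.trans_le hle
  -- the levels are unbounded
  have h3 : ∀ k, ∃ a, k < lv (cl a) := by
    intro k
    obtain ⟨g, hg⟩ := exists_seq (N := N) (α := α) hinf k.succ
    have hgi : IntF N (fun j => g j) := by (repeat' (first | with_reducible exact IntF.id | with_reducible exact IntF.fst' | with_reducible exact IntF.snd' | with_reducible exact IntF.const _ | with_reducible exact Int.const _ | assumption | with_reducible apply Int.and | with_reducible apply Int.or | with_reducible apply Int.not | with_reducible apply Int.imp | with_reducible apply Int.iff | with_reducible apply Int.ne | with_reducible apply Int.eq | with_reducible apply Int.mem | with_reducible apply Int.subset | with_reducible apply Int.ltN | with_reducible apply Int.leN | with_reducible_and_instances apply Int.le | with_reducible_and_instances apply Int.lt | with_reducible apply Int.all | with_reducible apply Int.ex | with_reducible apply IntF.fst | with_reducible apply IntF.snd | with_reducible apply IntF.app | with_reducible apply IntF.inl | with_reducible apply IntF.inr | with_reducible_and_instances apply IntF.mul | with_reducible_and_instances apply IntF.inv | with_reducible_and_instances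 apply IntF.add | with_reducible_and_instances apply IntF.sub | with_reducible_and_instances apply IntF.neg | with_reducible_and_instances apply IntF.smul | with_reducible apply Int.fin | with_reducible apply IntF.sep | with_reducible apply IntF.lam | with_reducible apply IntF.insert | with_reducible apply IntF.singleton | with_reducible apply IntF.union | with_reducible apply IntF.iimage | with_reducible apply IntF.ite | with_reducible apply IntF.the | with_reducible apply IntF.irec | with_reducible apply IntF.succ | with_reducible apply IntF.val | with_reducible apply IntF.mk | (with_reducible refine Int.comp ?_ ?_; assumption) | (with_reducible refine Int.comp₂ ?_ ?_ ?_; assumption) | (with_reducible refine Int.comp₃ ?_ ?_ ?_ ?_; assumption) | (with_reducible refine Int.comp₄ ?_ ?_ ?_ ?_ ?_; assumption) | (with_reducible refine IntF.comp ?_ ?_; assumption) | (with_reducible refine IntF.comp₂ ?_ ?_ ?_; assumption) | (with_reducible refine IntF.comp₃ ?_ ?_ ?_ ?_; assumption) | with_reducible apply IntF.pair))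
    have hI : Int N (fun j : INat N => j ≤ k.succ) := by (repeat' (first | with_reducible exact IntF.id | with_reducible exact IntF.fst' | with_reducible exact IntF.snd' | with_reducible exact IntF.const _ | with_reducible exact Int.const _ | assumption | with_reducible apply Int.and | with_reducible apply Int.or | with_reducible apply Int.not | with_reducible apply Int.imp | with_reducible apply Int.iff | with_reducible apply Int.ne | with_reducible apply Int.eq | with_reducible apply Int.mem | with_reducible apply Int.subset | with_reducible apply Int.ltN | with_reducible apply Int.leN | with_reducible_and_instances apply Int.le | with_reducible_and_instances apply Int.lt | with_reducible apply Int.all | with_reducible apply Int.ex | with_reducible apply IntF.fst | with_reducible apply IntF.snd | with_reducible apply IntF.app | with_reducible apply IntF.inl | with_reducible apply IntF.inr | with_reducible_and_instances apply IntF.mul | with_reducible_and_instances apply IntF.inv | with_reducible_and_instances apply IntF.add | with_reducible_and_instances apply IntF.sub | with_reducible_and_instances apply IntF.neg | with_reducible_and_instances apply IntF.smul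 | with_reducible apply Int.fin | with_reducible apply IntF.sep | with_reducible apply IntF.lam | with_reducible apply IntF.insert | with_reducible apply IntF.singleton | with_reducible apply IntF.union | with_reducible apply IntF.iimage | with_reducible apply IntF.ite | with_reducible apply IntF.the | with_reducible apply IntF.irec | with_reducible apply IntF.succ | with_reducible apply IntF.val | with_reducible apply IntF.mk | (with_reducible refine Int.comp ?_ ?_; assumption) | (with_reducible refine Int.comp₂ ?_ ?_ ?_; assumption) | (with_reducible refine Int.comp₃ ?_ ?_ ?_ ?_; assumption) | (with_reducible refine Int.comp₄ ?_ ?_ ?_ ?_ ?_; assumption) | (with_reducible refine IntF.comp ?_ ?_; assumption) | (with_reducible refine IntF.comp₂ ?_ ?_ ?_; assumption) | (with_reducible refine IntF.comp₃ ?_ ?_ ?_ ?_; assumption) | with_reducible apply IntF.pair))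
    have hS : Big (iimage (fun j => g j) (sep N fun j : INat N => j ≤ k.succ)) := by
      refine ⟨((finP_le k.succ).fin hI).image hgi, g 0, g k.succ,
        (mem_iimage hgi).2 ⟨0, (mem_sep hI).2 (INat.zero_le _), rfl⟩,
        (mem_iimage hgi).2 ⟨k.succ, (mem_sep hI).2 le_rfl, rfl⟩, fun e => ?_⟩
      exact absurd (hg 0 k.succ (INat.zero_le _) le_rfl e).symm (INat.succ_ne_zero k)
    refine ⟨q (iimage (fun j => g j) (sep N fun j : INat N => j ≤ k.succ)), ?_⟩
    refine (INat.lt_succ_self k).trans (lt_lv (cfin _) g (fun j hj => ?_) hg)
    exact c2 _ hS _ ((mem_iimage hgi).2 ⟨j, (mem_sep hI).2 hj, rfl⟩)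
  -- the end
  refine hinf ((fin_seq hG (int_K3 hcl hl) fun k => ?_).mono fun a _ => h2 a)
  obtain ⟨a, ha⟩ := h3 k
  exact (cfin a).subset fun x hx => (mem_K3 hcl hl).1 hx a ha

/-- There is no finite-to-one function from the partitions into finite sets. -/
theorem no_fto_F (hinf : ¬ FinP N (fun _ : α => True)) {f : FPt N α → α} (hf : IntF N f)
    (hfib : ∀ b, FinP N (fun P => f P = b)) : False := by
  have hc := int_cpt (N := N) (α := α)
  have hs : IntF N (fun a : α => ({a} : IPow N α)) := IntF.singleton IntF.id
  have hs' : IntF N (fun S : IPow N α => ({S} : IPow N (IPow N α))) := IntF.singleton IntF.id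
  have hG : GG (fun S : IPow N (IPow N α) => ({f (cpt S)} : IPow N α)) := by
    refine gg_of hf hfib hs (fun P => ⟨f P, f P, f P, fun a => ?_⟩) fun T => ?_
    · rw [mem_singleton]
      tauto
    · by_cases h : ∃ b : α, ({b} : IPow N α) = T
      · obtain ⟨b, rfl⟩ := h
        refine (FinP.eq b).mono fun c hc => ?_
        have h1 : c ∈ ({c} : IPow N α) := mem_singleton.2 rfl
        rw [hc.2] at h1
        exact mem_singleton.1 h1
      · exact ⟨∅, IFin.empty, fun b hb => absurd ⟨b, hb.2⟩ h⟩
  have hq : IntF N (fun S : IPow N α => f (cpt {S})) := hf.comp (hc.comp hs')
  have hcs : IntF N (fun S : IPow N α => cpt ({S} : IPow N (IPow N α))) := hc.comp hs'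
  have hB := int_Big (N := N) (α := α)
  have hqf : ∀ b, FinP N (fun S : IPow N α => Big S ∧ f (cpt {S}) = b) := fun b => by
    refine FinP.of_inj (Int.and hB (Int.eq hq (IntF.const _))) hcs
      (fun S S' h h' e => big_cpt_inj h.1 h'.1 e) (hfib b) fun S hS => hS.2
  have hH := int_HF hq
  have hcl : ∀ E, HF (fun S : IPow N α => f (cpt {S})) (CL (HF fun S => f (cpt {S})) E) ⊆
    CL (HF fun S => f (cpt {S})) E := fun E => CL_closed hH (HF_mono hq)
  refine core_F hinf hG hf hfib hq hqf
    (cl := fun a => CL (HF fun S : IPow N α => f (cpt {S})) {a}) ((int_CL hH).comp hs)
    (fun a => fin_CL hH hG (fun E hE => HF_fin hq hqf hE) (HF_sub hq) (IFin.singleton a))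
    (fun a => subset_CL hH a (mem_singleton.2 rfl)) (fun a b hb => ?_) (fun S hS => ?_)
    fun S a hS h => ?_
  · refine CL_le hH (fun x hx => ?_) (hcl _)
    rw [mem_singleton] at hx
    rw [hx]
    exact hb
  · intro x hx
    exact hcl _ x ((mem_HF hq).2 (Or.inr (Or.inr
      ⟨S, ⟨hS, subset_CL hH _ (mem_singleton.2 rfl)⟩, hx⟩)))
  · exact hcl _ _ ((mem_HF hq).2 (Or.inr (Or.inl ⟨S, ⟨hS, h⟩, rfl⟩)))

end

end Pool.Agent.Helper672.ZFA.V244
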