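import Pool.Agent.V11244.Zf.Par
import Pool.Agent.H310R3.Bridge

/-!
# Finitary partitions in a model of set theory
-/

set_option maxHeartbeats 1000000
set_option linter.all false
set_option synthInstance.maxSize 2000

namespace Pool.Agent.V11244Parts

open Pool.Agent.Helper672.Plain (LSet Mem Zermelo)
open Pool.Agent.H310Cards

universe u

/-- `z` is a partition of `a` into finite sets: its members are nonempty finite subsets of `a`,
they cover `a`, and two members with a common element are equal. -/
def IsFinPart {M : Type u} [LSet.Structure M] (z a : M) : Prop :=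
  (∀ b, Mem b z → IsFinite b ∧ (∃ x, Mem x b) ∧ ∀ x, Mem x b → Mem x a) ∧
    (∀ x, Mem x a → ∃ b, Mem b z ∧ Mem x b) ∧
    ∀ b c x, Mem b z → Mem c z → Mem x b → Mem x c → b = c

/-- `p` is the set of all partitions of `a` into finite sets. -/
def IsPartSet {M : Type u} [LSet.Structure M] (p a : M) : Prop :=
  ∀ z, Mem z p ↔ IsFinPart z a

end Pool.Agent.V11244Parts

namespace Pool.Agent.Helper672.ZFA.V244

open FirstOrder FirstOrder.Language
open Pool.Agent.H310
open Pool.Agent.H310Cards
open Pool.Agent.V11244Parts

universe u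

attribute [local instance] Helper672.Plain.toL

variable {M : Type u} [Helper672.Plain.LSet.Structure M] [hZ : Helper672.Plain.Zermelo M]

local instance instModelL' : IsModel M := Helper672.Plain.isModel_toL

theorem isFinite_code {α : Type u} [ITy M α] {s : IPow M α} (hs : IFin s) :
    IsFinite (code (M := M) s) := by
  haveI : Fact (Int M (fun a : α => a ∈ s)) := ⟨by (repeat' (first | with_reducible exact IntF.id | with_reducible exact IntF.fst' | with_reducible exact IntF.snd' | with_reducible exact IntF.const _ | with_reducible exact Int.const _ | assumption | with_reducible apply Int.and | with_reducible apply Int.or | with_reducible apply Int.not | with_reducible apply Int.imp | with_reducible apply Int.iff | with_reducible apply Int.ne | with_reducible apply Int.eq | with_reducible apply Int.mem | with_reducible apply Int.subset | with_reducible apply Int.ltN | with_reducible apply Int.leN | with_reducible_and_instances apply Int.le | with_reducible_and_instances apply Int.lt | with_reducible apply Int.all | with_reducible apply Int.ex | with_reducible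 apply IntF.fst | with_reducible apply IntF.snd | with_reducible apply IntF.app | with_reducible apply IntF.inl | with_reducible apply IntF.inr | with_reducible_and_instances apply IntF.mul | with_reducible_and_instances apply IntF.inv | with_reducible_and_instances apply IntF.add | with_reducible_and_instances apply IntF.sub | with_reducible_and_instances apply IntF.neg | with_reducible_and_instances apply IntF.smul | with_reducible apply Int.fin | with_reducible apply IntF.sep | with_reducible apply IntF.lam | with_reducible apply IntF.insert | with_reducible apply IntF.singleton | with_reducible apply IntF.union | with_reducible apply IntF.iimage | with_reducible apply IntF.ite | with_reducible apply IntF.the | with_reducible apply IntF.irec | with_reducible apply IntF.succ | with_reducible apply IntF.val | with_reducible apply IntF.mk | (with_reducible refine Int.comp ?_ ?_; assumption) | (with_reducible refine Int.comp₂ ?_ ?_ ?_; assumption) | (with_reducible refine Int.comp₃ ?_ ?_ ?_ ?_; assumption) | (with_reducible refine Int.comp₄ ?_ ?_ ?_ ?_ ?_;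 assumption) | (with_reducible refine IntF.comp ?_ ?_; assumption) | (with_reducible refine IntF.comp₂ ?_ ?_ ?_; assumption) | (with_reducible refine IntF.comp₃ ?_ ?_ ?_ ?_; assumption) | with_reducible apply IntF.pair))⟩
  by_contra hc
  refine not_finP (α := {a : α // a ∈ s}) (a := code (M := M) s) (fun z => ?_) hc ?_
  · refine (mem_code_pow (s := s)).trans ?_
    constructor
    · rintro ⟨a, ha, rfl⟩
      exact ⟨⟨a, ha⟩, rfl⟩
    · rintro ⟨⟨a, ha⟩, rfl⟩
      exact ⟨a, ha, rfl⟩
  · refine FinP.of_inj (f := fun x : {a : α // a ∈ s} => x.1) (Int.const _) (by (repeat' (first | with_reducible exact IntF.id | with_reducible exact IntF.fst' | with_reducible exact IntF.snd' | with_reducible exact IntF.const _ | with_reducible exact Int.const _ | assumption | with_reducible apply Int.and | with_reducible apply Int.or | with_reducible apply Int.not | with_reducible apply Int.imp | with_reducible apply Int.iff | with_reducible apply Int.ne | with_reducible apply Int.eq | with_reducible apply Int.mem | with_reducible apply Int.subset | with_reducible apply Int.ltN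 | with_reducible apply Int.leN | with_reducible_and_instances apply Int.le | with_reducible_and_instances apply Int.lt | with_reducible apply Int.all | with_reducible apply Int.ex | with_reducible apply IntF.fst | with_reducible apply IntF.snd | with_reducible apply IntF.app | with_reducible apply IntF.inl | with_reducible apply IntF.inr | with_reducible_and_instances apply IntF.mul | with_reducible_and_instances apply IntF.inv | with_reducible_and_instances apply IntF.add | with_reducible_and_instances apply IntF.sub | with_reducible_and_instances apply IntF.neg | with_reducible_and_instances apply IntF.smul | with_reducible apply Int.fin | with_reducible apply IntF.sep | with_reducible apply IntF.lam | with_reducible apply IntF.insert | with_reducible apply IntF.singleton | with_reducible apply IntF.union | with_reducible apply IntF.iimage | with_reducible apply IntF.ite | with_reducible apply IntF.the | with_reducible apply IntF.irec | with_reducible apply IntF.succ | with_reducible apply IntF.val | with_reducible apply IntF.mk | (with_reducible refine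 Int.comp ?_ ?_; assumption) | (with_reducible refine Int.comp₂ ?_ ?_ ?_; assumption) | (with_reducible refine Int.comp₃ ?_ ?_ ?_ ?_; assumption) | (with_reducible refine Int.comp₄ ?_ ?_ ?_ ?_ ?_; assumption) | (with_reducible refine IntF.comp ?_ ?_; assumption) | (with_reducible refine IntF.comp₂ ?_ ?_ ?_; assumption) | (with_reducible refine IntF.comp₃ ?_ ?_ ?_ ?_; assumption) | with_reducible apply IntF.pair)))
      (fun x y _ _ h => Subtype.ext h) (q := fun a => a ∈ s) ⟨s, hs, fun _ h => h⟩
      fun x _ => x.2

theorem code_fpt {a : M} (P : FPt M (El a)) : IsFinPart (code (M := M) P) a := by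
  have hm : ∀ b : M, Helper672.Plain.Mem b (code (M := M) P) ↔
      ∃ s : IPow M (El a), s ∈ P.1 ∧ code s = b := fun b =>
    (mem_code_pow (s := P.1)).trans ⟨fun ⟨s, h, e⟩ => ⟨s, h, e⟩, fun ⟨s, h, e⟩ => ⟨s, h, e⟩⟩
  have hm' : ∀ (s : IPow M (El a)) (x : M), Helper672.Plain.Mem x (code (M := M) s) ↔
      ∃ y : El a, y ∈ s ∧ code y = x := fun s x =>
    (mem_code_pow (s := s)).trans ⟨fun ⟨y, h, e⟩ => ⟨y, h, e⟩, fun ⟨y, h, e⟩ => ⟨y, h, e⟩⟩
  obtain ⟨h1, h2, h3⟩ := P.2
  refine ⟨fun b hb => ?_, fun x hx => ?_, fun b c x hb hc hxb hxc => ?_⟩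
  · obtain ⟨s, hs, rfl⟩ := (hm b).1 hb
    obtain ⟨h4, y, h5⟩ := h1 s hs
    refine ⟨isFinite_code h4, ⟨_, (hm' s _).2 ⟨y, h5, rfl⟩⟩, fun x hx => ?_⟩
    obtain ⟨y', -, rfl⟩ := (hm' s x).1 hx
    exact y'.2
  · obtain ⟨s, hs, hs'⟩ := h2 ⟨x, hx⟩
    exact ⟨_, (hm _).2 ⟨s, hs, rfl⟩, (hm' s x).2 ⟨⟨x, hx⟩, hs', rfl⟩⟩
  · obtain ⟨s, hs, rfl⟩ := (hm b).1 hb
    obtain ⟨t, ht, rfl⟩ := (hm c).1 hc
    obtain ⟨y, hy, rfl⟩ := (hm' s x).1 hxb
    obtain ⟨y', hy', e⟩ := (hm' t _).1 hxc
    have h4 : y' = y := ITy.inj e
    rw [h4] at hy'
    rw [h3 s t y hs ht hy hy']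

theorem exists_pm {a g : M} (h : IsBij g a a) : ∃ σ : IPm M (El a), code σ = g := by
  obtain ⟨⟨h1, h2⟩, h3⟩ := h
  obtain ⟨φ, h4, h5⟩ := exists_fun (α := El a) (β := El a) h1 (fun x => x.2)
    fun z => mem_El.1
  refine ⟨IPm.of φ h4 (fun x y hxy => ?_) (fun y => ?_), extM fun q => ?_⟩
  · exact Subtype.ext (h2 _ _ _ ((h5 x (φ y)).1 hxy) ((h5 y (φ y)).1 rfl))
  · obtain ⟨x, hx⟩ := h3 y.1 y.2
    obtain ⟨q, h6, h7⟩ := hx
    obtain ⟨x', y', h8, h9, h10⟩ := h1.1 q h7
    have h11 := op_inj ((ordPair_iff.1 h6).symm.trans (ordPair_iff.1 h10))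
    obtain ⟨rfl, -⟩ := h11
    exact ⟨⟨x, h8⟩, (h5 ⟨x, h8⟩ y).2 ⟨q, h6, h7⟩⟩
  · refine (mem_code_fun (f := (IPm.of φ h4 _ _).1)).trans ⟨?_, fun hq => ?_⟩
    · rintro ⟨x, rfl⟩
      exact app_iff.1 ((h5 x (φ x)).1 rfl)
    · obtain ⟨x, y, h6, h7, h8⟩ := h1.1 q hq
      have h9 := (h5 ⟨x, h6⟩ ⟨y, h7⟩).2 ⟨q, h8, hq⟩
      refine ⟨⟨x, h6⟩, (ordPair_iff.1 h8).trans ?_⟩
      change _ = op x (code (φ ⟨x, h6⟩))
      rw [h9]
      rfl

theorem app_pm {a : M} (σ : IPm M (El a)) {w : M} (hw : Mem w a) :
    App (code (M := M) σ) w w ↔ σ.1 ⟨w, hw⟩ = ⟨w, hw⟩ := by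
  refine (app_code (f := σ.1)).trans ?_
  constructor
  · rintro ⟨b, h1, h2⟩
    have h3 : b = ⟨w, hw⟩ := Subtype.ext h1
    rw [h3] at h2
    exact Subtype.ext h2
  · intro h
    refine ⟨⟨w, hw⟩, rfl, ?_⟩
    rw [h]
    rfl

theorem exists_sub {a b : M} (h : ∀ x, Mem x b → Mem x a) :
    ∃ s : IPow M (El a), code s = b ∧ ∀ y : El a, y ∈ s ↔ Mem y.1 b := by
  have hs : Int M (fun x : El a => Mem (code x) b) := ⟨b, fun a => Iff.rfl⟩
  refine ⟨⟨_, hs⟩, extM fun t => ?_, fun y => Iff.rfl⟩
  refine (mem_code_pow (s := (⟨_, hs⟩ : IPow M (El a)))).trans ⟨?_, fun ht => ?_⟩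
  · rintro ⟨x, hx, rfl⟩
    exact hx
  · exact ⟨⟨t, h t ht⟩, ht, rfl⟩

theorem exists_fpt {a z : M} (h : IsFinPart z a) : ∃ P : FPt M (El a), code P = z := by
  obtain ⟨h1, h2, h3⟩ := h
  have hP : Int M (fun s : IPow M (El a) => Mem (code s) z) := ⟨z, fun s => Iff.rfl⟩
  let P : IPow M (IPow M (El a)) := ⟨_, hP⟩
  have hPm : ∀ s, s ∈ P ↔ Mem (code s) z := fun s => Iff.rfl
  have hsm : ∀ (s : IPow M (El a)) (y : El a), y ∈ s ↔ Mem y.1 (code s) := by
    intro s y
    refine Iff.trans ?_ (mem_code_pow (s := s)).symm
    constructor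
    · intro hy
      exact ⟨y, hy, rfl⟩
    · rintro ⟨y', hy, e⟩
      rwa [← (ITy.inj e : y' = y)]
  refine ⟨⟨P, fun s hs => ?_, fun y => ?_, fun s t y hs ht hy hy' => ?_⟩, extM fun t => ?_⟩
  · obtain ⟨h4, ⟨x, hx⟩, h5⟩ := h1 _ ((hPm s).1 hs)
    have hI : Int M (fun y : El a => y ∈ s) := by (repeat' (first | with_reducible exact IntF.id | with_reducible exact IntF.fst' | with_reducible exact IntF.snd' | with_reducible exact IntF.const _ | with_reducible exact Int.const _ | assumption | with_reducible apply Int.and | with_reducible apply Int.or | with_reducible apply Int.not | with_reducible apply Int.imp | with_reducible apply Int.iff | with_reducible apply Int.ne | with_reducible apply Int.eq | with_reducible apply Int.mem | with_reducible apply Int.subset | with_reducible apply Int.ltN | with_reducible apply Int.leN | with_reducible_and_instances apply Int.le | with_reducible_and_instances apply Int.lt | with_reducible apply Int.all | with_reducible apply Int.ex | with_reducible apply IntF.fst | with_reducible apply IntF.snd | with_reducible apply IntF.app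 | with_reducible apply IntF.inl | with_reducible apply IntF.inr | with_reducible_and_instances apply IntF.mul | with_reducible_and_instances apply IntF.inv | with_reducible_and_instances apply IntF.add | with_reducible_and_instances apply IntF.sub | with_reducible_and_instances apply IntF.neg | with_reducible_and_instances apply IntF.smul | with_reducible apply Int.fin | with_reducible apply IntF.sep | with_reducible apply IntF.lam | with_reducible apply IntF.insert | with_reducible apply IntF.singleton | with_reducible apply IntF.union | with_reducible apply IntF.iimage | with_reducible apply IntF.ite | with_reducible apply IntF.the | with_reducible apply IntF.irec | with_reducible apply IntF.succ | with_reducible apply IntF.val | with_reducible apply IntF.mk | (with_reducible refine Int.comp ?_ ?_; assumption) | (with_reducible refine Int.comp₂ ?_ ?_ ?_; assumption) | (with_reducible refine Int.comp₃ ?_ ?_ ?_ ?_; assumption) | (with_reducible refine Int.comp₄ ?_ ?_ ?_ ?_ ?_; assumption) | (with_reducible refine IntF.comp ?_ ?_; assumption) | (with_reducible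 refine IntF.comp₂ ?_ ?_ ?_; assumption) | (with_reducible refine IntF.comp₃ ?_ ?_ ?_ ?_; assumption) | with_reducible apply IntF.pair))
    have h6 : FinP M (fun y : El a => y ∈ s) := by
      refine finP_of_finite hI (t := code s) (fun z => ?_) h4
      exact mem_code_pow (s := s)
    refine ⟨?_, ⟨x, h5 x hx⟩, (hsm s ⟨x, h5 x hx⟩).2 hx⟩
    exact (h6.fin hI).subset fun y hy => (mem_sep hI).2 hy
  · obtain ⟨b, hb, hyb⟩ := h2 y.1 y.2
    obtain ⟨s, rfl, hs⟩ := exists_sub (h1 b hb).2.2
    exact ⟨s, (hPm s).2 hb, (hs y).2 hyb⟩
  · exact ITy.inj (h3 (code s) (code t) y.1 ((hPm s).1 hs) ((hPm t).1 ht) ((hsm s y).1 hy)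
      ((hsm t y).1 hy'))
  · refine (mem_code_pow (s := P)).trans ⟨?_, fun ht => ?_⟩
    · rintro ⟨s, hs, rfl⟩
      exact (hPm s).1 hs
    · obtain ⟨s, rfl, -⟩ := exists_sub (h1 t ht).2.2
      exact ⟨s, (hPm s).2 ht, rfl⟩

end Pool.Agent.Helper672.ZFA.V244
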