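import Pool.Agent.V11244.Zf.Dia

/-!
# Coding triples of finite sets
-/

set_option maxHeartbeats 4000000
set_option linter.all false
set_option synthInstance.maxSize 2000

namespace Pool.Agent.Helper672.ZFA.V244

open FirstOrder FirstOrder.Language
open Pool.Agent.H310

universe u

section

variable {N : Type u} [L.Structure N] [hN : IsModel N]
variable {δ : Type u} [ITy N δ]

variable (N) in
/-- The standard numerals. -/
noncomputable def tg : ℕ → INat N
  | 0 => 0
  | n + 1 => (tg n).succ

theorem tg_inj : ∀ {m n : ℕ}, tg N m = tg N n → m = n
  | 0, 0, _ => rfl
  | 0, n + 1, h => absurd h.symm (INat.succ_ne_zero _)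
  | m + 1, 0, h => absurd h (INat.succ_ne_zero _)
  | m + 1, n + 1, h => congrArg Nat.succ (tg_inj (INat.succ_inj h))

instance instFactFin : Fact (Int N (fun s : IPow N (δ × INat N) => IFin s)) := ⟨Int.fin IntF.id⟩

variable (N δ) in
/-- The terms: finite sets of atoms. -/
abbrev Tm : Type u := {s : IPow N (δ × INat N) // IFin s}

/-- The shifted copy of `s`. -/
noncomputable def sh (a b : INat N) (z β : δ) (s : IPow N (δ × INat N)) : IPow N (δ × INat N) :=
  sep N fun y => (∃ n, (y.1, n) ∈ s ∧ ¬ y.1 = β ∧ y.2 = pr a n) ∨
    (y.1 = z ∧ ∃ n, (β, n) ∈ s ∧ y.2 = pr b n)

theorem int_sh (a b : INat N) (z : δ) : IntF N (fun q : δ × IPow N (δ × INat N) =>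
    sh a b z q.1 q.2) := by
  have hp := int_pr (M := N)
  unfold sh
  (repeat' (first | with_reducible exact IntF.id | with_reducible exact IntF.fst' | with_reducible exact IntF.snd' | with_reducible exact IntF.const _ | with_reducible exact Int.const _ | assumption | with_reducible apply Int.and | with_reducible apply Int.or | with_reducible apply Int.not | with_reducible apply Int.imp | with_reducible apply Int.iff | with_reducible apply Int.ne | with_reducible apply Int.eq | with_reducible apply Int.mem | with_reducible apply Int.subset | with_reducible apply Int.ltN | with_reducible apply Int.leN | with_reducible_and_instances apply Int.le | with_reducible_and_instances apply Int.lt | with_reducible apply Int.all | with_reducible apply Int.ex | with_reducible apply IntF.fst | with_reducible apply IntF.snd | with_reducible apply IntF.app | with_reducible apply IntF.inl | with_reducible apply IntF.inr | with_reducible_and_instances apply IntF.mul | with_reducible_and_instances apply IntF.inv | with_reducible_and_instances apply IntF.add | with_reducible_and_instances apply IntF.sub | with_reducible_and_instances apply IntF.neg | with_reducible_and_instances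 apply IntF.smul | with_reducible apply Int.fin | with_reducible apply IntF.sep | with_reducible apply IntF.lam | with_reducible apply IntF.insert | with_reducible apply IntF.singleton | with_reducible apply IntF.union | with_reducible apply IntF.iimage | with_reducible apply IntF.ite | with_reducible apply IntF.the | with_reducible apply IntF.irec | with_reducible apply IntF.succ | with_reducible apply IntF.val | with_reducible apply IntF.mk | (with_reducible refine Int.comp ?_ ?_; assumption) | (with_reducible refine Int.comp₂ ?_ ?_ ?_; assumption) | (with_reducible refine Int.comp₃ ?_ ?_ ?_ ?_; assumption) | (with_reducible refine Int.comp₄ ?_ ?_ ?_ ?_ ?_; assumption) | (with_reducible refine IntF.comp ?_ ?_; assumption) | (with_reducible refine IntF.comp₂ ?_ ?_ ?_; assumption) | (with_reducible refine IntF.comp₃ ?_ ?_ ?_ ?_; assumption) | with_reducible apply IntF.pair))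

theorem mem_sh {a b : INat N} {z β : δ} {s : IPow N (δ × INat N)} {y : δ × INat N} :
    y ∈ sh a b z β s ↔ (∃ n, (y.1, n) ∈ s ∧ ¬ y.1 = β ∧ y.2 = pr a n) ∨
      (y.1 = z ∧ ∃ n, (β, n) ∈ s ∧ y.2 = pr b n) := by
  have hp := int_pr (M := N)
  unfold sh
  exact mem_sep (by (repeat' (first | with_reducible exact IntF.id | with_reducible exact IntF.fst' | with_reducible exact IntF.snd' | with_reducible exact IntF.const _ | with_reducible exact Int.const _ | assumption | with_reducible apply Int.and | with_reducible apply Int.or | with_reducible apply Int.not | with_reducible apply Int.imp | with_reducible apply Int.iff | with_reducible apply Int.ne | with_reducible apply Int.eq | with_reducible apply Int.mem | with_reducible apply Int.subset | with_reducible apply Int.ltN | with_reducible apply Int.leN | with_reducible_and_instances apply Int.le | with_reducible_and_instances apply Int.lt | with_reducible apply Int.all | with_reducible apply Int.ex | with_reducible apply IntF.fst | with_reducible apply IntF.snd | with_reducible apply IntF.app | with_reducible apply IntF.inl | with_reducible apply IntF.inr | with_reducible_and_instances apply IntF.mul |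 with_reducible_and_instances apply IntF.inv | with_reducible_and_instances apply IntF.add | with_reducible_and_instances apply IntF.sub | with_reducible_and_instances apply IntF.neg | with_reducible_and_instances apply IntF.smul | with_reducible apply Int.fin | with_reducible apply IntF.sep | with_reducible apply IntF.lam | with_reducible apply IntF.insert | with_reducible apply IntF.singleton | with_reducible apply IntF.union | with_reducible apply IntF.iimage | with_reducible apply IntF.ite | with_reducible apply IntF.the | with_reducible apply IntF.irec | with_reducible apply IntF.succ | with_reducible apply IntF.val | with_reducible apply IntF.mk | (with_reducible refine Int.comp ?_ ?_; assumption) | (with_reducible refine Int.comp₂ ?_ ?_ ?_; assumption) | (with_reducible refine Int.comp₃ ?_ ?_ ?_ ?_; assumption) | (with_reducible refine Int.comp₄ ?_ ?_ ?_ ?_ ?_; assumption) | (with_reducible refine IntF.comp ?_ ?_; assumption) | (with_reducible refine IntF.comp₂ ?_ ?_ ?_; assumption) | (with_reducible refine IntF.comp₃ ?_ ?_ ?_ ?_; assumption) | with_reducible apply IntF.pair)))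

theorem fin_sh {a b : INat N} {z β : δ} {s : IPow N (δ × INat N)} (hs : IFin s) :
    IFin (sh a b z β s) := by
  classical
  have hp := int_pr (M := N)
  have hf : IntF N (fun y : δ × INat N => (y.1, pr a y.2)) := by (repeat' (first | with_reducible exact IntF.id | with_reducible exact IntF.fst' | with_reducible exact IntF.snd' | with_reducible exact IntF.const _ | with_reducible exact Int.const _ | assumption | with_reducible apply Int.and | with_reducible apply Int.or | with_reducible apply Int.not | with_reducible apply Int.imp | with_reducible apply Int.iff | with_reducible apply Int.ne | with_reducible apply Int.eq | with_reducible apply Int.mem | with_reducible apply Int.subset | with_reducible apply Int.ltN | with_reducible apply Int.leN | with_reducible_and_instances apply Int.le | with_reducible_and_instances apply Int.lt | with_reducible apply Int.all | with_reducible apply Int.ex | with_reducible apply IntF.fst | with_reducible apply IntF.snd | with_reducible apply IntF.app | with_reducible apply IntF.inl | with_reducible apply IntF.inr | with_reducible_and_instances apply IntF.mul | with_reducible_and_instances apply IntF.inv | with_reducible_and_instances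 apply IntF.add | with_reducible_and_instances apply IntF.sub | with_reducible_and_instances apply IntF.neg | with_reducible_and_instances apply IntF.smul | with_reducible apply Int.fin | with_reducible apply IntF.sep | with_reducible apply IntF.lam | with_reducible apply IntF.insert | with_reducible apply IntF.singleton | with_reducible apply IntF.union | with_reducible apply IntF.iimage | with_reducible apply IntF.ite | with_reducible apply IntF.the | with_reducible apply IntF.irec | with_reducible apply IntF.succ | with_reducible apply IntF.val | with_reducible apply IntF.mk | (with_reducible refine Int.comp ?_ ?_; assumption) | (with_reducible refine Int.comp₂ ?_ ?_ ?_; assumption) | (with_reducible refine Int.comp₃ ?_ ?_ ?_ ?_; assumption) | (with_reducible refine Int.comp₄ ?_ ?_ ?_ ?_ ?_; assumption) | (with_reducible refine IntF.comp ?_ ?_; assumption) | (with_reducible refine IntF.comp₂ ?_ ?_ ?_; assumption) | (with_reducible refine IntF.comp₃ ?_ ?_ ?_ ?_; assumption) | with_reducible apply IntF.pair))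
  have hg : IntF N (fun y : δ × INat N => (z, pr b y.2)) := by (repeat' (first | with_reducible exact IntF.id | with_reducible exact IntF.fst' | with_reducible exact IntF.snd' | with_reducible exact IntF.const _ | with_reducible exact Int.const _ | assumption | with_reducible apply Int.and | with_reducible apply Int.or | with_reducible apply Int.not | with_reducible apply Int.imp | with_reducible apply Int.iff | with_reducible apply Int.ne | with_reducible apply Int.eq | with_reducible apply Int.mem | with_reducible apply Int.subset | with_reducible apply Int.ltN | with_reducible apply Int.leN | with_reducible_and_instances apply Int.le | with_reducible_and_instances apply Int.lt | with_reducible apply Int.all | with_reducible apply Int.ex | with_reducible apply IntF.fst | with_reducible apply IntF.snd | with_reducible apply IntF.app | with_reducible apply IntF.inl | with_reducible apply IntF.inr | with_reducible_and_instances apply IntF.mul | with_reducible_and_instances apply IntF.inv | with_reducible_and_instances apply IntF.add | with_reducible_and_instances apply IntF.sub | with_reducible_and_instances apply IntF.neg | with_reducible_and_instances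 apply IntF.smul | with_reducible apply Int.fin | with_reducible apply IntF.sep | with_reducible apply IntF.lam | with_reducible apply IntF.insert | with_reducible apply IntF.singleton | with_reducible apply IntF.union | with_reducible apply IntF.iimage | with_reducible apply IntF.ite | with_reducible apply IntF.the | with_reducible apply IntF.irec | with_reducible apply IntF.succ | with_reducible apply IntF.val | with_reducible apply IntF.mk | (with_reducible refine Int.comp ?_ ?_; assumption) | (with_reducible refine Int.comp₂ ?_ ?_ ?_; assumption) | (with_reducible refine Int.comp₃ ?_ ?_ ?_ ?_; assumption) | (with_reducible refine Int.comp₄ ?_ ?_ ?_ ?_ ?_; assumption) | (with_reducible refine IntF.comp ?_ ?_; assumption) | (with_reducible refine IntF.comp₂ ?_ ?_ ?_; assumption) | (with_reducible refine IntF.comp₃ ?_ ?_ ?_ ?_; assumption) | with_reducible apply IntF.pair))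
  refine ((hs.image hf).union (hs.image hg)).subset fun y hy => ?_
  rw [mem_union, mem_iimage hf, mem_iimage hg]
  rcases mem_sh.1 hy with ⟨n, h1, h2, h3⟩ | ⟨h1, n, h2, h3⟩
  · exact Or.inl ⟨_, h1, Prod.ext rfl h3.symm⟩
  · exact Or.inr ⟨_, h2, Prod.ext h1.symm h3.symm⟩

theorem mem_sh' {i a b : ℕ} {z β ξ : δ} {n : INat N} {s : IPow N (δ × INat N)} :
    (ξ, pr (tg N i) n) ∈ sh (tg N a) (tg N b) z β s ↔
      (i = a ∧ (ξ, n) ∈ s ∧ ¬ ξ = β) ∨ (i = b ∧ ξ = z ∧ (β, n) ∈ s) := by
  rw [mem_sh]
  constructor
  · rintro (⟨m, h1, h2, h3⟩ | ⟨h1, m, h2, h3⟩)
    · obtain ⟨h4, rfl⟩ := pr_inj h3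
      exact Or.inl ⟨tg_inj h4, h1, h2⟩
    · obtain ⟨h4, rfl⟩ := pr_inj h3
      exact Or.inr ⟨tg_inj h4, h1, h2⟩
  · rintro (⟨rfl, h1, h2⟩ | ⟨rfl, h1, h2⟩)
    · exact Or.inl ⟨n, h1, h2, rfl⟩
    · exact Or.inr ⟨h1, n, h2, rfl⟩

/-- The code of a triple of terms and a natural number. -/
noncomputable def cs (z β : δ) (s₁ s₂ s₃ : IPow N (δ × INat N)) (k : INat N) :
    IPow N (δ × INat N) :=
  insert (z, pr (tg N 6) k) (sh (tg N 0) (tg N 1) z β s₁ ∪ (sh (tg N 2) (tg N 3) z β s₂ ∪
    sh (tg N 4) (tg N 5) z β s₃))

theorem fin_cs {z β : δ} {s₁ s₂ s₃ : IPow N (δ × INat N)} (k : INat N) (h₁ : IFin s₁)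
    (h₂ : IFin s₂) (h₃ : IFin s₃) : IFin (cs z β s₁ s₂ s₃ k) :=
  ((fin_sh h₁).union ((fin_sh h₂).union (fin_sh h₃))).insert _

theorem mem_cs {i : ℕ} {z β ξ : δ} {n k : INat N} {s₁ s₂ s₃ : IPow N (δ × INat N)} :
    (ξ, pr (tg N i) n) ∈ cs z β s₁ s₂ s₃ k ↔
      ((i = 0 ∧ (ξ, n) ∈ s₁ ∧ ¬ ξ = β) ∨ (i = 1 ∧ ξ = z ∧ (β, n) ∈ s₁) ∨
      (i = 2 ∧ (ξ, n) ∈ s₂ ∧ ¬ ξ = β) ∨ (i = 3 ∧ ξ = z ∧ (β, n) ∈ s₂) ∨
      (i = 4 ∧ (ξ, n) ∈ s₃ ∧ ¬ ξ = β) ∨ (i = 5 ∧ ξ = z ∧ (β, n) ∈ s₃) ∨
      (i = 6 ∧ ξ = z ∧ n = k)) := by
  unfold cs
  rw [mem_insert, mem_union, mem_union, mem_sh', mem_sh', mem_sh']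
  have h1 : ((ξ, pr (tg N i) n) = (z, pr (tg N 6) k)) ↔ (i = 6 ∧ ξ = z ∧ n = k) := by
    constructor
    · intro h
      obtain ⟨h2, h3⟩ := Prod.mk.inj h
      obtain ⟨h4, h5⟩ := pr_inj h3
      exact ⟨tg_inj h4, h2, h5⟩
    · rintro ⟨rfl, rfl, rfl⟩
      rfl
  rw [h1, or_comm]
  simp only [or_assoc]

theorem cs_inj {z β : δ} {s₁ s₂ s₃ s₁' s₂' s₃' : IPow N (δ × INat N)} {k k' : INat N}
    (h : cs z β s₁ s₂ s₃ k = cs z β s₁' s₂' s₃' k') :
    s₁ = s₁' ∧ s₂ = s₂' ∧ s₃ = s₃' ∧ k = k' := by
  have key : ∀ (i : ℕ) (ξ : δ) (n : INat N), (ξ, pr (tg N i) n) ∈ cs z β s₁ s₂ s₃ k ↔
      (ξ, pr (tg N i) n) ∈ cs z β s₁' s₂' s₃' k' := fun i ξ n => by rw [h]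
  have k0 := fun ξ n => key 0 ξ n
  have k1 := fun n => key 1 z n
  have k2 := fun ξ n => key 2 ξ n
  have k3 := fun n => key 3 z n
  have k4 := fun ξ n => key 4 ξ n
  have k5 := fun n => key 5 z n
  have k6 := key 6 z k
  simp only [mem_cs] at k0 k1 k2 k3 k4 k5 k6
  norm_num at k0 k1 k2 k3 k4 k5 k6
  refine ⟨IPow.ext' ?_, IPow.ext' ?_, IPow.ext' ?_, k6⟩
  · rintro ⟨ξ, n⟩
    by_cases hξ : ξ = β
    · rw [hξ]
      exact k1 n
    · have := k0 ξ n
      simp only [hξ, not_false_iff, and_true] at this
      exact this trivial
  · rintro ⟨ξ, n⟩
    by_cases hξ : ξ = β
    · rw [hξ]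
      exact k3 n
    · have := k2 ξ n
      simp only [hξ, not_false_iff, and_true] at this
      exact this trivial
  · rintro ⟨ξ, n⟩
    by_cases hξ : ξ = β
    · rw [hξ]
      exact k5 n
    · have := k4 ξ n
      simp only [hξ, not_false_iff, and_true] at this
      exact this trivial

/-- The atoms of a code. -/
theorem fst_cs {z β : δ} {s₁ s₂ s₃ : IPow N (δ × INat N)} {k : INat N} {y : δ × INat N}
    (hy : y ∈ cs z β s₁ s₂ s₃ k) : y.1 = z ∨ (¬ y.1 = β ∧ ∃ n, (y.1, n) ∈ s₁ ∨ (y.1, n) ∈ s₂ ∨
      (y.1, n) ∈ s₃) := by
  unfold cs at hy
  rw [mem_insert, mem_union, mem_union, mem_sh, mem_sh, mem_sh] at hy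
  rcases hy with rfl | (⟨n, h1, h2, -⟩ | ⟨h1, -⟩) | (⟨n, h1, h2, -⟩ | ⟨h1, -⟩) |
    (⟨n, h1, h2, -⟩ | ⟨h1, -⟩)
  · exact Or.inl rfl
  · exact Or.inr ⟨h2, n, Or.inl h1⟩
  · exact Or.inl h1
  · exact Or.inr ⟨h2, n, Or.inr (Or.inl h1)⟩
  · exact Or.inl h1
  · exact Or.inr ⟨h2, n, Or.inr (Or.inr h1)⟩
  · exact Or.inl h1

/-- The coding function of terms. -/
noncomputable def CC (z : δ) (q : (((δ × Tm N δ) × Tm N δ) × Tm N δ) × INat N) : Tm N δ :=
  ⟨cs z q.1.1.1.1 q.1.1.1.2.1 q.1.1.2.1 q.1.2.1 q.2,
    fin_cs q.2 q.1.1.1.2.2 q.1.1.2.2 q.1.2.2⟩

theorem int_CC (z : δ) : IntF N (CC (N := N) z) := by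
  have hp := int_pr (M := N)
  have h1 := int_sh (N := N) (tg N 0) (tg N 1) z
  have h2 := int_sh (N := N) (tg N 2) (tg N 3) z
  have h3 := int_sh (N := N) (tg N 4) (tg N 5) z
  refine IntF.mk ?_
  change IntF N (fun q : (((δ × Tm N δ) × Tm N δ) × Tm N δ) × INat N =>
    insert (z, pr (tg N 6) q.2) (sh (tg N 0) (tg N 1) z q.1.1.1.1 q.1.1.1.2.1 ∪
      (sh (tg N 2) (tg N 3) z q.1.1.1.1 q.1.1.2.1 ∪ sh (tg N 4) (tg N 5) z q.1.1.1.1 q.1.2.1)))
  refine IntF.insert (by (repeat' (first | with_reducible exact IntF.id | with_reducible exact IntF.fst' | with_reducible exact IntF.snd' | with_reducible exact IntF.const _ | with_reducible exact Int.const _ | assumption | with_reducible apply Int.and | with_reducible apply Int.or | with_reducible apply Int.not | with_reducible apply Int.imp | with_reducible apply Int.iff | with_reducible apply Int.ne | with_reducible apply Int.eq | with_reducible apply Int.mem | with_reducible apply Int.subset | with_reducible apply Int.ltN | with_reducible apply Int.leN | with_reducible_and_instances apply Int.le | with_reducible_and_instances apply Int.lt | with_reducible apply Int.all | with_reducible apply Int.ex | with_reducible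 apply IntF.fst | with_reducible apply IntF.snd | with_reducible apply IntF.app | with_reducible apply IntF.inl | with_reducible apply IntF.inr | with_reducible_and_instances apply IntF.mul | with_reducible_and_instances apply IntF.inv | with_reducible_and_instances apply IntF.add | with_reducible_and_instances apply IntF.sub | with_reducible_and_instances apply IntF.neg | with_reducible_and_instances apply IntF.smul | with_reducible apply Int.fin | with_reducible apply IntF.sep | with_reducible apply IntF.lam | with_reducible apply IntF.insert | with_reducible apply IntF.singleton | with_reducible apply IntF.union | with_reducible apply IntF.iimage | with_reducible apply IntF.ite | with_reducible apply IntF.the | with_reducible apply IntF.irec | with_reducible apply IntF.succ | with_reducible apply IntF.val | with_reducible apply IntF.mk | (with_reducible refine Int.comp ?_ ?_; assumption) | (with_reducible refine Int.comp₂ ?_ ?_ ?_; assumption) | (with_reducible refine Int.comp₃ ?_ ?_ ?_ ?_; assumption) | (with_reducible refine Int.comp₄ ?_ ?_ ?_ ?_ ?_; assumption) | (with_reducible refine IntF.comp ?_ ?_; assumption) | (with_reducible refine IntF.comp₂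 ?_ ?_ ?_; assumption) | (with_reducible refine IntF.comp₃ ?_ ?_ ?_ ?_; assumption) | with_reducible apply IntF.pair))) (IntF.union ?_ (IntF.union ?_ ?_))
  · exact IntF.comp₂ (p := fun β s => sh (tg N 0) (tg N 1) z β s) h1 (by (repeat' (first | with_reducible exact IntF.id | with_reducible exact IntF.fst' | with_reducible exact IntF.snd' | with_reducible exact IntF.const _ | with_reducible exact Int.const _ | assumption | with_reducible apply Int.and | with_reducible apply Int.or | with_reducible apply Int.not | with_reducible apply Int.imp | with_reducible apply Int.iff | with_reducible apply Int.ne | with_reducible apply Int.eq | with_reducible apply Int.mem | with_reducible apply Int.subset | with_reducible apply Int.ltN | with_reducible apply Int.leN | with_reducible_and_instances apply Int.le | with_reducible_and_instances apply Int.lt | with_reducible apply Int.all | with_reducible apply Int.ex | with_reducible apply IntF.fst | with_reducible apply IntF.snd | with_reducible apply IntF.app | with_reducible apply IntF.inl | with_reducible apply IntF.inr | with_reducible_and_instances apply IntF.mul | with_reducible_and_instances apply IntF.inv | with_reducible_and_instances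 apply IntF.add | with_reducible_and_instances apply IntF.sub | with_reducible_and_instances apply IntF.neg | with_reducible_and_instances apply IntF.smul | with_reducible apply Int.fin | with_reducible apply IntF.sep | with_reducible apply IntF.lam | with_reducible apply IntF.insert | with_reducible apply IntF.singleton | with_reducible apply IntF.union | with_reducible apply IntF.iimage | with_reducible apply IntF.ite | with_reducible apply IntF.the | with_reducible apply IntF.irec | with_reducible apply IntF.succ | with_reducible apply IntF.val | with_reducible apply IntF.mk | (with_reducible refine Int.comp ?_ ?_; assumption) | (with_reducible refine Int.comp₂ ?_ ?_ ?_; assumption) | (with_reducible refine Int.comp₃ ?_ ?_ ?_ ?_; assumption) | (with_reducible refine Int.comp₄ ?_ ?_ ?_ ?_ ?_; assumption) | (with_reducible refine IntF.comp ?_ ?_; assumption) | (with_reducible refine IntF.comp₂ ?_ ?_ ?_; assumption) | (with_reducible refine IntF.comp₃ ?_ ?_ ?_ ?_; assumption) | with_reducible apply IntF.pair))) (by (repeat' (first | with_reducible exact IntF.id | with_reducible exact IntF.fst' | with_reducible exact IntF.snd' | with_reducible exact IntF.const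 _ | with_reducible exact Int.const _ | assumption | with_reducible apply Int.and | with_reducible apply Int.or | with_reducible apply Int.not | with_reducible apply Int.imp | with_reducible apply Int.iff | with_reducible apply Int.ne | with_reducible apply Int.eq | with_reducible apply Int.mem | with_reducible apply Int.subset | with_reducible apply Int.ltN | with_reducible apply Int.leN | with_reducible_and_instances apply Int.le | with_reducible_and_instances apply Int.lt | with_reducible apply Int.all | with_reducible apply Int.ex | with_reducible apply IntF.fst | with_reducible apply IntF.snd | with_reducible apply IntF.app | with_reducible apply IntF.inl | with_reducible apply IntF.inr | with_reducible_and_instances apply IntF.mul | with_reducible_and_instances apply IntF.inv | with_reducible_and_instances apply IntF.add | with_reducible_and_instances apply IntF.sub | with_reducible_and_instances apply IntF.neg | with_reducible_and_instances apply IntF.smul | with_reducible apply Int.fin | with_reducible apply IntF.sep | with_reducible apply IntF.lam | with_reducible apply IntF.insert | with_reducible apply IntF.singleton | with_reducible apply IntF.union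 | with_reducible apply IntF.iimage | with_reducible apply IntF.ite | with_reducible apply IntF.the | with_reducible apply IntF.irec | with_reducible apply IntF.succ | with_reducible apply IntF.val | with_reducible apply IntF.mk | (with_reducible refine Int.comp ?_ ?_; assumption) | (with_reducible refine Int.comp₂ ?_ ?_ ?_; assumption) | (with_reducible refine Int.comp₃ ?_ ?_ ?_ ?_; assumption) | (with_reducible refine Int.comp₄ ?_ ?_ ?_ ?_ ?_; assumption) | (with_reducible refine IntF.comp ?_ ?_; assumption) | (with_reducible refine IntF.comp₂ ?_ ?_ ?_; assumption) | (with_reducible refine IntF.comp₃ ?_ ?_ ?_ ?_; assumption) | with_reducible apply IntF.pair)))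
  · exact IntF.comp₂ (p := fun β s => sh (tg N 2) (tg N 3) z β s) h2 (by (repeat' (first | with_reducible exact IntF.id | with_reducible exact IntF.fst' | with_reducible exact IntF.snd' | with_reducible exact IntF.const _ | with_reducible exact Int.const _ | assumption | with_reducible apply Int.and | with_reducible apply Int.or | with_reducible apply Int.not | with_reducible apply Int.imp | with_reducible apply Int.iff | with_reducible apply Int.ne | with_reducible apply Int.eq | with_reducible apply Int.mem | with_reducible apply Int.subset | with_reducible apply Int.ltN | with_reducible apply Int.leN | with_reducible_and_instances apply Int.le | with_reducible_and_instances apply Int.lt | with_reducible apply Int.all | with_reducible apply Int.ex | with_reducible apply IntF.fst | with_reducible apply IntF.snd | with_reducible apply IntF.app | with_reducible apply IntF.inl | with_reducible apply IntF.inr | with_reducible_and_instances apply IntF.mul | with_reducible_and_instances apply IntF.inv | with_reducible_and_instances apply IntF.add | with_reducible_and_instances apply IntF.sub | with_reducible_and_instances apply IntF.neg | with_reducible_and_instances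 apply IntF.smul | with_reducible apply Int.fin | with_reducible apply IntF.sep | with_reducible apply IntF.lam | with_reducible apply IntF.insert | with_reducible apply IntF.singleton | with_reducible apply IntF.union | with_reducible apply IntF.iimage | with_reducible apply IntF.ite | with_reducible apply IntF.the | with_reducible apply IntF.irec | with_reducible apply IntF.succ | with_reducible apply IntF.val | with_reducible apply IntF.mk | (with_reducible refine Int.comp ?_ ?_; assumption) | (with_reducible refine Int.comp₂ ?_ ?_ ?_; assumption) | (with_reducible refine Int.comp₃ ?_ ?_ ?_ ?_; assumption) | (with_reducible refine Int.comp₄ ?_ ?_ ?_ ?_ ?_; assumption) | (with_reducible refine IntF.comp ?_ ?_; assumption) | (with_reducible refine IntF.comp₂ ?_ ?_ ?_; assumption) | (with_reducible refine IntF.comp₃ ?_ ?_ ?_ ?_; assumption) | with_reducible apply IntF.pair))) (by (repeat' (first | with_reducible exact IntF.id | with_reducible exact IntF.fst' | with_reducible exact IntF.snd' | with_reducible exact IntF.const _ | with_reducible exact Int.const _ | assumption | with_reducible apply Int.and | with_reducible apply Int.or | with_reducible apply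 Int.not | with_reducible apply Int.imp | with_reducible apply Int.iff | with_reducible apply Int.ne | with_reducible apply Int.eq | with_reducible apply Int.mem | with_reducible apply Int.subset | with_reducible apply Int.ltN | with_reducible apply Int.leN | with_reducible_and_instances apply Int.le | with_reducible_and_instances apply Int.lt | with_reducible apply Int.all | with_reducible apply Int.ex | with_reducible apply IntF.fst | with_reducible apply IntF.snd | with_reducible apply IntF.app | with_reducible apply IntF.inl | with_reducible apply IntF.inr | with_reducible_and_instances apply IntF.mul | with_reducible_and_instances apply IntF.inv | with_reducible_and_instances apply IntF.add | with_reducible_and_instances apply IntF.sub | with_reducible_and_instances apply IntF.neg | with_reducible_and_instances apply IntF.smul | with_reducible apply Int.fin | with_reducible apply IntF.sep | with_reducible apply IntF.lam | with_reducible apply IntF.insert | with_reducible apply IntF.singleton | with_reducible apply IntF.union | with_reducible apply IntF.iimage | with_reducible apply IntF.ite | with_reducible apply IntF.the | with_reducible apply IntF.irec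 | with_reducible apply IntF.succ | with_reducible apply IntF.val | with_reducible apply IntF.mk | (with_reducible refine Int.comp ?_ ?_; assumption) | (with_reducible refine Int.comp₂ ?_ ?_ ?_; assumption) | (with_reducible refine Int.comp₃ ?_ ?_ ?_ ?_; assumption) | (with_reducible refine Int.comp₄ ?_ ?_ ?_ ?_ ?_; assumption) | (with_reducible refine IntF.comp ?_ ?_; assumption) | (with_reducible refine IntF.comp₂ ?_ ?_ ?_; assumption) | (with_reducible refine IntF.comp₃ ?_ ?_ ?_ ?_; assumption) | with_reducible apply IntF.pair)))
  · exact IntF.comp₂ (p := fun β s => sh (tg N 4) (tg N 5) z β s) h3 (by (repeat' (first | with_reducible exact IntF.id | with_reducible exact IntF.fst' | with_reducible exact IntF.snd' | with_reducible exact IntF.const _ | with_reducible exact Int.const _ | assumption | with_reducible apply Int.and | with_reducible apply Int.or | with_reducible apply Int.not | with_reducible apply Int.imp | with_reducible apply Int.iff | with_reducible apply Int.ne | with_reducible apply Int.eq | with_reducible apply Int.mem | with_reducible apply Int.subset | with_reducible apply Int.ltN | with_reducible apply Int.leN | with_reducible_and_instances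 apply Int.le | with_reducible_and_instances apply Int.lt | with_reducible apply Int.all | with_reducible apply Int.ex | with_reducible apply IntF.fst | with_reducible apply IntF.snd | with_reducible apply IntF.app | with_reducible apply IntF.inl | with_reducible apply IntF.inr | with_reducible_and_instances apply IntF.mul | with_reducible_and_instances apply IntF.inv | with_reducible_and_instances apply IntF.add | with_reducible_and_instances apply IntF.sub | with_reducible_and_instances apply IntF.neg | with_reducible_and_instances apply IntF.smul | with_reducible apply Int.fin | with_reducible apply IntF.sep | with_reducible apply IntF.lam | with_reducible apply IntF.insert | with_reducible apply IntF.singleton | with_reducible apply IntF.union | with_reducible apply IntF.iimage | with_reducible apply IntF.ite | with_reducible apply IntF.the | with_reducible apply IntF.irec | with_reducible apply IntF.succ | with_reducible apply IntF.val | with_reducible apply IntF.mk | (with_reducible refine Int.comp ?_ ?_; assumption) | (with_reducible refine Int.comp₂ ?_ ?_ ?_; assumption) | (with_reducible refine Int.comp₃ ?_ ?_ ?_ ?_; assumption) | (with_reducible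 refine Int.comp₄ ?_ ?_ ?_ ?_ ?_; assumption) | (with_reducible refine IntF.comp ?_ ?_; assumption) | (with_reducible refine IntF.comp₂ ?_ ?_ ?_; assumption) | (with_reducible refine IntF.comp₃ ?_ ?_ ?_ ?_; assumption) | with_reducible apply IntF.pair))) (by (repeat' (first | with_reducible exact IntF.id | with_reducible exact IntF.fst' | with_reducible exact IntF.snd' | with_reducible exact IntF.const _ | with_reducible exact Int.const _ | assumption | with_reducible apply Int.and | with_reducible apply Int.or | with_reducible apply Int.not | with_reducible apply Int.imp | with_reducible apply Int.iff | with_reducible apply Int.ne | with_reducible apply Int.eq | with_reducible apply Int.mem | with_reducible apply Int.subset | with_reducible apply Int.ltN | with_reducible apply Int.leN | with_reducible_and_instances apply Int.le | with_reducible_and_instances apply Int.lt | with_reducible apply Int.all | with_reducible apply Int.ex | with_reducible apply IntF.fst | with_reducible apply IntF.snd | with_reducible apply IntF.app | with_reducible apply IntF.inl | with_reducible apply IntF.inr | with_reducible_and_instances apply IntF.mul | with_reducible_and_instances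 apply IntF.inv | with_reducible_and_instances apply IntF.add | with_reducible_and_instances apply IntF.sub | with_reducible_and_instances apply IntF.neg | with_reducible_and_instances apply IntF.smul | with_reducible apply Int.fin | with_reducible apply IntF.sep | with_reducible apply IntF.lam | with_reducible apply IntF.insert | with_reducible apply IntF.singleton | with_reducible apply IntF.union | with_reducible apply IntF.iimage | with_reducible apply IntF.ite | with_reducible apply IntF.the | with_reducible apply IntF.irec | with_reducible apply IntF.succ | with_reducible apply IntF.val | with_reducible apply IntF.mk | (with_reducible refine Int.comp ?_ ?_; assumption) | (with_reducible refine Int.comp₂ ?_ ?_ ?_; assumption) | (with_reducible refine Int.comp₃ ?_ ?_ ?_ ?_; assumption) | (with_reducible refine Int.comp₄ ?_ ?_ ?_ ?_ ?_; assumption) | (with_reducible refine IntF.comp ?_ ?_; assumption) | (with_reducible refine IntF.comp₂ ?_ ?_ ?_; assumption) | (with_reducible refine IntF.comp₃ ?_ ?_ ?_ ?_; assumption) | with_reducible apply IntF.pair)))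

/-! ### The order of the terms -/

variable {lt : δ → δ → Prop} (h : IWO N δ lt)

/-- The order of the atoms. -/
def lta (lt : δ → δ → Prop) (a b : δ × INat N) : Prop := lt a.1 b.1 ∨ (a.1 = b.1 ∧ a.2 < b.2)

/-- The order of the terms. -/
def ltt (lt : δ → δ → Prop) (s t : Tm N δ) : Prop := flt (lta lt) s.1 t.1

include h

theorem iwo_lta : IWO N (δ × INat N) (lta lt) := iwo_prod h iwoNn

theorem iwo_ltt : IWO N (Tm N δ) (ltt lt) :=
  iwo_fin (iwo_lta h) (f := fun s : Tm N δ => s.1) IntF.val' (fun _ _ h => Subtype.ext h)
    fun b => b.2

omit h in
/-- `β` is the largest generator in `t`. -/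
def Top (lt : δ → δ → Prop) (t : Tm N δ) (β : δ) : Prop :=
  (∃ n, (β, n) ∈ t.1) ∧ ∀ y, y ∈ t.1 → ¬ lt β y.1

theorem int_Top : Int N (fun q : Tm N δ × δ => Top lt q.1 q.2) := by
  have hl := h.int
  unfold Top
  (repeat' (first | with_reducible exact IntF.id | with_reducible exact IntF.fst' | with_reducible exact IntF.snd' | with_reducible exact IntF.const _ | with_reducible exact Int.const _ | assumption | with_reducible apply Int.and | with_reducible apply Int.or | with_reducible apply Int.not | with_reducible apply Int.imp | with_reducible apply Int.iff | with_reducible apply Int.ne | with_reducible apply Int.eq | with_reducible apply Int.mem | with_reducible apply Int.subset | with_reducible apply Int.ltN | with_reducible apply Int.leN | with_reducible_and_instances apply Int.le | with_reducible_and_instances apply Int.lt | with_reducible apply Int.all | with_reducible apply Int.ex | with_reducible apply IntF.fst | with_reducible apply IntF.snd | with_reducible apply IntF.app | with_reducible apply IntF.inl | with_reducible apply IntF.inr | with_reducible_and_instances apply IntF.mul | with_reducible_and_instances apply IntF.inv | with_reducible_and_instances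 apply IntF.add | with_reducible_and_instances apply IntF.sub | with_reducible_and_instances apply IntF.neg | with_reducible_and_instances apply IntF.smul | with_reducible apply Int.fin | with_reducible apply IntF.sep | with_reducible apply IntF.lam | with_reducible apply IntF.insert | with_reducible apply IntF.singleton | with_reducible apply IntF.union | with_reducible apply IntF.iimage | with_reducible apply IntF.ite | with_reducible apply IntF.the | with_reducible apply IntF.irec | with_reducible apply IntF.succ | with_reducible apply IntF.val | with_reducible apply IntF.mk | (with_reducible refine Int.comp ?_ ?_; assumption) | (with_reducible refine Int.comp₂ ?_ ?_ ?_; assumption) | (with_reducible refine Int.comp₃ ?_ ?_ ?_ ?_; assumption) | (with_reducible refine Int.comp₄ ?_ ?_ ?_ ?_ ?_; assumption) | (with_reducible refine IntF.comp ?_ ?_; assumption) | (with_reducible refine IntF.comp₂ ?_ ?_ ?_; assumption) | (with_reducible refine IntF.comp₃ ?_ ?_ ?_ ?_; assumption) | with_reducible apply IntF.pair))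

theorem Top.unique {t : Tm N δ} {β β' : δ} (h1 : Top lt t β) (h2 : Top lt t β') : β = β' := by
  obtain ⟨n, hn⟩ := h1.1
  obtain ⟨n', hn'⟩ := h2.1
  rcases h.tri β β' with h3 | h3 | h3
  · exact absurd h3 (h1.2 _ hn')
  · exact h3
  · exact absurd h3 (h2.2 _ hn)

theorem exists_Top {t : Tm N δ} (hne : ∃ y, y ∈ t.1) : ∃ β, Top lt t β := by
  obtain ⟨m, hm, h1⟩ := fin_max (iwo_lta h) t.2 hne
  exact ⟨m.1, ⟨m.2, hm⟩, fun y hy h2 => h1 y hy (Or.inl h2)⟩

theorem lower {s t : Tm N δ} {β : δ} (ht : Top lt t β) (hst : ltt lt s t) {y : δ × INat N}
    (hy : y ∈ s.1) : ¬ lt β y.1 := by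
  obtain ⟨m, hm, hm', h1⟩ := hst
  intro h2
  have h3 : lt m.1 y.1 := by
    rcases h.tri m.1 β with h3 | h3 | h3
    · exact iwo_trans h h3 h2
    · rw [h3]
      exact h2
    · exact absurd h3 (ht.2 m hm)
  exact ht.2 y ((h1 y (Or.inl h3)).1 hy) h2

theorem upper {s t : Tm N δ} {β : δ} (ht : Top lt t β) (hs : ∀ y, y ∈ s.1 → lt y.1 β) :
    ltt lt s t := by
  obtain ⟨⟨n, hn⟩, ht'⟩ := ht
  obtain ⟨m, hm, h1⟩ := fin_max (iwo_lta h) t.2 ⟨_, hn⟩
  have hmβ : m.1 = β := by
    rcases h.tri m.1 β with h2 | h2 | h2
    · exact absurd (Or.inl h2) (h1 _ hn)
    · exact h2
    · exact absurd h2 (ht' m hm)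
  refine ⟨m, hm, fun h2 => ?_, fun y hy => ⟨fun h2 => ?_, fun h2 => absurd hy (h1 y h2)⟩⟩
  · have := hs m h2
    rw [hmβ] at this
    exact iwo_irrefl h _ this
  · exfalso
    have h3 := hs y h2
    rw [← hmβ] at h3
    rcases hy with h4 | ⟨h4, -⟩
    · exact iwo_asymm h h3 h4
    · rw [h4] at h3
      exact iwo_irrefl h _ h3

end

end Pool.Agent.Helper672.ZFA.V244
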