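import Pool.Agent.V11244.Zf.Rec

/-!
# The Hartogs number of an internal type
-/

set_option maxHeartbeats 1000000
set_option linter.all false
set_option synthInstance.maxSize 2000

namespace Pool.Agent.Helper672.ZFA.V244

open FirstOrder FirstOrder.Language
open Pool.Agent.H310

universe u

section

variable {N : Type u} [L.Structure N] [hN : IsModel N]
variable {X : Type u} [ITy N X]

/-- Reflexive well-orders of subsets of `X`. -/
def WOr (R : IPow N (X × X)) : Prop :=
  (∀ x y, (x, y) ∈ R → (x, x) ∈ R ∧ (y, y) ∈ R) ∧
  (∀ x y, (x, y) ∈ R → (y, x) ∈ R → x = y) ∧
  (∀ x y z, (x, y) ∈ R → (y, z) ∈ R → (x, z) ∈ R) ∧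
  (∀ x y, (x, x) ∈ R → (y, y) ∈ R → (x, y) ∈ R ∨ (y, x) ∈ R) ∧
  ∀ s : IPow N X, (∃ x, x ∈ s) → (∀ x, x ∈ s → (x, x) ∈ R) → ∃ x, x ∈ s ∧ ∀ y, y ∈ s → (x, y) ∈ R

theorem int_WOr : Int N (fun R : IPow N (X × X) => WOr R) := by
  unfold WOr
  (repeat' (first | with_reducible exact IntF.id | with_reducible exact IntF.fst' | with_reducible exact IntF.snd' | with_reducible exact IntF.const _ | with_reducible exact Int.const _ | assumption | with_reducible apply Int.and | with_reducible apply Int.or | with_reducible apply Int.not | with_reducible apply Int.imp | with_reducible apply Int.iff | with_reducible apply Int.ne | with_reducible apply Int.eq | with_reducible apply Int.mem | with_reducible apply Int.subset | with_reducible apply Int.ltN | with_reducible apply Int.leN | with_reducible_and_instances apply Int.le | with_reducible_and_instances apply Int.lt | with_reducible apply Int.all | with_reducible apply Int.ex | with_reducible apply IntF.fst | with_reducible apply IntF.snd | with_reducible apply IntF.app | with_reducible apply IntF.inl | with_reducible apply IntF.inr | with_reducible_and_instances apply IntF.mul | with_reducible_and_instances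 apply IntF.inv | with_reducible_and_instances apply IntF.add | with_reducible_and_instances apply IntF.sub | with_reducible_and_instances apply IntF.neg | with_reducible_and_instances apply IntF.smul | with_reducible apply Int.fin | with_reducible apply IntF.sep | with_reducible apply IntF.lam | with_reducible apply IntF.insert | with_reducible apply IntF.singleton | with_reducible apply IntF.union | with_reducible apply IntF.iimage | with_reducible apply IntF.ite | with_reducible apply IntF.the | with_reducible apply IntF.irec | with_reducible apply IntF.succ | with_reducible apply IntF.val | with_reducible apply IntF.mk | (with_reducible refine Int.comp ?_ ?_; assumption) | (with_reducible refine Int.comp₂ ?_ ?_ ?_; assumption) | (with_reducible refine Int.comp₃ ?_ ?_ ?_ ?_; assumption) | (with_reducible refine Int.comp₄ ?_ ?_ ?_ ?_ ?_; assumption) | (with_reducible refine IntF.comp ?_ ?_; assumption) | (with_reducible refine IntF.comp₂ ?_ ?_ ?_; assumption) | (with_reducible refine IntF.comp₃ ?_ ?_ ?_ ?_; assumption) | with_reducible apply IntF.pair))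

/-- The initial segment below `z`. -/
noncomputable def seg (R : IPow N (X × X)) (z : X) : IPow N (X × X) :=
  sep N fun q => q ∈ R ∧ (q.2, z) ∈ R ∧ ¬ q.2 = z

theorem int_seg : IntF N (fun q : IPow N (X × X) × X => seg q.1 q.2) := by
  unfold seg
  (repeat' (first | with_reducible exact IntF.id | with_reducible exact IntF.fst' | with_reducible exact IntF.snd' | with_reducible exact IntF.const _ | with_reducible exact Int.const _ | assumption | with_reducible apply Int.and | with_reducible apply Int.or | with_reducible apply Int.not | with_reducible apply Int.imp | with_reducible apply Int.iff | with_reducible apply Int.ne | with_reducible apply Int.eq | with_reducible apply Int.mem | with_reducible apply Int.subset | with_reducible apply Int.ltN | with_reducible apply Int.leN | with_reducible_and_instances apply Int.le | with_reducible_and_instances apply Int.lt | with_reducible apply Int.all | with_reducible apply Int.ex | with_reducible apply IntF.fst | with_reducible apply IntF.snd | with_reducible apply IntF.app | with_reducible apply IntF.inl | with_reducible apply IntF.inr | with_reducible_and_instances apply IntF.mul | with_reducible_and_instances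 apply IntF.inv | with_reducible_and_instances apply IntF.add | with_reducible_and_instances apply IntF.sub | with_reducible_and_instances apply IntF.neg | with_reducible_and_instances apply IntF.smul | with_reducible apply Int.fin | with_reducible apply IntF.sep | with_reducible apply IntF.lam | with_reducible apply IntF.insert | with_reducible apply IntF.singleton | with_reducible apply IntF.union | with_reducible apply IntF.iimage | with_reducible apply IntF.ite | with_reducible apply IntF.the | with_reducible apply IntF.irec | with_reducible apply IntF.succ | with_reducible apply IntF.val | with_reducible apply IntF.mk | (with_reducible refine Int.comp ?_ ?_; assumption) | (with_reducible refine Int.comp₂ ?_ ?_ ?_; assumption) | (with_reducible refine Int.comp₃ ?_ ?_ ?_ ?_; assumption) | (with_reducible refine Int.comp₄ ?_ ?_ ?_ ?_ ?_; assumption) | (with_reducible refine IntF.comp ?_ ?_; assumption) | (with_reducible refine IntF.comp₂ ?_ ?_ ?_; assumption) | (with_reducible refine IntF.comp₃ ?_ ?_ ?_ ?_; assumption) | with_reducible apply IntF.pair))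

theorem mem_seg {R : IPow N (X × X)} {z : X} {q : X × X} :
    q ∈ seg R z ↔ q ∈ R ∧ (q.2, z) ∈ R ∧ ¬ q.2 = z := by
  unfold seg
  exact mem_sep (by (repeat' (first | with_reducible exact IntF.id | with_reducible exact IntF.fst' | with_reducible exact IntF.snd' | with_reducible exact IntF.const _ | with_reducible exact Int.const _ | assumption | with_reducible apply Int.and | with_reducible apply Int.or | with_reducible apply Int.not | with_reducible apply Int.imp | with_reducible apply Int.iff | with_reducible apply Int.ne | with_reducible apply Int.eq | with_reducible apply Int.mem | with_reducible apply Int.subset | with_reducible apply Int.ltN | with_reducible apply Int.leN | with_reducible_and_instances apply Int.le | with_reducible_and_instances apply Int.lt | with_reducible apply Int.all | with_reducible apply Int.ex | with_reducible apply IntF.fst | with_reducible apply IntF.snd | with_reducible apply IntF.app | with_reducible apply IntF.inl | with_reducible apply IntF.inr | with_reducible_and_instances apply IntF.mul | with_reducible_and_instances apply IntF.inv | with_reducible_and_instances apply IntF.add | with_reducible_and_instances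 apply IntF.sub | with_reducible_and_instances apply IntF.neg | with_reducible_and_instances apply IntF.smul | with_reducible apply Int.fin | with_reducible apply IntF.sep | with_reducible apply IntF.lam | with_reducible apply IntF.insert | with_reducible apply IntF.singleton | with_reducible apply IntF.union | with_reducible apply IntF.iimage | with_reducible apply IntF.ite | with_reducible apply IntF.the | with_reducible apply IntF.irec | with_reducible apply IntF.succ | with_reducible apply IntF.val | with_reducible apply IntF.mk | (with_reducible refine Int.comp ?_ ?_; assumption) | (with_reducible refine Int.comp₂ ?_ ?_ ?_; assumption) | (with_reducible refine Int.comp₃ ?_ ?_ ?_ ?_; assumption) | (with_reducible refine Int.comp₄ ?_ ?_ ?_ ?_ ?_; assumption) | (with_reducible refine IntF.comp ?_ ?_; assumption) | (with_reducible refine IntF.comp₂ ?_ ?_ ?_; assumption) | (with_reducible refine IntF.comp₃ ?_ ?_ ?_ ?_; assumption) | with_reducible apply IntF.pair)))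

/-- Embeddability. -/
def Emb (R R' : IPow N (X × X)) : Prop :=
  ∃ f : IFun N X X, (∀ x, (x, x) ∈ R → (f x, f x) ∈ R') ∧
    ∀ x y, (x, y) ∈ R → ¬ x = y → (f x, f y) ∈ R' ∧ ¬ f x = f y

theorem int_Emb : Int N (fun q : IPow N (X × X) × IPow N (X × X) => Emb q.1 q.2) := by
  unfold Emb
  (repeat' (first | with_reducible exact IntF.id | with_reducible exact IntF.fst' | with_reducible exact IntF.snd' | with_reducible exact IntF.const _ | with_reducible exact Int.const _ | assumption | with_reducible apply Int.and | with_reducible apply Int.or | with_reducible apply Int.not | with_reducible apply Int.imp | with_reducible apply Int.iff | with_reducible apply Int.ne | with_reducible apply Int.eq | with_reducible apply Int.mem | with_reducible apply Int.subset | with_reducible apply Int.ltN | with_reducible apply Int.leN | with_reducible_and_instances apply Int.le | with_reducible_and_instances apply Int.lt | with_reducible apply Int.all | with_reducible apply Int.ex | with_reducible apply IntF.fst | with_reducible apply IntF.snd | with_reducible apply IntF.app | with_reducible apply IntF.inl | with_reducible apply IntF.inr | with_reducible_and_instances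 apply IntF.mul | with_reducible_and_instances apply IntF.inv | with_reducible_and_instances apply IntF.add | with_reducible_and_instances apply IntF.sub | with_reducible_and_instances apply IntF.neg | with_reducible_and_instances apply IntF.smul | with_reducible apply Int.fin | with_reducible apply IntF.sep | with_reducible apply IntF.lam | with_reducible apply IntF.insert | with_reducible apply IntF.singleton | with_reducible apply IntF.union | with_reducible apply IntF.iimage | with_reducible apply IntF.ite | with_reducible apply IntF.the | with_reducible apply IntF.irec | with_reducible apply IntF.succ | with_reducible apply IntF.val | with_reducible apply IntF.mk | (with_reducible refine Int.comp ?_ ?_; assumption) | (with_reducible refine Int.comp₂ ?_ ?_ ?_; assumption) | (with_reducible refine Int.comp₃ ?_ ?_ ?_ ?_; assumption) | (with_reducible refine Int.comp₄ ?_ ?_ ?_ ?_ ?_; assumption) | (with_reducible refine IntF.comp ?_ ?_; assumption) | (with_reducible refine IntF.comp₂ ?_ ?_ ?_; assumption) | (with_reducible refine IntF.comp₃ ?_ ?_ ?_ ?_; assumption) | with_reducible apply IntF.pair))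

theorem emb_refl (R : IPow N (X × X)) : Emb R R :=
  ⟨⟨fun x => x, IntF.id⟩, fun x hx => hx, fun x y hx hxy => ⟨hx, hxy⟩⟩

theorem emb_trans {R R' R'' : IPow N (X × X)} (h : Emb R R') (h' : Emb R' R'') : Emb R R'' := by
  obtain ⟨f, h1, h2⟩ := h
  obtain ⟨g, h3, h4⟩ := h'
  refine ⟨⟨fun x => g (f x), by (repeat' (first | with_reducible exact IntF.id | with_reducible exact IntF.fst' | with_reducible exact IntF.snd' | with_reducible exact IntF.const _ | with_reducible exact Int.const _ | assumption | with_reducible apply Int.and | with_reducible apply Int.or | with_reducible apply Int.not | with_reducible apply Int.imp | with_reducible apply Int.iff | with_reducible apply Int.ne | with_reducible apply Int.eq | with_reducible apply Int.mem | with_reducible apply Int.subset | with_reducible apply Int.ltN | with_reducible apply Int.leN | with_reducible_and_instances apply Int.le | with_reducible_and_instances apply Int.lt | with_reducible apply Int.all | with_reducible apply Int.ex | with_reducible apply IntF.fst | with_reducible apply IntF.snd | with_reducible apply IntF.app | with_reducible apply IntF.inl | with_reducible apply IntF.inr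 | with_reducible_and_instances apply IntF.mul | with_reducible_and_instances apply IntF.inv | with_reducible_and_instances apply IntF.add | with_reducible_and_instances apply IntF.sub | with_reducible_and_instances apply IntF.neg | with_reducible_and_instances apply IntF.smul | with_reducible apply Int.fin | with_reducible apply IntF.sep | with_reducible apply IntF.lam | with_reducible apply IntF.insert | with_reducible apply IntF.singleton | with_reducible apply IntF.union | with_reducible apply IntF.iimage | with_reducible apply IntF.ite | with_reducible apply IntF.the | with_reducible apply IntF.irec | with_reducible apply IntF.succ | with_reducible apply IntF.val | with_reducible apply IntF.mk | (with_reducible refine Int.comp ?_ ?_; assumption) | (with_reducible refine Int.comp₂ ?_ ?_ ?_; assumption) | (with_reducible refine Int.comp₃ ?_ ?_ ?_ ?_; assumption) | (with_reducible refine Int.comp₄ ?_ ?_ ?_ ?_ ?_; assumption) | (with_reducible refine IntF.comp ?_ ?_; assumption) | (with_reducible refine IntF.comp₂ ?_ ?_ ?_; assumption) | (with_reducible refine IntF.comp₃ ?_ ?_ ?_ ?_; assumption) | with_reducible apply IntF.pair))⟩,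 fun x hx => h3 _ (h1 x hx), fun x y hx hxy => ?_⟩
  obtain ⟨h5, h6⟩ := h2 x y hx hxy
  exact h4 _ _ h5 h6

theorem wor_seg {R : IPow N (X × X)} (h : WOr R) (z : X) : WOr (seg R z) := by
  obtain ⟨h1, h2, h3, h4, h5⟩ := h
  refine ⟨fun x y hxy => ?_, fun x y hxy hyx => ?_, fun x y w hxy hyw => ?_, fun x y hx hy => ?_,
    fun s hs hsR => ?_⟩
  · rw [mem_seg] at hxy
    obtain ⟨h6, h7, h8⟩ := hxy
    obtain ⟨h9, h10⟩ := h1 x y h6
    refine ⟨mem_seg.2 ⟨h9, h3 _ _ _ h6 h7, fun h11 => ?_⟩, mem_seg.2 ⟨h10, h7, h8⟩⟩
    dsimp only at h11 h7 h8
    subst h11
    exact h8 (h2 _ _ h7 h6)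
  · exact h2 x y (mem_seg.1 hxy).1 (mem_seg.1 hyx).1
  · rw [mem_seg] at hxy hyw ⊢
    exact ⟨h3 _ _ _ hxy.1 hyw.1, hyw.2⟩
  · rw [mem_seg] at hx hy
    rcases h4 x y hx.1 hy.1 with h6 | h6
    · exact Or.inl (mem_seg.2 ⟨h6, hy.2⟩)
    · exact Or.inr (mem_seg.2 ⟨h6, hx.2⟩)
  · obtain ⟨x, hx, h6⟩ := h5 s hs fun x hx => (mem_seg.1 (hsR x hx)).1
    exact ⟨x, hx, fun y hy => mem_seg.2 ⟨h6 y hy, (mem_seg.1 (hsR y hy)).2⟩⟩

theorem seg_seg {R : IPow N (X × X)} (h : WOr R) {w z : X} (hwz : (w, z) ∈ R) (hne : ¬ w = z) :
    seg (seg R z) w = seg R w := by
  obtain ⟨h1, h2, h3, h4, h5⟩ := h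
  refine IPow.ext' fun q => ?_
  rw [mem_seg, mem_seg, mem_seg, mem_seg]
  constructor
  · rintro ⟨⟨h6, h7, h8⟩, ⟨h9, h10, h11⟩, h12⟩
    exact ⟨h6, h9, h12⟩
  · rintro ⟨h6, h7, h8⟩
    refine ⟨⟨h6, h3 _ _ _ h7 hwz, fun h9 => hne ?_⟩, ⟨h7, hwz, hne⟩, h8⟩
    rw [h9] at h7
    exact h2 _ _ hwz h7

theorem emb_seg (R : IPow N (X × X)) (z : X) : Emb (seg R z) R :=
  ⟨⟨fun x => x, IntF.id⟩, fun x hx => (mem_seg.1 hx).1, fun x y hx hxy => ⟨(mem_seg.1 hx).1, hxy⟩⟩

theorem emb_seg_seg {R R' : IPow N (X × X)} (h : WOr R) (h' : WOr R') {f : IFun N X X}
    (hf : ∀ x y, (x, y) ∈ R → ¬ x = y → (f x, f y) ∈ R' ∧ ¬ f x = f y) (w : X) :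
    Emb (seg R w) (seg R' (f w)) := by
  refine ⟨f, fun x hx => ?_, fun x y hx hxy => ?_⟩
  · rw [mem_seg] at hx ⊢
    obtain ⟨h1, h2⟩ := hf x w hx.2.1 hx.2.2
    exact ⟨(h'.1 _ _ h1).1, h1, h2⟩
  · rw [mem_seg] at hx
    obtain ⟨h1, h2⟩ := hf x y hx.1 hxy
    obtain ⟨h3, h4⟩ := hf y w hx.2.1 hx.2.2
    exact ⟨mem_seg.2 ⟨h1, h3, h4⟩, h2⟩

/-- Least elements of internal predicates. -/
theorem wor_least {R : IPow N (X × X)} (h : WOr R) {p : X → Prop} (hp : Int N p)
    (hne : ∃ x, (x, x) ∈ R ∧ p x) : ∃ x, (x, x) ∈ R ∧ p x ∧ ∀ y, (y, y) ∈ R → p y → (x, y) ∈ R := by
  have hq : Int N (fun x => (x, x) ∈ R ∧ p x) := by (repeat' (first | with_reducible exact IntF.id | with_reducible exact IntF.fst' | with_reducible exact IntF.snd' | with_reducible exact IntF.const _ | with_reducible exact Int.const _ | assumption | with_reducible apply Int.and | with_reducible apply Int.or | with_reducible apply Int.not | with_reducible apply Int.imp | with_reducible apply Int.iff | with_reducible apply Int.ne | with_reducible apply Int.eq | with_reducible apply Int.mem | with_reducible apply Int.subset | with_reducible apply Int.ltN | with_reducible apply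 Int.leN | with_reducible_and_instances apply Int.le | with_reducible_and_instances apply Int.lt | with_reducible apply Int.all | with_reducible apply Int.ex | with_reducible apply IntF.fst | with_reducible apply IntF.snd | with_reducible apply IntF.app | with_reducible apply IntF.inl | with_reducible apply IntF.inr | with_reducible_and_instances apply IntF.mul | with_reducible_and_instances apply IntF.inv | with_reducible_and_instances apply IntF.add | with_reducible_and_instances apply IntF.sub | with_reducible_and_instances apply IntF.neg | with_reducible_and_instances apply IntF.smul | with_reducible apply Int.fin | with_reducible apply IntF.sep | with_reducible apply IntF.lam | with_reducible apply IntF.insert | with_reducible apply IntF.singleton | with_reducible apply IntF.union | with_reducible apply IntF.iimage | with_reducible apply IntF.ite | with_reducible apply IntF.the | with_reducible apply IntF.irec | with_reducible apply IntF.succ | with_reducible apply IntF.val | with_reducible apply IntF.mk | (with_reducible refine Int.comp ?_ ?_; assumption) | (with_reducible refine Int.comp₂ ?_ ?_ ?_; assumption) | (with_reducible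 refine Int.comp₃ ?_ ?_ ?_ ?_; assumption) | (with_reducible refine Int.comp₄ ?_ ?_ ?_ ?_ ?_; assumption) | (with_reducible refine IntF.comp ?_ ?_; assumption) | (with_reducible refine IntF.comp₂ ?_ ?_ ?_; assumption) | (with_reducible refine IntF.comp₃ ?_ ?_ ?_ ?_; assumption) | with_reducible apply IntF.pair))
  obtain ⟨x, hx, h1⟩ := h.2.2.2.2 (sep N fun x => (x, x) ∈ R ∧ p x) (by
    obtain ⟨x, hx⟩ := hne
    exact ⟨x, (mem_sep hq).2 hx⟩) fun x hx => ((mem_sep hq).1 hx).1
  have h2 := (mem_sep hq).1 hx
  exact ⟨x, h2.1, h2.2, fun y hy hy' => h1 y ((mem_sep hq).2 ⟨hy, hy'⟩)⟩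

theorem not_emb_seg {R : IPow N (X × X)} (h : WOr R) {z : X} (hz : (z, z) ∈ R) :
    ¬ Emb R (seg R z) := by
  rintro ⟨f, h1, h2⟩
  obtain ⟨x, hx, ⟨h3, h4⟩, h5⟩ := wor_least h (p := fun x => (f x, x) ∈ R ∧ ¬ f x = x) (by (repeat' (first | with_reducible exact IntF.id | with_reducible exact IntF.fst' | with_reducible exact IntF.snd' | with_reducible exact IntF.const _ | with_reducible exact Int.const _ | assumption | with_reducible apply Int.and | with_reducible apply Int.or | with_reducible apply Int.not | with_reducible apply Int.imp | with_reducible apply Int.iff | with_reducible apply Int.ne | with_reducible apply Int.eq | with_reducible apply Int.mem | with_reducible apply Int.subset | with_reducible apply Int.ltN | with_reducible apply Int.leN | with_reducible_and_instances apply Int.le | with_reducible_and_instances apply Int.lt | with_reducible apply Int.all | with_reducible apply Int.ex | with_reducible apply IntF.fst | with_reducible apply IntF.snd | with_reducible apply IntF.app | with_reducible apply IntF.inl | with_reducible apply IntF.inr | with_reducible_and_instances apply IntF.mul | with_reducible_and_instances apply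 IntF.inv | with_reducible_and_instances apply IntF.add | with_reducible_and_instances apply IntF.sub | with_reducible_and_instances apply IntF.neg | with_reducible_and_instances apply IntF.smul | with_reducible apply Int.fin | with_reducible apply IntF.sep | with_reducible apply IntF.lam | with_reducible apply IntF.insert | with_reducible apply IntF.singleton | with_reducible apply IntF.union | with_reducible apply IntF.iimage | with_reducible apply IntF.ite | with_reducible apply IntF.the | with_reducible apply IntF.irec | with_reducible apply IntF.succ | with_reducible apply IntF.val | with_reducible apply IntF.mk | (with_reducible refine Int.comp ?_ ?_; assumption) | (with_reducible refine Int.comp₂ ?_ ?_ ?_; assumption) | (with_reducible refine Int.comp₃ ?_ ?_ ?_ ?_; assumption) | (with_reducible refine Int.comp₄ ?_ ?_ ?_ ?_ ?_; assumption) | (with_reducible refine IntF.comp ?_ ?_; assumption) | (with_reducible refine IntF.comp₂ ?_ ?_ ?_; assumption) | (with_reducible refine IntF.comp₃ ?_ ?_ ?_ ?_; assumption) | with_reducible apply IntF.pair)))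
    (by
      have h3 := mem_seg.1 (h1 z hz)
      exact ⟨z, hz, h3.2.1, h3.2.2⟩)
  obtain ⟨h6, h7⟩ := h2 _ _ h3 h4
  have h8 := (mem_seg.1 h6).1
  exact h4 (h.2.1 _ _ h3 (h5 (f x) (h.1 _ _ h3).1 ⟨h8, h7⟩))

theorem emb_of {R R' : IPow N (X × X)} (h : WOr R) (h' : WOr R')
    (hex : ∀ w, (w, w) ∈ R → ∃ y, (y, y) ∈ R' ∧ Emb (seg R w) (seg R' y)) : Emb R R' := by
  have hE := int_Emb (N := N) (X := X)
  have hs := int_seg (N := N) (X := X)
  have hp : Int N (fun q : X × X => Emb (seg R q.1) (seg R' q.2)) := by (repeat' (first | with_reducible exact IntF.id | with_reducible exact IntF.fst' | with_reducible exact IntF.snd' | with_reducible exact IntF.const _ | with_reducible exact Int.const _ | assumption | with_reducible apply Int.and | with_reducible apply Int.or | with_reducible apply Int.not | with_reducible apply Int.imp | with_reducible apply Int.iff | with_reducible apply Int.ne | with_reducible apply Int.eq | with_reducible apply Int.mem | with_reducible apply Int.subset | with_reducible apply Int.ltN | with_reducible apply Int.leN | with_reducible_and_instances apply Int.le | with_reducible_and_instances apply Int.lt | with_reducible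 apply Int.all | with_reducible apply Int.ex | with_reducible apply IntF.fst | with_reducible apply IntF.snd | with_reducible apply IntF.app | with_reducible apply IntF.inl | with_reducible apply IntF.inr | with_reducible_and_instances apply IntF.mul | with_reducible_and_instances apply IntF.inv | with_reducible_and_instances apply IntF.add | with_reducible_and_instances apply IntF.sub | with_reducible_and_instances apply IntF.neg | with_reducible_and_instances apply IntF.smul | with_reducible apply Int.fin | with_reducible apply IntF.sep | with_reducible apply IntF.lam | with_reducible apply IntF.insert | with_reducible apply IntF.singleton | with_reducible apply IntF.union | with_reducible apply IntF.iimage | with_reducible apply IntF.ite | with_reducible apply IntF.the | with_reducible apply IntF.irec | with_reducible apply IntF.succ | with_reducible apply IntF.val | with_reducible apply IntF.mk | (with_reducible refine Int.comp ?_ ?_; assumption) | (with_reducible refine Int.comp₂ ?_ ?_ ?_; assumption) | (with_reducible refine Int.comp₃ ?_ ?_ ?_ ?_; assumption) | (with_reducible refine Int.comp₄ ?_ ?_ ?_ ?_ ?_; assumption) | (with_reducible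 refine IntF.comp ?_ ?_; assumption) | (with_reducible refine IntF.comp₂ ?_ ?_ ?_; assumption) | (with_reducible refine IntF.comp₃ ?_ ?_ ?_ ?_; assumption) | with_reducible apply IntF.pair))
  have hleast : ∀ w, (w, w) ∈ R → ∃! y, (y, y) ∈ R' ∧ Emb (seg R w) (seg R' y) ∧
      ∀ y', (y', y') ∈ R' → Emb (seg R w) (seg R' y') → (y, y') ∈ R' := by
    intro w hw
    obtain ⟨y, h1, h2, h3⟩ := wor_least h' (p := fun y => Emb (seg R w) (seg R' y)) (by (repeat' (first | with_reducible exact IntF.id | with_reducible exact IntF.fst' | with_reducible exact IntF.snd' | with_reducible exact IntF.const _ | with_reducible exact Int.const _ | assumption | with_reducible apply Int.and | with_reducible apply Int.or | with_reducible apply Int.not | with_reducible apply Int.imp | with_reducible apply Int.iff | with_reducible apply Int.ne | with_reducible apply Int.eq | with_reducible apply Int.mem | with_reducible apply Int.subset | with_reducible apply Int.ltN | with_reducible apply Int.leN | with_reducible_and_instances apply Int.le | with_reducible_and_instances apply Int.lt | with_reducible apply Int.all | with_reducible apply Int.ex | with_reducible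 apply IntF.fst | with_reducible apply IntF.snd | with_reducible apply IntF.app | with_reducible apply IntF.inl | with_reducible apply IntF.inr | with_reducible_and_instances apply IntF.mul | with_reducible_and_instances apply IntF.inv | with_reducible_and_instances apply IntF.add | with_reducible_and_instances apply IntF.sub | with_reducible_and_instances apply IntF.neg | with_reducible_and_instances apply IntF.smul | with_reducible apply Int.fin | with_reducible apply IntF.sep | with_reducible apply IntF.lam | with_reducible apply IntF.insert | with_reducible apply IntF.singleton | with_reducible apply IntF.union | with_reducible apply IntF.iimage | with_reducible apply IntF.ite | with_reducible apply IntF.the | with_reducible apply IntF.irec | with_reducible apply IntF.succ | with_reducible apply IntF.val | with_reducible apply IntF.mk | (with_reducible refine Int.comp ?_ ?_; assumption) | (with_reducible refine Int.comp₂ ?_ ?_ ?_; assumption) | (with_reducible refine Int.comp₃ ?_ ?_ ?_ ?_; assumption) | (with_reducible refine Int.comp₄ ?_ ?_ ?_ ?_ ?_; assumption) | (with_reducible refine IntF.comp ?_ ?_; assumption) | (with_reducible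 refine IntF.comp₂ ?_ ?_ ?_; assumption) | (with_reducible refine IntF.comp₃ ?_ ?_ ?_ ?_; assumption) | with_reducible apply IntF.pair)))
      (hex w hw)
    refine ⟨y, ⟨h1, h2, h3⟩, fun y' h4 => ?_⟩
    exact h'.2.1 _ _ (h4.2.2 y h1 h2) (h3 y' h4.1 h4.2.1)
  have hf : IntF N (fun w : X => the (fun y => (y, y) ∈ R' ∧ Emb (seg R w) (seg R' y) ∧
      ∀ y', (y', y') ∈ R' → Emb (seg R w) (seg R' y') → (y, y') ∈ R') w) := by (repeat' (first | with_reducible exact IntF.id | with_reducible exact IntF.fst' | with_reducible exact IntF.snd' | with_reducible exact IntF.const _ | with_reducible exact Int.const _ | assumption | with_reducible apply Int.and | with_reducible apply Int.or | with_reducible apply Int.not | with_reducible apply Int.imp | with_reducible apply Int.iff | with_reducible apply Int.ne | with_reducible apply Int.eq | with_reducible apply Int.mem | with_reducible apply Int.subset | with_reducible apply Int.ltN | with_reducible apply Int.leN | with_reducible_and_instances apply Int.le | with_reducible_and_instances apply Int.lt | with_reducible apply Int.all | with_reducible apply Int.ex | with_reducible apply IntF.fst | with_reducible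 apply IntF.snd | with_reducible apply IntF.app | with_reducible apply IntF.inl | with_reducible apply IntF.inr | with_reducible_and_instances apply IntF.mul | with_reducible_and_instances apply IntF.inv | with_reducible_and_instances apply IntF.add | with_reducible_and_instances apply IntF.sub | with_reducible_and_instances apply IntF.neg | with_reducible_and_instances apply IntF.smul | with_reducible apply Int.fin | with_reducible apply IntF.sep | with_reducible apply IntF.lam | with_reducible apply IntF.insert | with_reducible apply IntF.singleton | with_reducible apply IntF.union | with_reducible apply IntF.iimage | with_reducible apply IntF.ite | with_reducible apply IntF.the | with_reducible apply IntF.irec | with_reducible apply IntF.succ | with_reducible apply IntF.val | with_reducible apply IntF.mk | (with_reducible refine Int.comp ?_ ?_; assumption) | (with_reducible refine Int.comp₂ ?_ ?_ ?_; assumption) | (with_reducible refine Int.comp₃ ?_ ?_ ?_ ?_; assumption) | (with_reducible refine Int.comp₄ ?_ ?_ ?_ ?_ ?_; assumption) | (with_reducible refine IntF.comp ?_ ?_; assumption) | (with_reducible refine IntF.comp₂ ?_ ?_ ?_;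 assumption) | (with_reducible refine IntF.comp₃ ?_ ?_ ?_ ?_; assumption) | with_reducible apply IntF.pair))
  obtain ⟨f, hfd⟩ : ∃ f : IFun N X X, ∀ w, f w = the (fun y => (y, y) ∈ R' ∧
      Emb (seg R w) (seg R' y) ∧
      ∀ y', (y', y') ∈ R' → Emb (seg R w) (seg R' y') → (y, y') ∈ R') w := ⟨⟨_, hf⟩, fun w => rfl⟩
  have hfs : ∀ w, (w, w) ∈ R → (f w, f w) ∈ R' ∧ Emb (seg R w) (seg R' (f w)) ∧
      ∀ y', (y', y') ∈ R' → Emb (seg R w) (seg R' y') → (f w, y') ∈ R' := by
    intro w hw
    rw [hfd w]
    exact the_spec (hleast w hw)
  refine ⟨f, fun w hw => (hfs w hw).1, fun x y hxy hne => ?_⟩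
  obtain ⟨hx, hy⟩ := h.1 _ _ hxy
  obtain ⟨h1, ⟨e, h2, h3⟩, h4⟩ := hfs y hy
  -- the embedding of the segment below `y` maps `x` to a smaller element
  have h5 : (x, x) ∈ seg R y := mem_seg.2 ⟨hx, hxy, hne⟩
  have h6 := mem_seg.1 (h2 x h5)
  have h7 : Emb (seg R x) (seg R' (e x)) := by
    have h8 := emb_seg_seg (wor_seg h y) (wor_seg h' (f y)) h3 x
    rw [seg_seg h hxy hne, seg_seg h' h6.2.1 h6.2.2] at h8
    exact h8
  have h8 := (hfs x hx).2.2 (e x) h6.1 h7
  refine ⟨h'.2.2.1 _ _ _ h8 h6.2.1, fun h9 => h6.2.2 ?_⟩
  rw [h9] at h8
  exact h'.2.1 _ _ h6.2.1 h8

theorem comp_step {R R' : IPow N (X × X)} (h : WOr R) (h' : WOr R')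
    (hst : ∀ w y, (w, w) ∈ R → (y, y) ∈ R' → ¬ Emb (seg R w) (seg R' y) →
      ∃ v, (v, w) ∈ R ∧ ¬ v = w ∧ Emb (seg R' y) (seg R v)) (hn : ¬ Emb R R') :
    ∃ w, (w, w) ∈ R ∧ Emb R' (seg R w) := by
  have h1 : ∃ w, (w, w) ∈ R ∧ ∀ y, (y, y) ∈ R' → ¬ Emb (seg R w) (seg R' y) := by
    by_contra hc
    push Not at hc
    exact hn (emb_of h h' hc)
  obtain ⟨w, hw, h2⟩ := h1
  refine ⟨w, hw, emb_of h' (wor_seg h w) fun y hy => ?_⟩
  obtain ⟨v, h3, h4, h5⟩ := hst w y hw hy (h2 y hy)
  refine ⟨v, mem_seg.2 ⟨(h.1 _ _ h3).1, h3, h4⟩, ?_⟩
  rw [seg_seg h h3 h4]
  exact h5

theorem comp_seg {R R' : IPow N (X × X)} (h : WOr R) (h' : WOr R') (x : X) (hx : (x, x) ∈ R) :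
    ∀ x', (x', x') ∈ R' → ¬ Emb (seg R x) (seg R' x') →
      ∃ v, (v, x) ∈ R ∧ ¬ v = x ∧ Emb (seg R' x') (seg R v) := by
  have hE := int_Emb (N := N) (X := X)
  have hs := int_seg (N := N) (X := X)
  by_contra hc
  obtain ⟨x, hx, h1, h2⟩ := wor_least h (p := fun x => ¬ ∀ x', (x', x') ∈ R' →
    ¬ Emb (seg R x) (seg R' x') → ∃ v, (v, x) ∈ R ∧ ¬ v = x ∧ Emb (seg R' x') (seg R v))
    (by (repeat' (first | with_reducible exact IntF.id | with_reducible exact IntF.fst' | with_reducible exact IntF.snd' | with_reducible exact IntF.const _ | with_reducible exact Int.const _ | assumption | with_reducible apply Int.and | with_reducible apply Int.or | with_reducible apply Int.not | with_reducible apply Int.imp | with_reducible apply Int.iff | with_reducible apply Int.ne | with_reducible apply Int.eq | with_reducible apply Int.mem | with_reducible apply Int.subset | with_reducible apply Int.ltN | with_reducible apply Int.leN | with_reducible_and_instances apply Int.le | with_reducible_and_instances apply Int.lt | with_reducible apply Int.all | with_reducible apply Int.ex | with_reducible apply IntF.fst | with_reducible apply IntF.snd | with_reducible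 apply IntF.app | with_reducible apply IntF.inl | with_reducible apply IntF.inr | with_reducible_and_instances apply IntF.mul | with_reducible_and_instances apply IntF.inv | with_reducible_and_instances apply IntF.add | with_reducible_and_instances apply IntF.sub | with_reducible_and_instances apply IntF.neg | with_reducible_and_instances apply IntF.smul | with_reducible apply Int.fin | with_reducible apply IntF.sep | with_reducible apply IntF.lam | with_reducible apply IntF.insert | with_reducible apply IntF.singleton | with_reducible apply IntF.union | with_reducible apply IntF.iimage | with_reducible apply IntF.ite | with_reducible apply IntF.the | with_reducible apply IntF.irec | with_reducible apply IntF.succ | with_reducible apply IntF.val | with_reducible apply IntF.mk | (with_reducible refine Int.comp ?_ ?_; assumption) | (with_reducible refine Int.comp₂ ?_ ?_ ?_; assumption) | (with_reducible refine Int.comp₃ ?_ ?_ ?_ ?_; assumption) | (with_reducible refine Int.comp₄ ?_ ?_ ?_ ?_ ?_; assumption) | (with_reducible refine IntF.comp ?_ ?_; assumption) | (with_reducible refine IntF.comp₂ ?_ ?_ ?_; assumption) | (with_reducible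 refine IntF.comp₃ ?_ ?_ ?_ ?_; assumption) | with_reducible apply IntF.pair))) ⟨x, hx, hc⟩
  refine h1 fun x' hx' hn => ?_
  obtain ⟨w, hw, h3⟩ := comp_step (wor_seg h x) (wor_seg h' x') (fun w y hw hy hn' => by
    rw [mem_seg] at hw hy
    rw [seg_seg h hw.2.1 hw.2.2, seg_seg h' hy.2.1 hy.2.2] at hn'
    by_contra hc'
    have h4 := h2 w hw.1 (fun h5 => hc' (by
      obtain ⟨v, h6, h7, h8⟩ := h5 y hy.1 hn'
      refine ⟨v, mem_seg.2 ⟨h6, hw.2⟩, h7, ?_⟩
      rw [seg_seg h' hy.2.1 hy.2.2, seg_seg h (h.2.2.1 _ _ _ h6 hw.2.1) (fun h9 => ?_)]
      · exact h8
      · dsimp only at hw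
        subst h9
        exact h7 (h.2.1 _ _ h6 hw.2.1)))
    exact hw.2.2 (h.2.1 _ _ hw.2.1 h4)) hn
  have h4 := mem_seg.1 hw
  rw [seg_seg h h4.2.1 h4.2.2] at h3
  exact ⟨w, h4.2.1, h4.2.2, h3⟩

/-- Comparability. -/
theorem wor_comp {R R' : IPow N (X × X)} (h : WOr R) (h' : WOr R') (hn : ¬ Emb R R') :
    ∃ w, (w, w) ∈ R ∧ Emb R' (seg R w) :=
  comp_step h h' (fun w y hw hy => comp_seg h h' w hw y hy) hn

/-! ### The quotient -/

instance instFactWOr : Fact (Int N (fun R : IPow N (X × X) => WOr R)) := ⟨int_WOr⟩

variable (N X) in
/-- The well-orders of subsets of `X`. -/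
abbrev WOs : Type u := {R : IPow N (X × X) // WOr R}

variable (N X) in
/-- Equivalence of well-orders. -/
def woSetoid : Setoid (WOs N X) where
  r R R' := Emb R.1 R'.1 ∧ Emb R'.1 R.1
  iseqv := ⟨fun R => ⟨emb_refl _, emb_refl _⟩, fun h => ⟨h.2, h.1⟩,
    fun h h' => ⟨emb_trans h.1 h'.1, emb_trans h'.2 h.2⟩⟩

instance instFactWoS : Fact (Int N (fun q : WOs N X × WOs N X => (woSetoid N X).r q.1 q.2)) :=
  ⟨by
    have hE := int_Emb (N := N) (X := X)
    have h : Int N (fun q : WOs N X × WOs N X => Emb q.1.1 q.2.1 ∧ Emb q.2.1 q.1.1) := by (repeat' (first | with_reducible exact IntF.id | with_reducible exact IntF.fst' | with_reducible exact IntF.snd' | with_reducible exact IntF.const _ | with_reducible exact Int.const _ | assumption | with_reducible apply Int.and | with_reducible apply Int.or | with_reducible apply Int.not | with_reducible apply Int.imp | with_reducible apply Int.iff | with_reducible apply Int.ne | with_reducible apply Int.eq | with_reducible apply Int.mem | with_reducible apply Int.subset | with_reducible apply Int.ltN | with_reducible apply Int.leN | with_reducible_and_instances apply Int.le | with_reducible_and_instances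 apply Int.lt | with_reducible apply Int.all | with_reducible apply Int.ex | with_reducible apply IntF.fst | with_reducible apply IntF.snd | with_reducible apply IntF.app | with_reducible apply IntF.inl | with_reducible apply IntF.inr | with_reducible_and_instances apply IntF.mul | with_reducible_and_instances apply IntF.inv | with_reducible_and_instances apply IntF.add | with_reducible_and_instances apply IntF.sub | with_reducible_and_instances apply IntF.neg | with_reducible_and_instances apply IntF.smul | with_reducible apply Int.fin | with_reducible apply IntF.sep | with_reducible apply IntF.lam | with_reducible apply IntF.insert | with_reducible apply IntF.singleton | with_reducible apply IntF.union | with_reducible apply IntF.iimage | with_reducible apply IntF.ite | with_reducible apply IntF.the | with_reducible apply IntF.irec | with_reducible apply IntF.succ | with_reducible apply IntF.val | with_reducible apply IntF.mk | (with_reducible refine Int.comp ?_ ?_; assumption) | (with_reducible refine Int.comp₂ ?_ ?_ ?_; assumption) | (with_reducible refine Int.comp₃ ?_ ?_ ?_ ?_; assumption) | (with_reducible refine Int.comp₄ ?_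 ?_ ?_ ?_ ?_; assumption) | (with_reducible refine IntF.comp ?_ ?_; assumption) | (with_reducible refine IntF.comp₂ ?_ ?_ ?_; assumption) | (with_reducible refine IntF.comp₃ ?_ ?_ ?_ ?_; assumption) | with_reducible apply IntF.pair))
    exact h⟩

variable (N X) in
/-- The Hartogs number. -/
def Hart : Type u := Quotient (woSetoid N X)

noncomputable instance : ITy N (Hart N X) := inferInstanceAs (ITy N (Quotient (woSetoid N X)))

/-- The class of a well-order. -/
def hmk (R : WOs N X) : Hart N X := Quotient.mk (woSetoid N X) R

theorem int_hmk : IntF N (fun R : WOs N X => hmk R) := IntF.qmk' (s := woSetoid N X)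

/-- The order. -/
def hlt (c d : Hart N X) : Prop := ∃ R R' : WOs N X, hmk R = c ∧ hmk R' = d ∧ ¬ Emb R'.1 R.1

theorem int_hlt : Int N (fun q : Hart N X × Hart N X => hlt q.1 q.2) := by
  have hE := int_Emb (N := N) (X := X)
  have hm := int_hmk (N := N) (X := X)
  unfold hlt
  (repeat' (first | with_reducible exact IntF.id | with_reducible exact IntF.fst' | with_reducible exact IntF.snd' | with_reducible exact IntF.const _ | with_reducible exact Int.const _ | assumption | with_reducible apply Int.and | with_reducible apply Int.or | with_reducible apply Int.not | with_reducible apply Int.imp | with_reducible apply Int.iff | with_reducible apply Int.ne | with_reducible apply Int.eq | with_reducible apply Int.mem | with_reducible apply Int.subset | with_reducible apply Int.ltN | with_reducible apply Int.leN | with_reducible_and_instances apply Int.le | with_reducible_and_instances apply Int.lt | with_reducible apply Int.all | with_reducible apply Int.ex | with_reducible apply IntF.fst | with_reducible apply IntF.snd | with_reducible apply IntF.app | with_reducible apply IntF.inl | with_reducible apply IntF.inr | with_reducible_and_instances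 apply IntF.mul | with_reducible_and_instances apply IntF.inv | with_reducible_and_instances apply IntF.add | with_reducible_and_instances apply IntF.sub | with_reducible_and_instances apply IntF.neg | with_reducible_and_instances apply IntF.smul | with_reducible apply Int.fin | with_reducible apply IntF.sep | with_reducible apply IntF.lam | with_reducible apply IntF.insert | with_reducible apply IntF.singleton | with_reducible apply IntF.union | with_reducible apply IntF.iimage | with_reducible apply IntF.ite | with_reducible apply IntF.the | with_reducible apply IntF.irec | with_reducible apply IntF.succ | with_reducible apply IntF.val | with_reducible apply IntF.mk | (with_reducible refine Int.comp ?_ ?_; assumption) | (with_reducible refine Int.comp₂ ?_ ?_ ?_; assumption) | (with_reducible refine Int.comp₃ ?_ ?_ ?_ ?_; assumption) | (with_reducible refine Int.comp₄ ?_ ?_ ?_ ?_ ?_; assumption) | (with_reducible refine IntF.comp ?_ ?_; assumption) | (with_reducible refine IntF.comp₂ ?_ ?_ ?_; assumption) | (with_reducible refine IntF.comp₃ ?_ ?_ ?_ ?_; assumption) | with_reducible apply IntF.pair))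

theorem hlt_mk {R R' : WOs N X} : hlt (hmk R) (hmk R') ↔ ¬ Emb R'.1 R.1 := by
  constructor
  · rintro ⟨S, S', h1, h2, h3⟩ h4
    have h5 : Emb S.1 R.1 ∧ Emb R.1 S.1 := Quotient.exact h1
    have h6 : Emb S'.1 R'.1 ∧ Emb R'.1 S'.1 := Quotient.exact h2
    exact h3 (emb_trans h6.1 (emb_trans h4 h5.2))
  · intro h
    exact ⟨R, R', rfl, rfl, h⟩

theorem hmk_surj (c : Hart N X) : ∃ R, hmk R = c := by
  induction c using Quotient.ind with
  | _ R => exact ⟨R, rfl⟩

theorem iwo_hlt : IWO N (Hart N X) hlt where
  int := int_hlt
  tri := by
    intro c d
    obtain ⟨R, rfl⟩ := hmk_surj c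
    obtain ⟨R', rfl⟩ := hmk_surj d
    by_cases h : Emb R'.1 R.1
    · by_cases h' : Emb R.1 R'.1
      · exact Or.inr (Or.inl (Quotient.sound (s := woSetoid N X) ⟨h', h⟩))
      · exact Or.inr (Or.inr (hlt_mk.2 h'))
    · exact Or.inl (hlt_mk.2 h)
  wf := by
    intro s hs
    have hE := int_Emb (N := N) (X := X)
    have hsg := int_seg (N := N) (X := X)
    have hm := int_hmk (N := N) (X := X)
    obtain ⟨c, hc⟩ := hs
    obtain ⟨R, rfl⟩ := hmk_surj c
    by_cases hz : ∃ z, (z, z) ∈ R.1 ∧ ∃ R' : WOs N X, hmk R' ∈ s ∧ Emb R'.1 (seg R.1 z)
    · obtain ⟨z, hz1, ⟨R', hR', h1⟩, h2⟩ := wor_least R.2 (p := fun z => ∃ R' : WOs N X,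
        hmk R' ∈ s ∧ Emb R'.1 (seg R.1 z)) (by (repeat' (first | with_reducible exact IntF.id | with_reducible exact IntF.fst' | with_reducible exact IntF.snd' | with_reducible exact IntF.const _ | with_reducible exact Int.const _ | assumption | with_reducible apply Int.and | with_reducible apply Int.or | with_reducible apply Int.not | with_reducible apply Int.imp | with_reducible apply Int.iff | with_reducible apply Int.ne | with_reducible apply Int.eq | with_reducible apply Int.mem | with_reducible apply Int.subset | with_reducible apply Int.ltN | with_reducible apply Int.leN | with_reducible_and_instances apply Int.le | with_reducible_and_instances apply Int.lt | with_reducible apply Int.all | with_reducible apply Int.ex | with_reducible apply IntF.fst | with_reducible apply IntF.snd | with_reducible apply IntF.app | with_reducible apply IntF.inl | with_reducible apply IntF.inr | with_reducible_and_instances apply IntF.mul | with_reducible_and_instances apply IntF.inv | with_reducible_and_instances apply IntF.add | with_reducible_and_instances apply IntF.sub | with_reducible_and_instances apply IntF.neg | with_reducible_and_instances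 apply IntF.smul | with_reducible apply Int.fin | with_reducible apply IntF.sep | with_reducible apply IntF.lam | with_reducible apply IntF.insert | with_reducible apply IntF.singleton | with_reducible apply IntF.union | with_reducible apply IntF.iimage | with_reducible apply IntF.ite | with_reducible apply IntF.the | with_reducible apply IntF.irec | with_reducible apply IntF.succ | with_reducible apply IntF.val | with_reducible apply IntF.mk | (with_reducible refine Int.comp ?_ ?_; assumption) | (with_reducible refine Int.comp₂ ?_ ?_ ?_; assumption) | (with_reducible refine Int.comp₃ ?_ ?_ ?_ ?_; assumption) | (with_reducible refine Int.comp₄ ?_ ?_ ?_ ?_ ?_; assumption) | (with_reducible refine IntF.comp ?_ ?_; assumption) | (with_reducible refine IntF.comp₂ ?_ ?_ ?_; assumption) | (with_reducible refine IntF.comp₃ ?_ ?_ ?_ ?_; assumption) | with_reducible apply IntF.pair))) hz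
      refine ⟨hmk R', hR', fun d hd h3 => ?_⟩
      obtain ⟨R'', rfl⟩ := hmk_surj d
      obtain ⟨w, hw, h4⟩ := wor_comp R'.2 R''.2 (hlt_mk.1 h3)
      obtain ⟨e, h5, h6⟩ := h1
      have h7 := mem_seg.1 (h5 w hw)
      have h8 := emb_seg_seg R'.2 (wor_seg R.2 z) h6 w
      rw [seg_seg R.2 h7.2.1 h7.2.2] at h8
      have h9 := h2 (e w) h7.1 ⟨R'', hd, emb_trans h4 h8⟩
      exact h7.2.2 (R.2.2.1 _ _ h7.2.1 h9)
    · refine ⟨hmk R, hc, fun d hd h3 => ?_⟩
      obtain ⟨R', rfl⟩ := hmk_surj d
      obtain ⟨w, hw, h4⟩ := wor_comp R.2 R'.2 (hlt_mk.1 h3)
      exact hz ⟨w, hw, R', hd, h4⟩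

/-- **Hartogs' theorem.** -/
theorem no_inj_hart : ¬ ∃ g : Hart N X → X, IntF N g ∧ Function.Injective g := by
  rintro ⟨g, hg, hinj⟩
  have hlti := int_hlt (N := N) (X := X)
  have hwo := iwo_hlt (N := N) (X := X)
  have hR : Int N (fun q : X × X => ∃ c d : Hart N X, g c = q.1 ∧ g d = q.2 ∧ ¬ hlt d c) := by (repeat' (first | with_reducible exact IntF.id | with_reducible exact IntF.fst' | with_reducible exact IntF.snd' | with_reducible exact IntF.const _ | with_reducible exact Int.const _ | assumption | with_reducible apply Int.and | with_reducible apply Int.or | with_reducible apply Int.not | with_reducible apply Int.imp | with_reducible apply Int.iff | with_reducible apply Int.ne | with_reducible apply Int.eq | with_reducible apply Int.mem | with_reducible apply Int.subset | with_reducible apply Int.ltN | with_reducible apply Int.leN | with_reducible_and_instances apply Int.le | with_reducible_and_instances apply Int.lt | with_reducible apply Int.all | with_reducible apply Int.ex | with_reducible apply IntF.fst | with_reducible apply IntF.snd | with_reducible apply IntF.app | with_reducible apply IntF.inl | with_reducible apply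 IntF.inr | with_reducible_and_instances apply IntF.mul | with_reducible_and_instances apply IntF.inv | with_reducible_and_instances apply IntF.add | with_reducible_and_instances apply IntF.sub | with_reducible_and_instances apply IntF.neg | with_reducible_and_instances apply IntF.smul | with_reducible apply Int.fin | with_reducible apply IntF.sep | with_reducible apply IntF.lam | with_reducible apply IntF.insert | with_reducible apply IntF.singleton | with_reducible apply IntF.union | with_reducible apply IntF.iimage | with_reducible apply IntF.ite | with_reducible apply IntF.the | with_reducible apply IntF.irec | with_reducible apply IntF.succ | with_reducible apply IntF.val | with_reducible apply IntF.mk | (with_reducible refine Int.comp ?_ ?_; assumption) | (with_reducible refine Int.comp₂ ?_ ?_ ?_; assumption) | (with_reducible refine Int.comp₃ ?_ ?_ ?_ ?_; assumption) | (with_reducible refine Int.comp₄ ?_ ?_ ?_ ?_ ?_; assumption) | (with_reducible refine IntF.comp ?_ ?_; assumption) | (with_reducible refine IntF.comp₂ ?_ ?_ ?_; assumption) | (with_reducible refine IntF.comp₃ ?_ ?_ ?_ ?_; assumption) | with_reducible apply IntF.pair))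
  obtain ⟨R, hRd⟩ : ∃ R : IPow N (X × X), ∀ x y, (x, y) ∈ R ↔
      ∃ c d : Hart N X, g c = x ∧ g d = y ∧ ¬ hlt d c := ⟨sep N _, fun x y => mem_sep hR⟩
  have hRg : ∀ c d, (g c, g d) ∈ R ↔ ¬ hlt d c := by
    intro c d
    rw [hRd]
    constructor
    · rintro ⟨c', d', h1, h2, h3⟩
      rwa [hinj h1, hinj h2] at h3
    · intro h
      exact ⟨c, d, rfl, rfl, h⟩
  have hfld : ∀ x, (x, x) ∈ R → ∃ c, g c = x := by
    intro x hx
    obtain ⟨c, d, h1, -⟩ := (hRd x x).1 hx
    exact ⟨c, h1⟩
  have hfld' : ∀ c, (g c, g c) ∈ R := fun c => (hRg c c).2 (iwo_irrefl hwo c)
  have hWR : WOr R := by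
    refine ⟨fun x y hxy => ?_, fun x y hxy hyx => ?_, fun x y z hxy hyz => ?_, fun x y hx hy => ?_,
      fun s hs hsR => ?_⟩
    · obtain ⟨c, d, rfl, rfl, -⟩ := (hRd x y).1 hxy
      exact ⟨hfld' c, hfld' d⟩
    · obtain ⟨c, d, rfl, rfl, h1⟩ := (hRd x y).1 hxy
      have h2 := (hRg d c).1 hyx
      rcases hwo.tri c d with h3 | h3 | h3
      · exact absurd h3 h2
      · rw [h3]
      · exact absurd h3 h1
    · obtain ⟨c, d, rfl, rfl, h1⟩ := (hRd x y).1 hxy
      obtain ⟨d', e, h2, rfl, h3⟩ := (hRd _ z).1 hyz
      obtain rfl := hinj h2
      rw [hRg]
      intro h4
      rcases hwo.tri d' c with h5 | h5 | h5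
      · exact h1 h5
      · exact h3 (h5 ▸ h4)
      · exact h3 (iwo_trans hwo h4 h5)
    · obtain ⟨c, rfl⟩ := hfld x hx
      obtain ⟨d, rfl⟩ := hfld y hy
      rw [hRg, hRg]
      by_contra h1
      push Not at h1
      exact iwo_asymm hwo h1.1 h1.2
    · obtain ⟨x, hx⟩ := hs
      obtain ⟨c, rfl⟩ := hfld x (hsR x hx)
      obtain ⟨c, hc, h1⟩ := iwo_least hwo (p := fun c => g c ∈ s) (by (repeat' (first | with_reducible exact IntF.id | with_reducible exact IntF.fst' | with_reducible exact IntF.snd' | with_reducible exact IntF.const _ | with_reducible exact Int.const _ | assumption | with_reducible apply Int.and | with_reducible apply Int.or | with_reducible apply Int.not | with_reducible apply Int.imp | with_reducible apply Int.iff | with_reducible apply Int.ne | with_reducible apply Int.eq | with_reducible apply Int.mem | with_reducible apply Int.subset | with_reducible apply Int.ltN | with_reducible apply Int.leN | with_reducible_and_instances apply Int.le | with_reducible_and_instances apply Int.lt | with_reducible apply Int.all | with_reducible apply Int.ex | with_reducible apply IntF.fst | with_reducible apply IntF.snd | with_reducible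 apply IntF.app | with_reducible apply IntF.inl | with_reducible apply IntF.inr | with_reducible_and_instances apply IntF.mul | with_reducible_and_instances apply IntF.inv | with_reducible_and_instances apply IntF.add | with_reducible_and_instances apply IntF.sub | with_reducible_and_instances apply IntF.neg | with_reducible_and_instances apply IntF.smul | with_reducible apply Int.fin | with_reducible apply IntF.sep | with_reducible apply IntF.lam | with_reducible apply IntF.insert | with_reducible apply IntF.singleton | with_reducible apply IntF.union | with_reducible apply IntF.iimage | with_reducible apply IntF.ite | with_reducible apply IntF.the | with_reducible apply IntF.irec | with_reducible apply IntF.succ | with_reducible apply IntF.val | with_reducible apply IntF.mk | (with_reducible refine Int.comp ?_ ?_; assumption) | (with_reducible refine Int.comp₂ ?_ ?_ ?_; assumption) | (with_reducible refine Int.comp₃ ?_ ?_ ?_ ?_; assumption) | (with_reducible refine Int.comp₄ ?_ ?_ ?_ ?_ ?_; assumption) | (with_reducible refine IntF.comp ?_ ?_; assumption) | (with_reducible refine IntF.comp₂ ?_ ?_ ?_; assumption) | (with_reducible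 refine IntF.comp₃ ?_ ?_ ?_ ?_; assumption) | with_reducible apply IntF.pair))) ⟨c, hx⟩
      refine ⟨g c, hc, fun y hy => ?_⟩
      obtain ⟨d, rfl⟩ := hfld y (hsR y hy)
      rw [hRg]
      exact h1 d hy
  -- the segments
  obtain ⟨h, hh⟩ : ∃ h : Hart N X → Hart N X, ∀ c, h c = hmk ⟨seg R (g c), wor_seg hWR _⟩ :=
    ⟨fun c => hmk ⟨seg R (g c), wor_seg hWR _⟩, fun c => rfl⟩
  have hhi : IntF N h := by
    have h1 : h = fun c => hmk ⟨seg R (g c), wor_seg hWR _⟩ := funext hh
    rw [h1]
    have hsg := int_seg (N := N) (X := X)
    have hm := int_hmk (N := N) (X := X)
    refine IntF.comp (g := fun R : WOs N X => hmk R) hm ?_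
    refine IntF.mk ?_
    exact IntF.comp₂ (p := fun R z => seg R z) hsg (IntF.const R) hg
  have hinc : ∀ c d, hlt c d → hlt (h c) (h d) := by
    intro c d hcd
    rw [hh, hh, hlt_mk]
    have h1 : (g c, g d) ∈ R := (hRg c d).2 fun h2 => iwo_asymm hwo hcd h2
    have h2 : ¬ g c = g d := fun h3 => iwo_irrefl hwo _ (hinj h3 ▸ hcd)
    have h3 := not_emb_seg (wor_seg hWR (g d)) (z := g c) (mem_seg.2 ⟨hfld' c, h1, h2⟩)
    rw [seg_seg hWR h1 h2] at h3
    exact h3
  obtain ⟨c, h1, h2⟩ := iwo_least hwo (p := fun c => hlt (h c) c) (by (repeat' (first | with_reducible exact IntF.id | with_reducible exact IntF.fst' | with_reducible exact IntF.snd' | with_reducible exact IntF.const _ | with_reducible exact Int.const _ | assumption | with_reducible apply Int.and | with_reducible apply Int.or | with_reducible apply Int.not | with_reducible apply Int.imp | with_reducible apply Int.iff | with_reducible apply Int.ne | with_reducible apply Int.eq | with_reducible apply Int.mem | with_reducible apply Int.subset | with_reducible apply Int.ltN | with_reducible apply Int.leN | with_reducible_and_instances apply Int.le | with_reducible_and_instances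 apply Int.lt | with_reducible apply Int.all | with_reducible apply Int.ex | with_reducible apply IntF.fst | with_reducible apply IntF.snd | with_reducible apply IntF.app | with_reducible apply IntF.inl | with_reducible apply IntF.inr | with_reducible_and_instances apply IntF.mul | with_reducible_and_instances apply IntF.inv | with_reducible_and_instances apply IntF.add | with_reducible_and_instances apply IntF.sub | with_reducible_and_instances apply IntF.neg | with_reducible_and_instances apply IntF.smul | with_reducible apply Int.fin | with_reducible apply IntF.sep | with_reducible apply IntF.lam | with_reducible apply IntF.insert | with_reducible apply IntF.singleton | with_reducible apply IntF.union | with_reducible apply IntF.iimage | with_reducible apply IntF.ite | with_reducible apply IntF.the | with_reducible apply IntF.irec | with_reducible apply IntF.succ | with_reducible apply IntF.val | with_reducible apply IntF.mk | (with_reducible refine Int.comp ?_ ?_; assumption) | (with_reducible refine Int.comp₂ ?_ ?_ ?_; assumption) | (with_reducible refine Int.comp₃ ?_ ?_ ?_ ?_; assumption) | (with_reducible refine Int.comp₄ ?_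 ?_ ?_ ?_ ?_; assumption) | (with_reducible refine IntF.comp ?_ ?_; assumption) | (with_reducible refine IntF.comp₂ ?_ ?_ ?_; assumption) | (with_reducible refine IntF.comp₃ ?_ ?_ ?_ ?_; assumption) | with_reducible apply IntF.pair)))
    ⟨hmk ⟨R, hWR⟩, by
      rw [hh, hlt_mk]
      exact not_emb_seg hWR (hfld' _)⟩
  exact h2 (h c) (hinc _ _ h1) h1

end

end Pool.Agent.Helper672.ZFA.V244
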