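import Pool.Agent.V11244.Zf.Cod

/-!
# Sequences of finite sets
-/

set_option maxHeartbeats 4000000
set_option linter.all false
set_option synthInstance.maxSize 2000

namespace Pool.Agent.Helper672.ZFA.V244

open FirstOrder FirstOrder.Language
open Pool.Agent.H310

universe u

section

variable {N : Type u} [L.Structure N] [hN : IsModel N]
variable {δ α : Type u} [ITy N δ] [ITy N α]

/-- The term uses only the generator `z`. -/
def Bs (z : δ) (t : Tm N δ) : Prop := ∀ y, y ∈ t.1 → y.1 = z

theorem int_Bs (z : δ) : Int N (fun t : Tm N δ => Bs z t) := by
  unfold Bs
  (repeat' (first | with_reducible exact IntF.id | with_reducible exact IntF.fst' | with_reducible exact IntF.snd' | with_reducible exact IntF.const _ | with_reducible exact Int.const _ | assumption | with_reducible apply Int.and | with_reducible apply Int.or | with_reducible apply Int.not | with_reducible apply Int.imp | with_reducible apply Int.iff | with_reducible apply Int.ne | with_reducible apply Int.eq | with_reducible apply Int.mem | with_reducible apply Int.subset | with_reducible apply Int.ltN | with_reducible apply Int.leN | with_reducible_and_instances apply Int.le | with_reducible_and_instances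 apply Int.lt | with_reducible apply Int.all | with_reducible apply Int.ex | with_reducible apply IntF.fst | with_reducible apply IntF.snd | with_reducible apply IntF.app | with_reducible apply IntF.inl | with_reducible apply IntF.inr | with_reducible_and_instances apply IntF.mul | with_reducible_and_instances apply IntF.inv | with_reducible_and_instances apply IntF.add | with_reducible_and_instances apply IntF.sub | with_reducible_and_instances apply IntF.neg | with_reducible_and_instances apply IntF.smul | with_reducible apply Int.fin | with_reducible apply IntF.sep | with_reducible apply IntF.lam | with_reducible apply IntF.insert | with_reducible apply IntF.singleton | with_reducible apply IntF.union | with_reducible apply IntF.iimage | with_reducible apply IntF.ite | with_reducible apply IntF.the | with_reducible apply IntF.irec | with_reducible apply IntF.succ | with_reducible apply IntF.val | with_reducible apply IntF.mk | (with_reducible refine Int.comp ?_ ?_; assumption) | (with_reducible refine Int.comp₂ ?_ ?_ ?_; assumption) | (with_reducible refine Int.comp₃ ?_ ?_ ?_ ?_; assumption) | (with_reducible refine Int.comp₄ ?_ ?_ ?_ ?_ ?_; assumption) | (with_reducible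 refine IntF.comp ?_ ?_; assumption) | (with_reducible refine IntF.comp₂ ?_ ?_ ?_; assumption) | (with_reducible refine IntF.comp₃ ?_ ?_ ?_ ?_; assumption) | with_reducible apply IntF.pair))

/-- The index of the first set that is not covered. -/
noncomputable def fi (T : INat N → IPow N α) (U : IPow N α) : INat N :=
  the (fun n => ¬ T n ⊆ U ∧ ∀ m, ¬ T m ⊆ U → n ≤ m) 0

theorem int_fi {T : INat N → IPow N α} (hT : IntF N T) :
    IntF N (fun U : IPow N α => fi T U) := by
  unfold fi
  (repeat' (first | with_reducible exact IntF.id | with_reducible exact IntF.fst' | with_reducible exact IntF.snd' | with_reducible exact IntF.const _ | with_reducible exact Int.const _ | assumption | with_reducible apply Int.and | with_reducible apply Int.or | with_reducible apply Int.not | with_reducible apply Int.imp | with_reducible apply Int.iff | with_reducible apply Int.ne | with_reducible apply Int.eq | with_reducible apply Int.mem | with_reducible apply Int.subset | with_reducible apply Int.ltN | with_reducible apply Int.leN | with_reducible_and_instances apply Int.le | with_reducible_and_instances apply Int.lt | with_reducible apply Int.all | with_reducible apply Int.ex | with_reducible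 apply IntF.fst | with_reducible apply IntF.snd | with_reducible apply IntF.app | with_reducible apply IntF.inl | with_reducible apply IntF.inr | with_reducible_and_instances apply IntF.mul | with_reducible_and_instances apply IntF.inv | with_reducible_and_instances apply IntF.add | with_reducible_and_instances apply IntF.sub | with_reducible_and_instances apply IntF.neg | with_reducible_and_instances apply IntF.smul | with_reducible apply Int.fin | with_reducible apply IntF.sep | with_reducible apply IntF.lam | with_reducible apply IntF.insert | with_reducible apply IntF.singleton | with_reducible apply IntF.union | with_reducible apply IntF.iimage | with_reducible apply IntF.ite | with_reducible apply IntF.the | with_reducible apply IntF.irec | with_reducible apply IntF.succ | with_reducible apply IntF.val | with_reducible apply IntF.mk | (with_reducible refine Int.comp ?_ ?_; assumption) | (with_reducible refine Int.comp₂ ?_ ?_ ?_; assumption) | (with_reducible refine Int.comp₃ ?_ ?_ ?_ ?_; assumption) | (with_reducible refine Int.comp₄ ?_ ?_ ?_ ?_ ?_; assumption) | (with_reducible refine IntF.comp ?_ ?_; assumption) | (with_reducible refine IntF.comp₂ ?_ ?_ ?_;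 assumption) | (with_reducible refine IntF.comp₃ ?_ ?_ ?_ ?_; assumption) | with_reducible apply IntF.pair))

/-- The value at the terms that use only `z`. -/
noncomputable def BV {τ : Type u} [ITy N τ] (T : INat N → IPow N α)
    (H : IPow N (τ × IPow N α)) : IPow N α := T (fi T (UH H)) \ UH H

/-- The value at the other terms. -/
noncomputable def NW (Γ : IPow N (IPow N α) → IPow N α) (z β : δ)
    (H : IPow N (Tm N δ × IPow N α)) : IPow N α :=
  Γ (Fm (CC z) β H (Dg (CC z) Γ β H)) \ UH H

/-- The top generator. -/
noncomputable def tp (lt : δ → δ → Prop) (z : δ) (t : Tm N δ) : δ := the (Top lt t) z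

open Classical in
/-- The recursion. -/
noncomputable def Ph (lt : δ → δ → Prop) (Γ : IPow N (IPow N α) → IPow N α)
    (T : INat N → IPow N α) (z : δ) (_i : INat N) (t : Tm N δ)
    (H : IPow N (Tm N δ × IPow N α)) : IPow N α :=
  if Bs z t then BV T H else NW Γ z (tp lt z t) H

variable {lt : δ → δ → Prop} (h : IWO N δ lt) {Γ : IPow N (IPow N α) → IPow N α}
  {T : INat N → IPow N α} (z : δ)

include h in
theorem int_Ph (hG : GG Γ) (hT : IntF N T) :
    IntF N (fun q : (INat N × Tm N δ) × IPow N (Tm N δ × IPow N α) =>
      Ph lt Γ T z q.1.1 q.1.2 q.2) := by
  classical
  have h1 := int_Bs (N := N) z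
  have h2 := int_UH (N := N) (α := α) (τ := Tm N δ)
  have h3 := int_fi hT
  have h4 := int_CC (N := N) z
  have h5 := hG.int
  have h6 := int_Fm (N := N) (α := α) h4
  have h7 := int_Dg (N := N) (α := α) h4 h5
  have h8 := int_Top (N := N) h
  have h9 : IntF N (fun t : Tm N δ => tp lt z t) := by
    unfold tp
    (repeat' (first | with_reducible exact IntF.id | with_reducible exact IntF.fst' | with_reducible exact IntF.snd' | with_reducible exact IntF.const _ | with_reducible exact Int.const _ | assumption | with_reducible apply Int.and | with_reducible apply Int.or | with_reducible apply Int.not | with_reducible apply Int.imp | with_reducible apply Int.iff | with_reducible apply Int.ne | with_reducible apply Int.eq | with_reducible apply Int.mem | with_reducible apply Int.subset | with_reducible apply Int.ltN | with_reducible apply Int.leN | with_reducible_and_instances apply Int.le | with_reducible_and_instances apply Int.lt | with_reducible apply Int.all | with_reducible apply Int.ex | with_reducible apply IntF.fst | with_reducible apply IntF.snd | with_reducible apply IntF.app | with_reducible apply IntF.inl | with_reducible apply IntF.inr | with_reducible_and_instances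 apply IntF.mul | with_reducible_and_instances apply IntF.inv | with_reducible_and_instances apply IntF.add | with_reducible_and_instances apply IntF.sub | with_reducible_and_instances apply IntF.neg | with_reducible_and_instances apply IntF.smul | with_reducible apply Int.fin | with_reducible apply IntF.sep | with_reducible apply IntF.lam | with_reducible apply IntF.insert | with_reducible apply IntF.singleton | with_reducible apply IntF.union | with_reducible apply IntF.iimage | with_reducible apply IntF.ite | with_reducible apply IntF.the | with_reducible apply IntF.irec | with_reducible apply IntF.succ | with_reducible apply IntF.val | with_reducible apply IntF.mk | (with_reducible refine Int.comp ?_ ?_; assumption) | (with_reducible refine Int.comp₂ ?_ ?_ ?_; assumption) | (with_reducible refine Int.comp₃ ?_ ?_ ?_ ?_; assumption) | (with_reducible refine Int.comp₄ ?_ ?_ ?_ ?_ ?_; assumption) | (with_reducible refine IntF.comp ?_ ?_; assumption) | (with_reducible refine IntF.comp₂ ?_ ?_ ?_; assumption) | (with_reducible refine IntF.comp₃ ?_ ?_ ?_ ?_; assumption) | with_reducible apply IntF.pair))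
  have h10 : IntF N (fun q : δ × IPow N (Tm N δ × IPow N α) =>
      Fm (CC z) q.1 q.2 (Dg (CC z) Γ q.1 q.2)) :=
    IntF.comp₃ (p := fun β H Y => Fm (CC z) β H Y) h6 IntF.fst' IntF.snd' h7
  have h11 : IntF N (fun q : δ × IPow N (Tm N δ × IPow N α) =>
      Γ (Fm (CC z) q.1 q.2 (Dg (CC z) Γ q.1 q.2)) \ UH q.2) :=
    IntF.sdiff (h5.comp h10) (h2.comp IntF.snd')
  have h12 : IntF N (fun H : IPow N (Tm N δ × IPow N α) => BV T H) := by
    unfold BV
    exact IntF.sdiff (hT.comp (h3.comp h2)) h2
  unfold Ph
  refine IntF.ite (Int.comp h1 (IntF.snd IntF.fst')) (h12.comp IntF.snd') ?_
  exact IntF.comp₂ (p := fun β H => NW Γ z β H) h11 (h9.comp (IntF.snd IntF.fst')) IntF.snd'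

theorem exists_fi (hT : IntF N T) {U : IPow N α} (hex : ∃ n, ¬ T n ⊆ U) : ¬ T (fi T U) ⊆ U := by
  obtain ⟨n, h1, h2⟩ := INat.exists_least (p := fun n => ¬ T n ⊆ U) (by (repeat' (first | with_reducible exact IntF.id | with_reducible exact IntF.fst' | with_reducible exact IntF.snd' | with_reducible exact IntF.const _ | with_reducible exact Int.const _ | assumption | with_reducible apply Int.and | with_reducible apply Int.or | with_reducible apply Int.not | with_reducible apply Int.imp | with_reducible apply Int.iff | with_reducible apply Int.ne | with_reducible apply Int.eq | with_reducible apply Int.mem | with_reducible apply Int.subset | with_reducible apply Int.ltN | with_reducible apply Int.leN | with_reducible_and_instances apply Int.le | with_reducible_and_instances apply Int.lt | with_reducible apply Int.all | with_reducible apply Int.ex | with_reducible apply IntF.fst | with_reducible apply IntF.snd | with_reducible apply IntF.app | with_reducible apply IntF.inl | with_reducible apply IntF.inr | with_reducible_and_instances apply IntF.mul | with_reducible_and_instances apply IntF.inv | with_reducible_and_instances apply IntF.add | with_reducible_and_instances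 apply IntF.sub | with_reducible_and_instances apply IntF.neg | with_reducible_and_instances apply IntF.smul | with_reducible apply Int.fin | with_reducible apply IntF.sep | with_reducible apply IntF.lam | with_reducible apply IntF.insert | with_reducible apply IntF.singleton | with_reducible apply IntF.union | with_reducible apply IntF.iimage | with_reducible apply IntF.ite | with_reducible apply IntF.the | with_reducible apply IntF.irec | with_reducible apply IntF.succ | with_reducible apply IntF.val | with_reducible apply IntF.mk | (with_reducible refine Int.comp ?_ ?_; assumption) | (with_reducible refine Int.comp₂ ?_ ?_ ?_; assumption) | (with_reducible refine Int.comp₃ ?_ ?_ ?_ ?_; assumption) | (with_reducible refine Int.comp₄ ?_ ?_ ?_ ?_ ?_; assumption) | (with_reducible refine IntF.comp ?_ ?_; assumption) | (with_reducible refine IntF.comp₂ ?_ ?_ ?_; assumption) | (with_reducible refine IntF.comp₃ ?_ ?_ ?_ ?_; assumption) | with_reducible apply IntF.pair))) hex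
  have h3 : ∃! n, ¬ T n ⊆ U ∧ ∀ m, ¬ T m ⊆ U → n ≤ m :=
    ⟨n, ⟨h1, h2⟩, fun m hm => le_antisymm (hm.2 n h1) (h2 m hm.1)⟩
  exact (the_spec (d := (0 : INat N)) h3).1

include h in
/-- There are finitely many terms below a term that uses only `z`. -/
theorem fin_below (hz : ∀ ξ, ¬ lt ξ z) {t : Tm N δ} (ht : Bs z t) :
    FinP N (fun s : Tm N δ => ltt lt s t) := by
  have hl := h.int
  have ho := (iwo_ltt (N := N) h).int
  obtain ⟨B, hB⟩ := FinP.bound' (p := fun y : δ × INat N => y ∈ t.1) ⟨t.1, t.2, fun _ h => h⟩
    (v := fun y => y.2) IntF.snd'
  have hf : IntF N (fun n : INat N => (z, n)) := by (repeat' (first | with_reducible exact IntF.id | with_reducible exact IntF.fst' | with_reducible exact IntF.snd' | with_reducible exact IntF.const _ | with_reducible exact Int.const _ | assumption | with_reducible apply Int.and | with_reducible apply Int.or | with_reducible apply Int.not | with_reducible apply Int.imp | with_reducible apply Int.iff | with_reducible apply Int.ne | with_reducible apply Int.eq | with_reducible apply Int.mem | with_reducible apply Int.subset | with_reducible apply Int.ltN | with_reducible apply Int.leN | with_reducible_and_instances apply Int.le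 | with_reducible_and_instances apply Int.lt | with_reducible apply Int.all | with_reducible apply Int.ex | with_reducible apply IntF.fst | with_reducible apply IntF.snd | with_reducible apply IntF.app | with_reducible apply IntF.inl | with_reducible apply IntF.inr | with_reducible_and_instances apply IntF.mul | with_reducible_and_instances apply IntF.inv | with_reducible_and_instances apply IntF.add | with_reducible_and_instances apply IntF.sub | with_reducible_and_instances apply IntF.neg | with_reducible_and_instances apply IntF.smul | with_reducible apply Int.fin | with_reducible apply IntF.sep | with_reducible apply IntF.lam | with_reducible apply IntF.insert | with_reducible apply IntF.singleton | with_reducible apply IntF.union | with_reducible apply IntF.iimage | with_reducible apply IntF.ite | with_reducible apply IntF.the | with_reducible apply IntF.irec | with_reducible apply IntF.succ | with_reducible apply IntF.val | with_reducible apply IntF.mk | (with_reducible refine Int.comp ?_ ?_; assumption) | (with_reducible refine Int.comp₂ ?_ ?_ ?_; assumption) | (with_reducible refine Int.comp₃ ?_ ?_ ?_ ?_; assumption) | (with_reducible refine Int.comp₄ ?_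 ?_ ?_ ?_ ?_; assumption) | (with_reducible refine IntF.comp ?_ ?_; assumption) | (with_reducible refine IntF.comp₂ ?_ ?_ ?_; assumption) | (with_reducible refine IntF.comp₃ ?_ ?_ ?_ ?_; assumption) | with_reducible apply IntF.pair))
  have hE : IFin (iimage (fun n : INat N => (z, n)) (sep N fun n : INat N => n ≤ B)) :=
    IFin.image ((finP_le B).fin (by (repeat' (first | with_reducible exact IntF.id | with_reducible exact IntF.fst' | with_reducible exact IntF.snd' | with_reducible exact IntF.const _ | with_reducible exact Int.const _ | assumption | with_reducible apply Int.and | with_reducible apply Int.or | with_reducible apply Int.not | with_reducible apply Int.imp | with_reducible apply Int.iff | with_reducible apply Int.ne | with_reducible apply Int.eq | with_reducible apply Int.mem | with_reducible apply Int.subset | with_reducible apply Int.ltN | with_reducible apply Int.leN | with_reducible_and_instances apply Int.le | with_reducible_and_instances apply Int.lt | with_reducible apply Int.all | with_reducible apply Int.ex | with_reducible apply IntF.fst | with_reducible apply IntF.snd | with_reducible apply IntF.app | with_reducible apply IntF.inl | with_reducible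 apply IntF.inr | with_reducible_and_instances apply IntF.mul | with_reducible_and_instances apply IntF.inv | with_reducible_and_instances apply IntF.add | with_reducible_and_instances apply IntF.sub | with_reducible_and_instances apply IntF.neg | with_reducible_and_instances apply IntF.smul | with_reducible apply Int.fin | with_reducible apply IntF.sep | with_reducible apply IntF.lam | with_reducible apply IntF.insert | with_reducible apply IntF.singleton | with_reducible apply IntF.union | with_reducible apply IntF.iimage | with_reducible apply IntF.ite | with_reducible apply IntF.the | with_reducible apply IntF.irec | with_reducible apply IntF.succ | with_reducible apply IntF.val | with_reducible apply IntF.mk | (with_reducible refine Int.comp ?_ ?_; assumption) | (with_reducible refine Int.comp₂ ?_ ?_ ?_; assumption) | (with_reducible refine Int.comp₃ ?_ ?_ ?_ ?_; assumption) | (with_reducible refine Int.comp₄ ?_ ?_ ?_ ?_ ?_; assumption) | (with_reducible refine IntF.comp ?_ ?_; assumption) | (with_reducible refine IntF.comp₂ ?_ ?_ ?_; assumption) | (with_reducible refine IntF.comp₃ ?_ ?_ ?_ ?_; assumption) | with_reducible apply IntF.pair)))) hf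
  refine FinP.of_inj (f := fun s : Tm N δ => s.1) (by (repeat' (first | with_reducible exact IntF.id | with_reducible exact IntF.fst' | with_reducible exact IntF.snd' | with_reducible exact IntF.const _ | with_reducible exact Int.const _ | assumption | with_reducible apply Int.and | with_reducible apply Int.or | with_reducible apply Int.not | with_reducible apply Int.imp | with_reducible apply Int.iff | with_reducible apply Int.ne | with_reducible apply Int.eq | with_reducible apply Int.mem | with_reducible apply Int.subset | with_reducible apply Int.ltN | with_reducible apply Int.leN | with_reducible_and_instances apply Int.le | with_reducible_and_instances apply Int.lt | with_reducible apply Int.all | with_reducible apply Int.ex | with_reducible apply IntF.fst | with_reducible apply IntF.snd | with_reducible apply IntF.app | with_reducible apply IntF.inl | with_reducible apply IntF.inr | with_reducible_and_instances apply IntF.mul | with_reducible_and_instances apply IntF.inv | with_reducible_and_instances apply IntF.add | with_reducible_and_instances apply IntF.sub | with_reducible_and_instances apply IntF.neg | with_reducible_and_instances apply IntF.smul |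 with_reducible apply Int.fin | with_reducible apply IntF.sep | with_reducible apply IntF.lam | with_reducible apply IntF.insert | with_reducible apply IntF.singleton | with_reducible apply IntF.union | with_reducible apply IntF.iimage | with_reducible apply IntF.ite | with_reducible apply IntF.the | with_reducible apply IntF.irec | with_reducible apply IntF.succ | with_reducible apply IntF.val | with_reducible apply IntF.mk | (with_reducible refine Int.comp ?_ ?_; assumption) | (with_reducible refine Int.comp₂ ?_ ?_ ?_; assumption) | (with_reducible refine Int.comp₃ ?_ ?_ ?_ ?_; assumption) | (with_reducible refine Int.comp₄ ?_ ?_ ?_ ?_ ?_; assumption) | (with_reducible refine IntF.comp ?_ ?_; assumption) | (with_reducible refine IntF.comp₂ ?_ ?_ ?_; assumption) | (with_reducible refine IntF.comp₃ ?_ ?_ ?_ ?_; assumption) | with_reducible apply IntF.pair))) (by (repeat' (first | with_reducible exact IntF.id | with_reducible exact IntF.fst' | with_reducible exact IntF.snd' | with_reducible exact IntF.const _ | with_reducible exact Int.const _ | assumption | with_reducible apply Int.and | with_reducible apply Int.or | with_reducible apply Int.not | with_reducible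 apply Int.imp | with_reducible apply Int.iff | with_reducible apply Int.ne | with_reducible apply Int.eq | with_reducible apply Int.mem | with_reducible apply Int.subset | with_reducible apply Int.ltN | with_reducible apply Int.leN | with_reducible_and_instances apply Int.le | with_reducible_and_instances apply Int.lt | with_reducible apply Int.all | with_reducible apply Int.ex | with_reducible apply IntF.fst | with_reducible apply IntF.snd | with_reducible apply IntF.app | with_reducible apply IntF.inl | with_reducible apply IntF.inr | with_reducible_and_instances apply IntF.mul | with_reducible_and_instances apply IntF.inv | with_reducible_and_instances apply IntF.add | with_reducible_and_instances apply IntF.sub | with_reducible_and_instances apply IntF.neg | with_reducible_and_instances apply IntF.smul | with_reducible apply Int.fin | with_reducible apply IntF.sep | with_reducible apply IntF.lam | with_reducible apply IntF.insert | with_reducible apply IntF.singleton | with_reducible apply IntF.union | with_reducible apply IntF.iimage | with_reducible apply IntF.ite | with_reducible apply IntF.the | with_reducible apply IntF.irec | with_reducible apply IntF.succ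 | with_reducible apply IntF.val | with_reducible apply IntF.mk | (with_reducible refine Int.comp ?_ ?_; assumption) | (with_reducible refine Int.comp₂ ?_ ?_ ?_; assumption) | (with_reducible refine Int.comp₃ ?_ ?_ ?_ ?_; assumption) | (with_reducible refine Int.comp₄ ?_ ?_ ?_ ?_ ?_; assumption) | (with_reducible refine IntF.comp ?_ ?_; assumption) | (with_reducible refine IntF.comp₂ ?_ ?_ ?_; assumption) | (with_reducible refine IntF.comp₃ ?_ ?_ ?_ ?_; assumption) | with_reducible apply IntF.pair)))
    (fun s s' _ _ h1 => Subtype.ext h1)
    (q := fun s => s ⊆ iimage (fun n : INat N => (z, n)) (sep N fun n : INat N => n ≤ B))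
    ⟨_, hE.pow, fun s hs => mem_ipow.2 hs⟩ fun s hs => ?_
  intro y hy
  obtain ⟨m, hm, hm', h1⟩ := hs
  have h2 : Top lt t z := ⟨⟨m.2, by
    have := ht m hm
    rw [← this]
    exact hm⟩, fun y' hy' => by rw [ht y' hy']; exact iwo_irrefl h z⟩
  have h3 : y.1 = z := by
    rcases h.tri y.1 z with h4 | h4 | h4
    · exact absurd h4 (hz _)
    · exact h4
    · exact absurd h4 (lower h h2 ⟨m, hm, hm', h1⟩ hy)
  refine (mem_iimage hf).2 ⟨y.2, (mem_sep (by (repeat' (first | with_reducible exact IntF.id | with_reducible exact IntF.fst' | with_reducible exact IntF.snd' | with_reducible exact IntF.const _ | with_reducible exact Int.const _ | assumption | with_reducible apply Int.and | with_reducible apply Int.or | with_reducible apply Int.not | with_reducible apply Int.imp | with_reducible apply Int.iff | with_reducible apply Int.ne | with_reducible apply Int.eq | with_reducible apply Int.mem | with_reducible apply Int.subset | with_reducible apply Int.ltN | with_reducible apply Int.leN | with_reducible_and_instances apply Int.le | with_reducible_and_instances apply Int.lt | with_reducible apply Int.all | with_reducible apply Int.ex | with_reducible apply IntF.fst | with_reducible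 apply IntF.snd | with_reducible apply IntF.app | with_reducible apply IntF.inl | with_reducible apply IntF.inr | with_reducible_and_instances apply IntF.mul | with_reducible_and_instances apply IntF.inv | with_reducible_and_instances apply IntF.add | with_reducible_and_instances apply IntF.sub | with_reducible_and_instances apply IntF.neg | with_reducible_and_instances apply IntF.smul | with_reducible apply Int.fin | with_reducible apply IntF.sep | with_reducible apply IntF.lam | with_reducible apply IntF.insert | with_reducible apply IntF.singleton | with_reducible apply IntF.union | with_reducible apply IntF.iimage | with_reducible apply IntF.ite | with_reducible apply IntF.the | with_reducible apply IntF.irec | with_reducible apply IntF.succ | with_reducible apply IntF.val | with_reducible apply IntF.mk | (with_reducible refine Int.comp ?_ ?_; assumption) | (with_reducible refine Int.comp₂ ?_ ?_ ?_; assumption) | (with_reducible refine Int.comp₃ ?_ ?_ ?_ ?_; assumption) | (with_reducible refine Int.comp₄ ?_ ?_ ?_ ?_ ?_; assumption) | (with_reducible refine IntF.comp ?_ ?_; assumption) | (with_reducible refine IntF.comp₂ ?_ ?_ ?_; assumption) | (with_reducible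 refine IntF.comp₃ ?_ ?_ ?_ ?_; assumption) | with_reducible apply IntF.pair)))).2 ?_, Prod.ext h3.symm rfl⟩
  by_contra h4
  rw [not_le] at h4
  have h5 : y ∈ t.1 := by
    refine (h1 y (Or.inr ⟨?_, ?_⟩)).1 hy
    · rw [h3, ht m hm]
    · exact (hB m hm).trans_lt h4
  exact absurd (hB y h5) (not_le.2 h4)

variable (lt Γ T) in
/-- The values. -/
noncomputable def vl (t : Tm N δ) : IPow N α := rcf (ltt lt) (Ph lt Γ T z) ∅ 0 t

include h in
theorem int_vl (hG : GG Γ) (hT : IntF N T) : IntF N (fun t : Tm N δ => vl lt Γ T z t) := by
  have h1 := int_rcf (iwo_ltt (N := N) h) (int_Ph (N := N) h z hG hT) ∅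
  unfold vl
  exact IntF.comp₂ (p := fun i t => rcf (ltt lt) (Ph lt Γ T z) ∅ i t) h1 (IntF.const 0) IntF.id

variable (lt Γ T) in
/-- The history. -/
noncomputable def hs (t : Tm N δ) : IPow N (Tm N δ × IPow N α) :=
  sep N fun q => ltt lt q.1 t ∧ vl lt Γ T z q.1 = q.2

include h in
theorem mem_hs (hG : GG Γ) (hT : IntF N T) {t s : Tm N δ} {S : IPow N α} :
    (s, S) ∈ hs lt Γ T z t ↔ ltt lt s t ∧ vl lt Γ T z s = S := by
  have h1 := int_vl h z hG hT
  have h2 := (iwo_ltt (N := N) h).int
  unfold hs
  exact mem_sep (by (repeat' (first | with_reducible exact IntF.id | with_reducible exact IntF.fst' | with_reducible exact IntF.snd' | with_reducible exact IntF.const _ | with_reducible exact Int.const _ | assumption | with_reducible apply Int.and | with_reducible apply Int.or | with_reducible apply Int.not | with_reducible apply Int.imp | with_reducible apply Int.iff | with_reducible apply Int.ne | with_reducible apply Int.eq | with_reducible apply Int.mem | with_reducible apply Int.subset | with_reducible apply Int.ltN | with_reducible apply Int.leN | with_reducible_and_instances apply Int.le | with_reducible_and_instances apply Int.lt | with_reducible apply Int.all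 | with_reducible apply Int.ex | with_reducible apply IntF.fst | with_reducible apply IntF.snd | with_reducible apply IntF.app | with_reducible apply IntF.inl | with_reducible apply IntF.inr | with_reducible_and_instances apply IntF.mul | with_reducible_and_instances apply IntF.inv | with_reducible_and_instances apply IntF.add | with_reducible_and_instances apply IntF.sub | with_reducible_and_instances apply IntF.neg | with_reducible_and_instances apply IntF.smul | with_reducible apply Int.fin | with_reducible apply IntF.sep | with_reducible apply IntF.lam | with_reducible apply IntF.insert | with_reducible apply IntF.singleton | with_reducible apply IntF.union | with_reducible apply IntF.iimage | with_reducible apply IntF.ite | with_reducible apply IntF.the | with_reducible apply IntF.irec | with_reducible apply IntF.succ | with_reducible apply IntF.val | with_reducible apply IntF.mk | (with_reducible refine Int.comp ?_ ?_; assumption) | (with_reducible refine Int.comp₂ ?_ ?_ ?_; assumption) | (with_reducible refine Int.comp₃ ?_ ?_ ?_ ?_; assumption) | (with_reducible refine Int.comp₄ ?_ ?_ ?_ ?_ ?_; assumption) | (with_reducible refine IntF.comp ?_ ?_; assumption)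 | (with_reducible refine IntF.comp₂ ?_ ?_ ?_; assumption) | (with_reducible refine IntF.comp₃ ?_ ?_ ?_ ?_; assumption) | with_reducible apply IntF.pair)))

include h in
theorem vl_eq (hG : GG Γ) (hT : IntF N T) (t : Tm N δ) :
    vl lt Γ T z t = Ph lt Γ T z 0 t (hs lt Γ T z t) :=
  rcf_spec (iwo_ltt (N := N) h) (int_Ph (N := N) h z hG hT) ∅ 0 t

variable (lt Γ T) in
/-- The induction hypothesis. -/
def Gd' (t : Tm N δ) : Prop :=
  IFin (vl lt Γ T z t) ∧ (∃ a, a ∈ vl lt Γ T z t) ∧
    ∀ s, ltt lt s t → ∀ a, a ∈ vl lt Γ T z t → ¬ a ∈ vl lt Γ T z s

include h in
theorem gd_all (hz : ∀ ξ, ¬ lt ξ z) (hG : GG Γ) (hT : IntF N T) (hfin : ∀ n, IFin (T n))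
    (hinf : ¬ FinP N (fun a => ∃ n, a ∈ T n)) (t : Tm N δ) : Gd' lt Γ T z t := by
  classical
  have hv := int_vl h z hG hT
  have ho := iwo_ltt (N := N) h
  have hoi := ho.int
  refine iwo_ind ho (p := fun t => Gd' lt Γ T z t) ?_ (fun t ih => ?_) t
  · unfold Gd'
    (repeat' (first | with_reducible exact IntF.id | with_reducible exact IntF.fst' | with_reducible exact IntF.snd' | with_reducible exact IntF.const _ | with_reducible exact Int.const _ | assumption | with_reducible apply Int.and | with_reducible apply Int.or | with_reducible apply Int.not | with_reducible apply Int.imp | with_reducible apply Int.iff | with_reducible apply Int.ne | with_reducible apply Int.eq | with_reducible apply Int.mem | with_reducible apply Int.subset | with_reducible apply Int.ltN | with_reducible apply Int.leN | with_reducible_and_instances apply Int.le | with_reducible_and_instances apply Int.lt | with_reducible apply Int.all | with_reducible apply Int.ex | with_reducible apply IntF.fst | with_reducible apply IntF.snd | with_reducible apply IntF.app | with_reducible apply IntF.inl | with_reducible apply IntF.inr | with_reducible_and_instances apply IntF.mul | with_reducible_and_instances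 apply IntF.inv | with_reducible_and_instances apply IntF.add | with_reducible_and_instances apply IntF.sub | with_reducible_and_instances apply IntF.neg | with_reducible_and_instances apply IntF.smul | with_reducible apply Int.fin | with_reducible apply IntF.sep | with_reducible apply IntF.lam | with_reducible apply IntF.insert | with_reducible apply IntF.singleton | with_reducible apply IntF.union | with_reducible apply IntF.iimage | with_reducible apply IntF.ite | with_reducible apply IntF.the | with_reducible apply IntF.irec | with_reducible apply IntF.succ | with_reducible apply IntF.val | with_reducible apply IntF.mk | (with_reducible refine Int.comp ?_ ?_; assumption) | (with_reducible refine Int.comp₂ ?_ ?_ ?_; assumption) | (with_reducible refine Int.comp₃ ?_ ?_ ?_ ?_; assumption) | (with_reducible refine Int.comp₄ ?_ ?_ ?_ ?_ ?_; assumption) | (with_reducible refine IntF.comp ?_ ?_; assumption) | (with_reducible refine IntF.comp₂ ?_ ?_ ?_; assumption) | (with_reducible refine IntF.comp₃ ?_ ?_ ?_ ?_; assumption) | with_reducible apply IntF.pair))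
  have hUH : ∀ a, a ∈ UH (hs lt Γ T z t) ↔ ∃ s, ltt lt s t ∧ a ∈ vl lt Γ T z s := by
    intro a
    rw [mem_UH]
    constructor
    · rintro ⟨s, S, h1, h2⟩
      obtain ⟨h3, h4⟩ := (mem_hs h z hG hT).1 h1
      exact ⟨s, h3, h4.symm ▸ h2⟩
    · rintro ⟨s, h1, h2⟩
      exact ⟨s, _, (mem_hs h z hG hT).2 ⟨h1, rfl⟩, h2⟩
  have hval := vl_eq h z hG hT t
  unfold Ph at hval
  by_cases hb : Bs z t
  · rw [if_pos hb] at hval
    have hfU : IFin (UH (hs lt Γ T z t)) := by
      have h1 := fin_below h z hz hb
      have hbi : Int N (fun s => ltt lt s t) := by (repeat' (first | with_reducible exact IntF.id | with_reducible exact IntF.fst' | with_reducible exact IntF.snd' | with_reducible exact IntF.const _ | with_reducible exact Int.const _ | assumption | with_reducible apply Int.and | with_reducible apply Int.or | with_reducible apply Int.not | with_reducible apply Int.imp | with_reducible apply Int.iff | with_reducible apply Int.ne | with_reducible apply Int.eq | with_reducible apply Int.mem | with_reducible apply Int.subset | with_reducible apply Int.ltN | with_reducible apply Int.leN | with_reducible_and_instances apply Int.le | with_reducible_and_instances apply Int.lt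 | with_reducible apply Int.all | with_reducible apply Int.ex | with_reducible apply IntF.fst | with_reducible apply IntF.snd | with_reducible apply IntF.app | with_reducible apply IntF.inl | with_reducible apply IntF.inr | with_reducible_and_instances apply IntF.mul | with_reducible_and_instances apply IntF.inv | with_reducible_and_instances apply IntF.add | with_reducible_and_instances apply IntF.sub | with_reducible_and_instances apply IntF.neg | with_reducible_and_instances apply IntF.smul | with_reducible apply Int.fin | with_reducible apply IntF.sep | with_reducible apply IntF.lam | with_reducible apply IntF.insert | with_reducible apply IntF.singleton | with_reducible apply IntF.union | with_reducible apply IntF.iimage | with_reducible apply IntF.ite | with_reducible apply IntF.the | with_reducible apply IntF.irec | with_reducible apply IntF.succ | with_reducible apply IntF.val | with_reducible apply IntF.mk | (with_reducible refine Int.comp ?_ ?_; assumption) | (with_reducible refine Int.comp₂ ?_ ?_ ?_; assumption) | (with_reducible refine Int.comp₃ ?_ ?_ ?_ ?_; assumption) | (with_reducible refine Int.comp₄ ?_ ?_ ?_ ?_ ?_; assumption) | (with_reducible refine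 IntF.comp ?_ ?_; assumption) | (with_reducible refine IntF.comp₂ ?_ ?_ ?_; assumption) | (with_reducible refine IntF.comp₃ ?_ ?_ ?_ ?_; assumption) | with_reducible apply IntF.pair))
      have h2 : IFin (isUnion (iimage (fun s => vl lt Γ T z s) (sep N fun s => ltt lt s t))) := by
        refine IFin.isUnion (IFin.image (h1.fin hbi) hv) fun S hS => ?_
        obtain ⟨s, hs, rfl⟩ := (mem_iimage hv).1 hS
        exact (ih s ((mem_sep hbi).1 hs)).1
      refine h2.subset fun a ha => ?_
      obtain ⟨s, h3, h4⟩ := (hUH a).1 ha
      exact mem_isUnion.2 ⟨_, (mem_iimage hv).2 ⟨s, (mem_sep hbi).2 h3, rfl⟩, h4⟩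
    have hex : ∃ n, ¬ T n ⊆ UH (hs lt Γ T z t) := by
      by_contra hcon
      push Not at hcon
      exact hinf ⟨_, hfU, fun a ⟨n, hn⟩ => hcon n a hn⟩
    have h1 := exists_fi hT hex
    unfold BV at hval
    refine ⟨?_, ?_, fun s hs a ha ha' => ?_⟩
    · rw [hval]
      exact (hfin _).subset fun a ha => (mem_sdiff.1 ha).1
    · by_contra hcon
      push Not at hcon
      refine h1 fun a ha => ?_
      by_contra h2
      exact hcon a (hval.symm ▸ mem_sdiff.2 ⟨ha, h2⟩)
    · rw [hval, mem_sdiff] at ha
      exact ha.2 ((hUH a).2 ⟨s, hs, ha'⟩)
  · rw [if_neg hb] at hval
    have hb' := hb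
    unfold Bs at hb'
    push Not at hb'
    obtain ⟨y₀, hy₀, hy₀z⟩ := hb'
    obtain ⟨β, hβ⟩ := exists_Top h ⟨y₀, hy₀⟩
    have htp : tp lt z t = β := the_eq ⟨β, hβ, fun β' h1 => Top.unique h h1 hβ⟩ hβ
    have hzβ : lt z β := by
      rcases h.tri z β with h1 | h1 | h1
      · exact h1
      · exfalso
        rcases h.tri z y₀.1 with h2 | h2 | h2
        · exact hβ.2 y₀ hy₀ (h1 ▸ h2)
        · exact hy₀z h2.symm
        · exact hz _ h2
      · exact absurd h1 (hz _)
    rw [htp] at hval
    have hIx : ∀ s, Ix (hs lt Γ T z t) s ↔ ltt lt s t := by
      intro s
      constructor
      · rintro ⟨S, hS⟩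
        exact ((mem_hs h z hG hT).1 hS).1
      · intro h1
        exact ⟨_, (mem_hs h z hG hT).2 ⟨h1, rfl⟩⟩
    have hD : DG (CC z) β (hs lt Γ T z t) := by
      refine ⟨fun s S S' h1 h2 => ?_, fun s S h1 => ?_, fun s s' S S' a h1 h2 h3 h4 => ?_,
        fun s₁ s₂ s₃ k h1 h2 h3 => ?_, fun s₁ s₂ s₃ k s₁' s₂' s₃' k' _ _ _ _ _ _ h1 => ?_⟩
      · rw [← ((mem_hs h z hG hT).1 h1).2, ← ((mem_hs h z hG hT).1 h2).2]
      · obtain ⟨h2, rfl⟩ := (mem_hs h z hG hT).1 h1
        exact ⟨(ih s h2).1, (ih s h2).2.1⟩
      · obtain ⟨h5, rfl⟩ := (mem_hs h z hG hT).1 h1
        obtain ⟨h6, rfl⟩ := (mem_hs h z hG hT).1 h2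
        rcases ho.tri s s' with h7 | h7 | h7
        · exact absurd h3 ((ih s' h6).2.2 s h7 a h4)
        · exact h7
        · exact absurd h4 ((ih s h5).2.2 s' h7 a h3)
      · rw [hIx] at h1 h2 h3 ⊢
        refine upper h hβ fun y hy => ?_
        rcases fst_cs (N := N) hy with h4 | ⟨h4, n, h5⟩
        · rw [h4]
          exact hzβ
        · have h6 : ¬ lt β y.1 := by
            rcases h5 with h5 | h5 | h5
            · exact lower h hβ h1 (y := (y.1, n)) h5
            · exact lower h hβ h2 (y := (y.1, n)) h5
            · exact lower h hβ h3 (y := (y.1, n)) h5
          rcases h.tri y.1 β with h7 | h7 | h7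
          · exact h7
          · exact absurd h7 h4
          · exact absurd h7 h6
      · obtain ⟨h2, h3, h4, h5⟩ := cs_inj (congrArg Subtype.val h1)
        exact ⟨Subtype.ext h2, Subtype.ext h3, Subtype.ext h4, h5⟩
    have hCi := int_CC (N := N) z
    obtain ⟨a, ha, ha'⟩ := hD.diag hG hCi
    have hY : ∀ x, x ∈ Dg (CC z) Γ β (hs lt Γ T z t) → Ix (hs lt Γ T z t) x := by
      intro x hx
      obtain ⟨s, m, k, h1, h2, h3, -, -, -, rfl⟩ := (mem_Dg hCi hG.int).1 hx
      exact hD.cl _ _ _ _ h1 h2 h3
    obtain ⟨x, y, w, h1⟩ := hG.three _ (hD.dfam hCi hY)
    unfold NW at hval
    refine ⟨?_, ⟨a, hval.symm ▸ mem_sdiff.2 ⟨ha, ha'⟩⟩, fun s hs a ha ha' => ?_⟩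
    · rw [hval]
      refine (((IFin.singleton w).insert y).insert x).subset fun a ha => ?_
      rw [mem_insert, mem_insert, mem_singleton]
      exact (h1 a).1 (mem_sdiff.1 ha).1
    · rw [hval, mem_sdiff] at ha
      exact ha.2 ((hUH a).2 ⟨s, hs, ha'⟩)

end

section

variable {N : Type u} [L.Structure N] [hN : IsModel N]
variable {α : Type u} [ITy N α]

/-- **Main theorem.** If there is a function as in `GG`, then every sequence of finite sets has a
finite union. -/
theorem fin_seq {Γ : IPow N (IPow N α) → IPow N α} (hG : GG Γ) {T : INat N → IPow N α}
    (hT : IntF N T) (hfin : ∀ n, IFin (T n)) : FinP N (fun a => ∃ n, a ∈ T n) := by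
  by_contra hinf
  have h := iwo_hlt (N := N) (X := IPow N α)
  have hne : Nonempty (Hart N (IPow N α)) := by
    by_contra hc
    rw [not_nonempty_iff] at hc
    refine no_inj_hart (N := N) (X := IPow N α) ⟨fun _ => ∅, IntF.const _, fun a => ?_⟩
    exact (hc.false a).elim
  obtain ⟨z, -, hz⟩ := iwo_least h (p := fun _ => True) (Int.const _) ⟨hne.some, trivial⟩
  have hz' : ∀ ξ, ¬ hlt ξ z := fun ξ => hz ξ trivial
  have hgd := gd_all h z hz' hG hT hfin hinf
  have hv := int_vl h z hG hT
  have hs : IntF N (fun ξ : Hart N (IPow N α) =>
      (⟨{(ξ, (0 : INat N))}, IFin.singleton _⟩ : Tm N (Hart N (IPow N α)))) := by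
    refine IntF.mk ?_
    change IntF N (fun ξ : Hart N (IPow N α) => ({(ξ, (0 : INat N))} : IPow N _))
    (repeat' (first | with_reducible exact IntF.id | with_reducible exact IntF.fst' | with_reducible exact IntF.snd' | with_reducible exact IntF.const _ | with_reducible exact Int.const _ | assumption | with_reducible apply Int.and | with_reducible apply Int.or | with_reducible apply Int.not | with_reducible apply Int.imp | with_reducible apply Int.iff | with_reducible apply Int.ne | with_reducible apply Int.eq | with_reducible apply Int.mem | with_reducible apply Int.subset | with_reducible apply Int.ltN | with_reducible apply Int.leN | with_reducible_and_instances apply Int.le | with_reducible_and_instances apply Int.lt | with_reducible apply Int.all | with_reducible apply Int.ex | with_reducible apply IntF.fst | with_reducible apply IntF.snd | with_reducible apply IntF.app | with_reducible apply IntF.inl | with_reducible apply IntF.inr | with_reducible_and_instances apply IntF.mul | with_reducible_and_instances apply IntF.inv | with_reducible_and_instances apply IntF.add | with_reducible_and_instances apply IntF.sub | with_reducible_and_instances apply IntF.neg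 | with_reducible_and_instances apply IntF.smul | with_reducible apply Int.fin | with_reducible apply IntF.sep | with_reducible apply IntF.lam | with_reducible apply IntF.insert | with_reducible apply IntF.singleton | with_reducible apply IntF.union | with_reducible apply IntF.iimage | with_reducible apply IntF.ite | with_reducible apply IntF.the | with_reducible apply IntF.irec | with_reducible apply IntF.succ | with_reducible apply IntF.val | with_reducible apply IntF.mk | (with_reducible refine Int.comp ?_ ?_; assumption) | (with_reducible refine Int.comp₂ ?_ ?_ ?_; assumption) | (with_reducible refine Int.comp₃ ?_ ?_ ?_ ?_; assumption) | (with_reducible refine Int.comp₄ ?_ ?_ ?_ ?_ ?_; assumption) | (with_reducible refine IntF.comp ?_ ?_; assumption) | (with_reducible refine IntF.comp₂ ?_ ?_ ?_; assumption) | (with_reducible refine IntF.comp₃ ?_ ?_ ?_ ?_; assumption) | with_reducible apply IntF.pair))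
  refine no_inj_hart (N := N) (X := IPow N α)
    ⟨fun ξ => vl hlt Γ T z ⟨{(ξ, (0 : INat N))}, IFin.singleton _⟩, hv.comp hs, fun ξ ξ' h1 => ?_⟩
  dsimp only at h1
  rcases (iwo_ltt (N := N) h).tri ⟨{(ξ, (0 : INat N))}, IFin.singleton _⟩
    ⟨{(ξ', (0 : INat N))}, IFin.singleton _⟩ with h2 | h2 | h2
  · obtain ⟨a, ha⟩ := (hgd ⟨{(ξ', (0 : INat N))}, IFin.singleton _⟩).2.1
    exact absurd (h1 ▸ ha) ((hgd ⟨{(ξ', (0 : INat N))}, IFin.singleton _⟩).2.2 _ h2 a ha)
  · have h3 : (ξ, (0 : INat N)) ∈ ({(ξ', (0 : INat N))} : IPow N _) := by
      have h4 := congrArg Subtype.val h2
      dsimp only at h4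
      rw [← h4, mem_singleton]
    rw [mem_singleton] at h3
    exact (Prod.mk.inj h3).1
  · obtain ⟨a, ha⟩ := (hgd ⟨{(ξ, (0 : INat N))}, IFin.singleton _⟩).2.1
    exact absurd (h1 ▸ ha) ((hgd ⟨{(ξ, (0 : INat N))}, IFin.singleton _⟩).2.2 _ h2 a ha)

end

end Pool.Agent.Helper672.ZFA.V244
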