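import Pool.Agent.V11244.Zf.Par
import Pool.Agent.H310R3.Bridge

/-!
# Three-cycles
-/

set_option maxHeartbeats 4000000
set_option linter.all false
set_option synthInstance.maxSize 2000

namespace Pool.Agent.Helper672.ZFA.V244

open FirstOrder FirstOrder.Language
open Pool.Agent.H310

universe u

section

variable {N : Type u} [L.Structure N] [hN : IsModel N]
variable {α β : Type u} [ITy N α] [ITy N β]

/-- The support. -/
noncomputable def spp (σ : IPm N α) : IPow N α := sep N fun a => ¬ σ.1 a = a

theorem int_spp : IntF N (fun σ : IPm N α => spp σ) := by
  unfold spp
  (repeat' (first | with_reducible exact IntF.id | with_reducible exact IntF.fst' | with_reducible exact IntF.snd' | with_reducible exact IntF.const _ | with_reducible exact Int.const _ | assumption | with_reducible apply Int.and | with_reducible apply Int.or | with_reducible apply Int.not | with_reducible apply Int.imp | with_reducible apply Int.iff | with_reducible apply Int.ne | with_reducible apply Int.eq | with_reducible apply Int.mem | with_reducible apply Int.subset | with_reducible apply Int.ltN | with_reducible apply Int.leN | with_reducible_and_instances apply Int.le | with_reducible_and_instances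 apply Int.lt | with_reducible apply Int.all | with_reducible apply Int.ex | with_reducible apply IntF.fst | with_reducible apply IntF.snd | with_reducible apply IntF.app | with_reducible apply IntF.inl | with_reducible apply IntF.inr | with_reducible_and_instances apply IntF.mul | with_reducible_and_instances apply IntF.inv | with_reducible_and_instances apply IntF.add | with_reducible_and_instances apply IntF.sub | with_reducible_and_instances apply IntF.neg | with_reducible_and_instances apply IntF.smul | with_reducible apply Int.fin | with_reducible apply IntF.sep | with_reducible apply IntF.lam | with_reducible apply IntF.insert | with_reducible apply IntF.singleton | with_reducible apply IntF.union | with_reducible apply IntF.iimage | with_reducible apply IntF.ite | with_reducible apply IntF.the | with_reducible apply IntF.irec | with_reducible apply IntF.succ | with_reducible apply IntF.val | with_reducible apply IntF.mk | (with_reducible refine Int.comp ?_ ?_; assumption) | (with_reducible refine Int.comp₂ ?_ ?_ ?_; assumption) | (with_reducible refine Int.comp₃ ?_ ?_ ?_ ?_; assumption) | (with_reducible refine Int.comp₄ ?_ ?_ ?_ ?_ ?_; assumption) | (with_reducible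 refine IntF.comp ?_ ?_; assumption) | (with_reducible refine IntF.comp₂ ?_ ?_ ?_; assumption) | (with_reducible refine IntF.comp₃ ?_ ?_ ?_ ?_; assumption) | with_reducible apply IntF.pair))

theorem mem_spp {σ : IPm N α} {a : α} : a ∈ spp σ ↔ ¬ σ.1 a = a := by
  unfold spp
  exact mem_sep (by (repeat' (first | with_reducible exact IntF.id | with_reducible exact IntF.fst' | with_reducible exact IntF.snd' | with_reducible exact IntF.const _ | with_reducible exact Int.const _ | assumption | with_reducible apply Int.and | with_reducible apply Int.or | with_reducible apply Int.not | with_reducible apply Int.imp | with_reducible apply Int.iff | with_reducible apply Int.ne | with_reducible apply Int.eq | with_reducible apply Int.mem | with_reducible apply Int.subset | with_reducible apply Int.ltN | with_reducible apply Int.leN | with_reducible_and_instances apply Int.le | with_reducible_and_instances apply Int.lt | with_reducible apply Int.all | with_reducible apply Int.ex | with_reducible apply IntF.fst | with_reducible apply IntF.snd | with_reducible apply IntF.app | with_reducible apply IntF.inl | with_reducible apply IntF.inr | with_reducible_and_instances apply IntF.mul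 | with_reducible_and_instances apply IntF.inv | with_reducible_and_instances apply IntF.add | with_reducible_and_instances apply IntF.sub | with_reducible_and_instances apply IntF.neg | with_reducible_and_instances apply IntF.smul | with_reducible apply Int.fin | with_reducible apply IntF.sep | with_reducible apply IntF.lam | with_reducible apply IntF.insert | with_reducible apply IntF.singleton | with_reducible apply IntF.union | with_reducible apply IntF.iimage | with_reducible apply IntF.ite | with_reducible apply IntF.the | with_reducible apply IntF.irec | with_reducible apply IntF.succ | with_reducible apply IntF.val | with_reducible apply IntF.mk | (with_reducible refine Int.comp ?_ ?_; assumption) | (with_reducible refine Int.comp₂ ?_ ?_ ?_; assumption) | (with_reducible refine Int.comp₃ ?_ ?_ ?_ ?_; assumption) | (with_reducible refine Int.comp₄ ?_ ?_ ?_ ?_ ?_; assumption) | (with_reducible refine IntF.comp ?_ ?_; assumption) | (with_reducible refine IntF.comp₂ ?_ ?_ ?_; assumption) | (with_reducible refine IntF.comp₃ ?_ ?_ ?_ ?_; assumption) | with_reducible apply IntF.pair)))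

/-- Three-cycles. -/
def Th (σ : IPm N α) : Prop :=
  ∃ x y z, ¬ x = y ∧ ¬ x = z ∧ ¬ y = z ∧ ∀ a, (¬ σ.1 a = a ↔ (a = x ∨ a = y ∨ a = z))

theorem Th.fin {σ : IPm N α} (h : Th σ) : IFin (spp σ) := by
  obtain ⟨x, y, z, -, -, -, h1⟩ := h
  refine (((IFin.singleton z).insert y).insert x).subset fun a ha => ?_
  rw [mem_insert, mem_insert, mem_singleton]
  exact (h1 a).1 (mem_spp.1 ha)

theorem moved {σ : IPm N α} {a : α} (h : ¬ σ.1 a = a) : ¬ σ.1 (σ.1 a) = σ.1 a :=
  fun h1 => h (σ.inj h1)

theorem fin_spp {T : IPow N α} : FinP N (fun σ : IPm N α => Th σ ∧ spp σ = T) := by
  by_cases hex : ∃ σ : IPm N α, Th σ ∧ spp σ = T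
  · obtain ⟨σ₀, h0, h0'⟩ := hex
    obtain ⟨x, y, z, hxy, hxz, hyz, h1⟩ := id h0
    have hT : IFin T := h0' ▸ h0.fin
    have hTm : ∀ a, a ∈ T ↔ (a = x ∨ a = y ∨ a = z) := fun a => by
      rw [← h0', mem_spp, h1]
    have hI : Int N (fun σ : IPm N α => ∀ a, (¬ σ.1 a = a ↔ (a = x ∨ a = y ∨ a = z))) := by (repeat' (first | with_reducible exact IntF.id | with_reducible exact IntF.fst' | with_reducible exact IntF.snd' | with_reducible exact IntF.const _ | with_reducible exact Int.const _ | assumption | with_reducible apply Int.and | with_reducible apply Int.or | with_reducible apply Int.not | with_reducible apply Int.imp | with_reducible apply Int.iff | with_reducible apply Int.ne | with_reducible apply Int.eq | with_reducible apply Int.mem | with_reducible apply Int.subset | with_reducible apply Int.ltN | with_reducible apply Int.leN | with_reducible_and_instances apply Int.le | with_reducible_and_instances apply Int.lt | with_reducible apply Int.all | with_reducible apply Int.ex | with_reducible apply IntF.fst | with_reducible apply IntF.snd | with_reducible apply IntF.app | with_reducible apply IntF.inl | with_reducible apply IntF.inr | with_reducible_and_instances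 apply IntF.mul | with_reducible_and_instances apply IntF.inv | with_reducible_and_instances apply IntF.add | with_reducible_and_instances apply IntF.sub | with_reducible_and_instances apply IntF.neg | with_reducible_and_instances apply IntF.smul | with_reducible apply Int.fin | with_reducible apply IntF.sep | with_reducible apply IntF.lam | with_reducible apply IntF.insert | with_reducible apply IntF.singleton | with_reducible apply IntF.union | with_reducible apply IntF.iimage | with_reducible apply IntF.ite | with_reducible apply IntF.the | with_reducible apply IntF.irec | with_reducible apply IntF.succ | with_reducible apply IntF.val | with_reducible apply IntF.mk | (with_reducible refine Int.comp ?_ ?_; assumption) | (with_reducible refine Int.comp₂ ?_ ?_ ?_; assumption) | (with_reducible refine Int.comp₃ ?_ ?_ ?_ ?_; assumption) | (with_reducible refine Int.comp₄ ?_ ?_ ?_ ?_ ?_; assumption) | (with_reducible refine IntF.comp ?_ ?_; assumption) | (with_reducible refine IntF.comp₂ ?_ ?_ ?_; assumption) | (with_reducible refine IntF.comp₃ ?_ ?_ ?_ ?_; assumption) | with_reducible apply IntF.pair))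
    have h2 : FinP N (fun r : α × α × α => r ∈ iprod T (iprod T T)) :=
      ⟨_, hT.prod (hT.prod hT), fun _ h => h⟩
    refine (FinP.of_inj (f := fun σ : IPm N α => (σ.1 x, (σ.1 y, σ.1 z))) hI (by (repeat' (first | with_reducible exact IntF.id | with_reducible exact IntF.fst' | with_reducible exact IntF.snd' | with_reducible exact IntF.const _ | with_reducible exact Int.const _ | assumption | with_reducible apply Int.and | with_reducible apply Int.or | with_reducible apply Int.not | with_reducible apply Int.imp | with_reducible apply Int.iff | with_reducible apply Int.ne | with_reducible apply Int.eq | with_reducible apply Int.mem | with_reducible apply Int.subset | with_reducible apply Int.ltN | with_reducible apply Int.leN | with_reducible_and_instances apply Int.le | with_reducible_and_instances apply Int.lt | with_reducible apply Int.all | with_reducible apply Int.ex | with_reducible apply IntF.fst | with_reducible apply IntF.snd | with_reducible apply IntF.app | with_reducible apply IntF.inl | with_reducible apply IntF.inr | with_reducible_and_instances apply IntF.mul | with_reducible_and_instances apply IntF.inv | with_reducible_and_instances apply IntF.add |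 with_reducible_and_instances apply IntF.sub | with_reducible_and_instances apply IntF.neg | with_reducible_and_instances apply IntF.smul | with_reducible apply Int.fin | with_reducible apply IntF.sep | with_reducible apply IntF.lam | with_reducible apply IntF.insert | with_reducible apply IntF.singleton | with_reducible apply IntF.union | with_reducible apply IntF.iimage | with_reducible apply IntF.ite | with_reducible apply IntF.the | with_reducible apply IntF.irec | with_reducible apply IntF.succ | with_reducible apply IntF.val | with_reducible apply IntF.mk | (with_reducible refine Int.comp ?_ ?_; assumption) | (with_reducible refine Int.comp₂ ?_ ?_ ?_; assumption) | (with_reducible refine Int.comp₃ ?_ ?_ ?_ ?_; assumption) | (with_reducible refine Int.comp₄ ?_ ?_ ?_ ?_ ?_; assumption) | (with_reducible refine IntF.comp ?_ ?_; assumption) | (with_reducible refine IntF.comp₂ ?_ ?_ ?_; assumption) | (with_reducible refine IntF.comp₃ ?_ ?_ ?_ ?_; assumption) | with_reducible apply IntF.pair)))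
      (fun σ τ hσ hτ h3 => ?_) h2 fun σ hσ => ?_).mono fun σ hσ a => ?_
    · obtain ⟨h4, h5⟩ := Prod.mk.inj h3
      obtain ⟨h5, h6⟩ := Prod.mk.inj h5
      refine IPm.ext fun a => ?_
      by_cases ha : a = x ∨ a = y ∨ a = z
      · rcases ha with rfl | rfl | rfl
        · exact h4
        · exact h5
        · exact h6
      · have h7 := mt (hσ a).1 ha
        have h8 := mt (hτ a).1 ha
        rw [not_not] at h7 h8
        rw [h7, h8]
    · rw [mem_iprod, mem_iprod]
      have h4 : ∀ a, a ∈ T → σ.1 a ∈ T := fun a ha => by
        rw [hTm] at ha ⊢
        exact (hσ _).1 (moved ((hσ a).2 ha))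
      exact ⟨h4 x ((hTm x).2 (Or.inl rfl)), h4 y ((hTm y).2 (Or.inr (Or.inl rfl))),
        h4 z ((hTm z).2 (Or.inr (Or.inr rfl)))⟩
    · rw [← hTm, ← hσ.2, mem_spp]
  · exact ⟨∅, IFin.empty, fun σ hσ => absurd ⟨σ, hσ⟩ hex⟩

variable {F : FPt N α → IPm N α} (hF : IntF N F) (hinj : ∀ P Q, F P = F Q → P = Q)
  (hth : ∀ P, Th (F P))

include hF hinj hth in
theorem gg_S3 : GG (fun S : IPow N (IPow N α) => spp (F (cpt S))) := by
  refine gg_of hF (fun b => ?_) int_spp (fun P => ?_) fun T => ?_
  · by_cases hb : ∃ P, F P = b
    · obtain ⟨P, rfl⟩ := hb
      exact (FinP.eq P).mono fun Q hQ => hinj _ _ hQ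
    · exact ⟨∅, IFin.empty, fun P hP => absurd ⟨P, hP⟩ hb⟩
  · obtain ⟨x, y, z, -, -, -, h1⟩ := hth P
    exact ⟨x, y, z, fun a => mem_spp.trans (h1 a)⟩
  · refine (fin_spp (T := T)).mono ?_
    rintro b ⟨⟨P, rfl⟩, h1⟩
    exact ⟨hth P, h1⟩

end

end Pool.Agent.Helper672.ZFA.V244
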