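import Pool.Agent.V11244.Zf.STa

/-!
# Three-cycles: orientation
-/

set_option maxHeartbeats 1000000
set_option linter.all false
set_option synthInstance.maxSize 2000

namespace Pool.Agent.Helper672.ZFA.V244

open FirstOrder FirstOrder.Language
open Pool.Agent.H310

universe u

section

variable {N : Type u} [L.Structure N] [hN : IsModel N]
variable {α β : Type u} [ITy N α] [ITy N β]

/-- Three different numbers can be sorted. -/
theorem sort3 (e : α → INat N) {x y z : α} (h1 : ¬ e x = e y) (h2 : ¬ e x = e z)
    (h3 : ¬ e y = e z) : ∃ x' y' z', e x' < e y' ∧ e y' < e z' ∧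
      ∀ a, (a = x ∨ a = y ∨ a = z) ↔ (a = x' ∨ a = y' ∨ a = z') := by
  rcases lt_or_gt_of_ne h1 with a1 | a1 <;> rcases lt_or_gt_of_ne h2 with a2 | a2 <;>
    rcases lt_or_gt_of_ne h3 with a3 | a3
  · exact ⟨x, y, z, a1, a3, fun a => by
    constructor <;> rintro (rfl | rfl | rfl) <;> simp⟩
  · exact ⟨x, z, y, a2, a3, fun a => by
    constructor <;> rintro (rfl | rfl | rfl) <;> simp⟩
  · exact absurd (a1.trans a3) (not_lt.2 (le_of_lt a2))
  · exact ⟨z, x, y, a2, a1, fun a => by
    constructor <;> rintro (rfl | rfl | rfl) <;> simp⟩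
  · exact ⟨y, x, z, a1, a2, fun a => by
    constructor <;> rintro (rfl | rfl | rfl) <;> simp⟩
  · exact absurd (a3.trans a1) (not_lt.2 (le_of_lt a2))
  · exact ⟨y, z, x, a3, a2, fun a => by
    constructor <;> rintro (rfl | rfl | rfl) <;> simp⟩
  · exact ⟨z, y, x, a3, a1, fun a => by
    constructor <;> rintro (rfl | rfl | rfl) <;> simp⟩

/-- Positively oriented cycles. -/
def Ps (e : IFun N α (INat N)) (σ : IPm N α) : Prop :=
  ∃ x y, e x < e y ∧ σ.1 x = y ∧ e y < e (σ.1 y)

theorem int_Ps (e : IFun N α (INat N)) : Int N (fun σ : IPm N α => Ps e σ) := by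
  unfold Ps
  (repeat' (first | with_reducible exact IntF.id | with_reducible exact IntF.fst' | with_reducible exact IntF.snd' | with_reducible exact IntF.const _ | with_reducible exact Int.const _ | assumption | with_reducible apply Int.and | with_reducible apply Int.or | with_reducible apply Int.not | with_reducible apply Int.imp | with_reducible apply Int.iff | with_reducible apply Int.ne | with_reducible apply Int.eq | with_reducible apply Int.mem | with_reducible apply Int.subset | with_reducible apply Int.ltN | with_reducible apply Int.leN | with_reducible_and_instances apply Int.le | with_reducible_and_instances apply Int.lt | with_reducible apply Int.all | with_reducible apply Int.ex | with_reducible apply IntF.fst | with_reducible apply IntF.snd | with_reducible apply IntF.app | with_reducible apply IntF.inl | with_reducible apply IntF.inr | with_reducible_and_instances apply IntF.mul | with_reducible_and_instances apply IntF.inv | with_reducible_and_instances apply IntF.add | with_reducible_and_instances apply IntF.sub | with_reducible_and_instances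 apply IntF.neg | with_reducible_and_instances apply IntF.smul | with_reducible apply Int.fin | with_reducible apply IntF.sep | with_reducible apply IntF.lam | with_reducible apply IntF.insert | with_reducible apply IntF.singleton | with_reducible apply IntF.union | with_reducible apply IntF.iimage | with_reducible apply IntF.ite | with_reducible apply IntF.the | with_reducible apply IntF.irec | with_reducible apply IntF.succ | with_reducible apply IntF.val | with_reducible apply IntF.mk | (with_reducible refine Int.comp ?_ ?_; assumption) | (with_reducible refine Int.comp₂ ?_ ?_ ?_; assumption) | (with_reducible refine Int.comp₃ ?_ ?_ ?_ ?_; assumption) | (with_reducible refine Int.comp₄ ?_ ?_ ?_ ?_ ?_; assumption) | (with_reducible refine IntF.comp ?_ ?_; assumption) | (with_reducible refine IntF.comp₂ ?_ ?_ ?_; assumption) | (with_reducible refine IntF.comp₃ ?_ ?_ ?_ ?_; assumption) | with_reducible apply IntF.pair))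

/-- The two cycles on a sorted triple. -/
theorem two_cyc {e : IFun N α (INat N)} {σ : IPm N α} {x y z : α} (h1 : e x < e y)
    (h2 : e y < e z) (h : ∀ a, (¬ σ.1 a = a ↔ (a = x ∨ a = y ∨ a = z))) :
    (Ps e σ ∧ σ.1 x = y ∧ σ.1 y = z ∧ σ.1 z = x) ∨
      (¬ Ps e σ ∧ σ.1 x = z ∧ σ.1 z = y ∧ σ.1 y = x) := by
  have nxy : ¬ x = y := fun h => by rw [h] at h1; exact lt_irrefl _ h1
  have nyz : ¬ y = z := fun h => by rw [h] at h2; exact lt_irrefl _ h2
  have nxz : ¬ x = z := fun h => by rw [h] at h1; exact lt_irrefl _ (h1.trans h2)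
  have mx := (h x).2 (Or.inl rfl)
  have my := (h y).2 (Or.inr (Or.inl rfl))
  have mz := (h z).2 (Or.inr (Or.inr rfl))
  have sx := (h _).1 (moved mx)
  have sy := (h _).1 (moved my)
  have sz := (h _).1 (moved mz)
  rcases sx with sx | sx | sx
  · exact absurd sx mx
  · left
    have ty : σ.1 y = z := by
      rcases sy with sy | sy | sy
      · exfalso
        rcases sz with sz | sz | sz
        · exact nyz (σ.inj (sy.trans sz.symm))
        · exact nxz (σ.inj (sx.trans sz.symm))
        · exact mz sz
      · exact absurd sy my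
      · exact sy
    have tz : σ.1 z = x := by
      rcases sz with sz | sz | sz
      · exact sz
      · exact absurd (σ.inj (sx.trans sz.symm)) nxz
      · exact absurd sz mz
    exact ⟨⟨x, y, h1, sx, by rw [ty]; exact h2⟩, sx, ty, tz⟩
  · right
    have tz : σ.1 z = y := by
      rcases sz with sz | sz | sz
      · exfalso
        rcases sy with sy | sy | sy
        · exact nyz (σ.inj (sy.trans sz.symm))
        · exact my sy
        · exact nxy (σ.inj (sx.trans sy.symm))
      · exact sz
      · exact absurd sz mz
    have ty : σ.1 y = x := by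
      rcases sy with sy | sy | sy
      · exact sy
      · exact absurd sy my
      · exact absurd (σ.inj (sx.trans sy.symm)) nxy
    refine ⟨?_, sx, tz, ty⟩
    rintro ⟨x', y', b1, b2, b3⟩
    have b4 : ¬ σ.1 x' = x' := fun h4 => by
      rw [← b2, h4] at b1
      exact lt_irrefl _ b1
    rcases (h x').1 b4 with rfl | rfl | rfl
    · rw [sx] at b2
      rw [← b2, tz] at b3
      exact absurd b3 (not_lt.2 (le_of_lt h2))
    · rw [ty] at b2
      rw [← b2] at b1
      exact absurd b1 (not_lt.2 (le_of_lt h1))
    · rw [tz] at b2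
      rw [← b2] at b1
      exact absurd b1 (not_lt.2 (le_of_lt h2))

/-- A cycle is determined by its support and its orientation. -/
theorem cyc_det {e : IFun N α (INat N)} {σ τ : IPm N α} (hσ : Th σ)
    (he : ∀ a b, a ∈ spp σ → b ∈ spp σ → e a = e b → a = b) (h : spp σ = spp τ)
    (h' : Ps e σ ↔ Ps e τ) : σ = τ := by
  obtain ⟨x, y, z, hxy, hxz, hyz, h1⟩ := hσ
  have mx : x ∈ spp σ := mem_spp.2 ((h1 x).2 (Or.inl rfl))
  have my : y ∈ spp σ := mem_spp.2 ((h1 y).2 (Or.inr (Or.inl rfl)))
  have mz : z ∈ spp σ := mem_spp.2 ((h1 z).2 (Or.inr (Or.inr rfl)))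
  obtain ⟨x', y', z', h2, h3, h4⟩ := sort3 (fun a => e a) (fun h => hxy (he _ _ mx my h))
    (fun h => hxz (he _ _ mx mz h)) (fun h => hyz (he _ _ my mz h))
  have h5 : ∀ a, (¬ σ.1 a = a ↔ (a = x' ∨ a = y' ∨ a = z')) := fun a => (h1 a).trans (h4 a)
  have h6 : ∀ a, (¬ τ.1 a = a ↔ (a = x' ∨ a = y' ∨ a = z')) := fun a => by
    rw [← h5, ← mem_spp, ← mem_spp, h]
  have key : σ.1 x' = τ.1 x' ∧ σ.1 y' = τ.1 y' ∧ σ.1 z' = τ.1 z' := by
    rcases two_cyc h2 h3 h5 with ⟨p, a1, a2, a3⟩ | ⟨p, a1, a2, a3⟩ <;>
      rcases two_cyc h2 h3 h6 with ⟨q, b1, b2, b3⟩ | ⟨q, b1, b2, b3⟩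
    · exact ⟨a1.trans b1.symm, a2.trans b2.symm, a3.trans b3.symm⟩
    · exact absurd (h'.1 p) q
    · exact absurd (h'.2 q) p
    · exact ⟨a1.trans b1.symm, a3.trans b3.symm, a2.trans b2.symm⟩
  refine IPm.ext fun a => ?_
  by_cases ha : a = x' ∨ a = y' ∨ a = z'
  · rcases ha with rfl | rfl | rfl
    · exact key.1
    · exact key.2.1
    · exact key.2.2
  · have h7 := mt (h5 a).1 ha
    have h8 := mt (h6 a).1 ha
    rw [not_not] at h7 h8
    rw [h7, h8]

end

end Pool.Agent.Helper672.ZFA.V244
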